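import Pool.Agent.Helper53.QF.RedLow2

/-!
# All `α₀ ∈ (l, l + 1]` from `α₀ = l + 1`

`Top l`: there are `f`, `Ψ`, `P` as in `Asym` (`T(r, f) ~ (l+1) log 1/(1-r)`, `T(r, P) = o(log 1/(1-r))`) with
`log⁺ |f(z)| ≤ C (1 + log 1/(1-|z|))^m`. `holds_iff_of_top`: if `Top l` for all `l ≥ 1`, then for all `l ≥ 1`, `x ≥ 0`
`Holds l x ↔ l + 1 < x`.
-/

set_option autoImplicit false

open Filter Topology Metric Complex
open scoped Real

namespace Pool.Agent.Helper53.QF

open Pool.Agent.Helper61.Nev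

/-- What the construction has to deliver for `α₀ = l + 1`. -/
def Top (l : ℕ) : Prop := ∃ f Ψ P : ℂ → ℂ, Asym l f Ψ P ∧
  ∃ (C : ℝ) (m : ℕ), ∀ z ∈ ball (0 : ℂ) 1, Real.posLog ‖f z‖ ≤ C * (1 + Lr ‖z‖) ^ m

theorem alpha_of_ev {F : ℂ → ℂ} {a : ℝ}
    (hup : ∀ ε : ℝ, 0 < ε → ∀ᶠ r : ℝ in 𝓝[<] 1, charT F r ≤ (a + ε) * Lr r)
    (hlow : ∀ ε : ℝ, 0 < ε → ∀ᶠ r : ℝ in 𝓝[<] 1, (a - ε) * Lr r ≤ charT F r) :
    alpha F = (a : EReal) := by
  refine le_antisymm ?_ ?_
  · refine EReal.le_of_forall_lt_iff_le.1 fun z hz => ?_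
    have hz' : a < z := by exact_mod_cast hz
    refine Filter.limsup_le_of_le (by isBoundedDefault) ?_
    filter_upwards [hup (z - a) (by linarith), tendsto_Lr.eventually_gt_atTop 0] with r hr hL
    rw [EReal.coe_le_coe_iff]
    refine (div_le_iff₀ hL).2 (hr.trans (le_of_eq ?_))
    ring
  · refine EReal.ge_of_forall_gt_iff_ge.1 fun z hz => ?_
    have hz' : z < a := by exact_mod_cast hz
    refine Filter.le_limsup_of_frequently_le ?_ (by isBoundedDefault)
    refine Filter.Eventually.frequently ?_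
    filter_upwards [hlow (a - z) (by linarith), tendsto_Lr.eventually_gt_atTop 0] with r hr hL
    rw [EReal.coe_le_coe_iff]
    refine (le_div_iff₀ hL).2 (le_trans (le_of_eq ?_) hr)
    ring

theorem not_holds_of_top {l : ℕ} (hT : Top l) {a : ℝ} (ha0 : 0 < a) (ha1 : a ≤ l + 1) :
    ¬ Holds l (a : EReal) := by
  obtain ⟨f, Ψ, P, A, hgrow⟩ := hT
  have hl : (0 : ℝ) < l + 1 := by positivity
  rcases ha1.eq_or_lt with h | h
  · rw [h]
    exact not_holds_of_data (data_of_ev hl A.basic A.up A.low A.sm)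
  · -- composition
    have hpi := Real.pi_pos
    set k : ℝ := 1 - a / (l + 1) with hk
    have hk0 : 0 < k := by
      have : a / (l + 1) < 1 := (div_lt_one hl).2 h
      linarith
    have hk1 : k < 1 := by
      have : 0 < a / (l + 1) := div_pos ha0 hl
      linarith
    set α : ℝ := π * k with hα
    have h0 : 0 < α := mul_pos hpi hk0
    have h1 : α < π := by nlinarith
    have hαk : α / π = k := by
      rw [hα]
      field_simp
    have hval : (l + 1) * (1 - α / π) = a := by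
      rw [hαk, hk]
      field_simp
      ring
    have hup := fun (ε : ℝ) (hε : 0 < ε) => A.up_BB h0 h1 hε
    have hlow := fun (ε : ℝ) (hε : 0 < ε) => A.low_BB hgrow h0 h1 hε
    rw [hval] at hup hlow
    have hhalf : ∀ᶠ r : ℝ in 𝓝[<] 1, a / 2 * Lr r ≤ charT (fun z => f (BB α z)) r := by
      filter_upwards [hlow (a / 2) (by linarith)] with r hr
      linarith
    have G := A.comp_alpha (selfMap_BB h0 h1) (half_pos ha0) hhalf
    have halpha : alpha (fun z => f (BB α z)) = (a : EReal) := alpha_of_ev hup hlow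
    rw [← halpha]
    exact G.not_holds

/-- **The full answer from `α₀ = l + 1`.** -/
theorem holds_iff_of_top (hT : ∀ l : ℕ, 1 ≤ l → Top l) (l : ℕ) (hl : 1 ≤ l) (x : ℝ) (hx : 0 ≤ x) :
    Holds l (x : EReal) ↔ (l : ℝ) + 1 < x := by
  refine holds_iff (fun l hl a h0 h1 => not_holds_of_top (hT l hl) ?_ h1) l hl x hx
  exact lt_of_le_of_lt (Nat.cast_nonneg l) h0

end Pool.Agent.Helper53.QF
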