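import Pool.Agent.Helper81.QF.Defs
import Pool.Agent.Helper53.QF.Reduce

/-!
# MP_78803a: the interface between the cycles and the limit

`Chain l T B f P`: what the sequence of cycles has to deliver (`B n = b n / d n`, `T n = y n ^ 16`). `Means`: the growth on `|z| = 1`.
`Limit.lean`: `Chain → Means → Top l`.
-/

set_option autoImplicit false

open Filter Topology Metric Complex

namespace Pool.Agent.Helper53.QF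

open Pool.Agent.Helper81.QF

/-- the radius `R_n = 1 - exp (-(T + 20 log T))` -/
noncomputable def Rad (T : ℝ) : ℝ := 1 - Real.exp (-(T + 20 * Real.log T))

structure Chain (l : ℕ) (T : ℕ → ℝ) (B f P : ℕ → ℂ → ℂ) : Prop where
  T0 : 3 ≤ T 0
  Tlo : ∀ n, T n + 1 ≤ T (n + 1)
  Thi : ∀ n, T (n + 1) ≤ T n + 2 * √(T n)
  anB : ∀ n, AnalyticOnNhd ℂ (B n) (closedBall 0 1)
  anf : ∀ n, AnalyticOnNhd ℂ (f n) (closedBall 0 1)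
  anP : ∀ n, AnalyticOnNhd ℂ (P n) (closedBall 0 1)
  Blt : ∀ n, ∀ z : ℂ, ‖z‖ ≤ 1 → ‖B n z‖ < 1
  fne : ∀ n, ∀ z : ℂ, ‖z‖ ≤ 1 → f n z ≠ 0
  B0 : ∀ n, B n 0 = 0
  P0 : ∀ n, P n 0 = Pst l
  eq : ∀ n, ∀ z : ℂ, ‖z‖ ≤ 1 → iteratedDeriv l (f n) z = P n z * Ps l (B n z)
  df : ∀ n, ∀ z : ℂ, ‖z‖ ≤ 1 → ‖deriv (f n) z‖ ≤ Real.exp (T n) * ‖f n z‖
  dB : ∀ n, ∀ z : ℂ, ‖z‖ ≤ 1 → ‖deriv (B n) z‖ ≤ Real.exp (T n)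
  cf : ∀ n, ∀ z : ℂ, ‖z‖ ≤ Rad (T n) → ‖f (n + 1) z - f n z‖ ≤ Real.exp (-T n) * ‖f n z‖
  cB : ∀ n, ∀ z : ℂ, ‖z‖ ≤ Rad (T n) → ‖B (n + 1) z - B n z‖ ≤ Real.exp (-T n)
  cP : ∀ n, ∀ z : ℂ, ‖z‖ ≤ Rad (T n) → ‖P (n + 1) z - P n z‖ ≤ Real.exp (-T n)
  flog : ∀ n, ∀ z : ℂ, ‖z‖ = 1 → |Real.log ‖f n z‖| ≤ T n ^ 12
  /-- from `tau → ∞` -/
  big : ∀ᶠ n in atTop, ∃ z : ℂ, ‖z‖ = 1 ∧ 1 / 2 ≤ ‖B n z‖

/-- growth on the circle -/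
structure Means (l : ℕ) (T : ℕ → ℝ) (f P : ℕ → ℂ → ℂ) : Prop where
  up : ∀ ε : ℝ, 0 < ε → ∀ᶠ n in atTop,
    Real.circleAverage (fun z => Real.posLog ‖f n z‖) 0 1 ≤ (l + 1 + ε) * T n
  low : ∀ ε : ℝ, 0 < ε → ∀ᶠ n in atTop,
    (l + 1 - ε) * T n ≤ Real.circleAverage (fun z => Real.posLog ‖f n z‖) 0 1
  sm : ∀ ε : ℝ, 0 < ε → ∀ᶠ n in atTop,
    Real.circleAverage (fun z => Real.posLog ‖P n z‖) 0 1 ≤ ε * T n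

end Pool.Agent.Helper53.QF
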