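import Pool.Agent.Helper53.QF.Limit3
import Pool.Agent.Helper84.PD.Seq

/-!
# MP_78803a: the full answer from `CycleGoal`
-/

set_option autoImplicit false

namespace Pool.Agent.Helper53.QF

open Pool.Agent.Helper61.Nev Pool.Agent.Helper81.QF Pool.Agent.Helper84.Lam

theorem top_of_cycle {l : ℕ} {C₃ : ℝ} (hl : 1 ≤ l) (hC : Real.log (YD 0) ≤ C₃)
    (h : CycleGoal l C₃) : Top l := by
  obtain ⟨T, B, f, P, c, M⟩ := Pool.Agent.Helper84.PD.chain_of_cycle hl hC h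
  exact top_of_chain c M

/-- The answer to Q1 from the cycle. -/
theorem answer_of_cycle
    (h : ∀ l : ℕ, 1 ≤ l → ∃ C₃ : ℝ, Real.log (YD 0) ≤ C₃ ∧ CycleGoal l C₃) (l : ℕ) (hl : 1 ≤ l) :
    (∀ x : ℝ, 0 ≤ x → (Holds l (x : EReal) ↔ (l : ℝ) + 1 < x)) ∧
    IsLeast {c : ℝ | ∀ x : ℝ, c < x → Holds l (x : EReal)} ((l : ℝ) + 1) := by
  have H := holds_iff_of_top (fun l hl => by
    obtain ⟨C₃, hC, hg⟩ := h l hl
    exact top_of_cycle hl hC hg) l hl
  have hl0 : (0 : ℝ) ≤ l := Nat.cast_nonneg l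
  refine ⟨H, fun x hx => (H x (by linarith)).2 hx, fun c hc => ?_⟩
  by_contra hlt
  rw [not_le] at hlt
  have h1 : max c 0 < (l : ℝ) + 1 := max_lt hlt (by linarith)
  have h2 : c < (max c 0 + (l + 1)) / 2 := by linarith [le_max_left c 0]
  have h3 := (H _ (by linarith [le_max_right c 0])).1 (hc _ h2)
  linarith

end Pool.Agent.Helper53.QF
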