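import Pool.Agent.Helper58.LD.Final
import Pool.Agent.Helper53.DR.Final

/-!
# MP_78803a_an, full answer: the last part of the proof

`Data l a f Ψ P`: what the construction has to deliver for `a ∈ (l, l+1]`.
* `not_holds_of_data`: `Data l a f Ψ P → ¬ Holds l a`, for every real `a`.
* `SeqData`: the same with asymptotics along a sequence of radii `R n → 1`, `log (1 - R (n+1)) ~ log (1 - R n)`
  (`T(r, f)` and `T(r, P)` increase, see `Mono.lean`).
* `holds_iff`: if `¬ Holds l a` for all `l ≥ 1`, `a ∈ (l, l+1]`, then `Holds l x ↔ l + 1 < x` for all `x ≥ 0`.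
-/

set_option autoImplicit false

open Filter Topology Metric Complex

namespace Pool.Agent.Helper53.QF

open Pool.Agent.Helper61.Nev

/-- What the construction has to deliver. -/
structure Data (l : ℕ) (a : ℝ) (f Ψ P : ℂ → ℂ) : Prop where
  anf : AnalyticOnNhd ℂ f (ball 0 1)
  anΨ : AnalyticOnNhd ℂ Ψ (ball 0 1)
  anP : AnalyticOnNhd ℂ P (ball 0 1)
  /-- `f` is zero-free -/
  f_ne : ∀ z ∈ ball (0 : ℂ) 1, f z ≠ 0
  /-- `Ψ` omits the value `1` -/
  Ψ_ne : ∀ z ∈ ball (0 : ℂ) 1, Ψ z ≠ 1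
  /-- the identity `f^(l) = P Ψ` -/
  eq : ∀ z ∈ ball (0 : ℂ) 1, iteratedDeriv l f z = P z * Ψ z
  /-- `Ψ` is not constant -/
  Ψ_nc : ∃ z ∈ ball (0 : ℂ) 1, ∃ w ∈ ball (0 : ℂ) 1, Ψ z ≠ Ψ w
  /-- `P` is not identically zero -/
  P_ne : ∃ z ∈ ball (0 : ℂ) 1, P z ≠ 0
  /-- upper bound for `T(r, f)`, all `r` -/
  up : ∀ ε : ℝ, 0 < ε → ∃ C : ℝ, ∀ r : ℝ, 0 < r → r < 1 →
    charT f r ≤ (a + ε) * (-Real.log (1 - r)) + C
  /-- lower bound for `T(r, f)`, a sequence `r → 1` -/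
  low : ∀ ε : ℝ, 0 < ε → ∃ C : ℝ, ∀ ρ : ℝ, ρ < 1 → ∃ R : ℝ, ρ < R ∧ 0 < R ∧ R < 1 ∧
    (a - ε) * (-Real.log (1 - R)) - C ≤ charT f R
  /-- `T(r, P) = o(T(r, f))`, and `T(r, f) → ∞` -/
  small : ∀ ε : ℝ, 0 < ε → ∀ K : ℝ, ∃ ρ : ℝ, ρ < 1 ∧ ∀ r : ℝ, ρ < r → r < 1 →
    charT P r + K ≤ ε * charT f r

/-- a lower bound for the characteristic of `1/P` -/
theorem charT_inv_ge {P : ℂ → ℂ} (hP : AnalyticOnNhd ℂ P (ball 0 1)) :
    ∃ C : ℝ, 0 ≤ C ∧ ∀ r : ℝ, 1 / 2 ≤ r → r < 1 → -C ≤ charT (fun z => (P z)⁻¹) r := by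
  have hm : MeromorphicOn P (ball 0 1) := hP.meromorphicOn
  have hp : (0 : ℝ) ≤ pm P⁻¹ 0 := by exact_mod_cast pm_nonneg P⁻¹ 0
  have hl2 : 0 ≤ Real.log 2 := Real.log_nonneg (by norm_num)
  refine ⟨pm P⁻¹ 0 * Real.log 2, mul_nonneg hp hl2, fun r h0 h1 => ?_⟩
  have h2 : charT (fun z => (P z)⁻¹) r = Ts P⁻¹ r + pm P⁻¹ 0 * Real.log r :=
    charT_eq hm.inv (by linarith) h1
  have h3 := abs_log_le h0 h1
  have h4 := neg_abs_le (Real.log r)
  have h5 := Ts_nonneg P⁻¹ r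
  rw [h2]
  nlinarith

/-- `1/P` is a small function. -/
theorem Data.small_inv {l : ℕ} {a : ℝ} {f Ψ P : ℂ → ℂ} (D : Data l a f Ψ P) :
    charT (fun z => (P z)⁻¹) =o[𝓝[<] 1] charT f := by
  obtain ⟨C1, hC1⟩ := Pool.Agent.Helper58.LD.charT_inv_le D.anP
  obtain ⟨C2, hC20, hC2⟩ := charT_inv_ge D.anP
  rw [Asymptotics.isLittleO_iff]
  intro c hc
  obtain ⟨ρ, hρ, hρr⟩ := D.small c hc (max C1 C2)
  have h1 : Set.Ioo (max ρ (1 / 2)) 1 ∈ 𝓝[<] (1 : ℝ) := Ioo_mem_nhdsLT (max_lt hρ (by norm_num))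
  filter_upwards [h1] with r hr
  have hr0 : ρ < r := lt_of_le_of_lt (le_max_left _ _) hr.1
  have hr1 : 1 / 2 < r := lt_of_le_of_lt (le_max_right _ _) hr.1
  have h2 := hρr r hr0 hr.2
  have h3 := hC1 r hr1.le hr.2
  have h4 := hC2 r hr1.le hr.2
  have h5 := Pool.Agent.Helper61.Lac.charT_nonneg D.anP hr.2
  have h6 := Pool.Agent.Helper61.Lac.charT_nonneg D.anf hr.2
  have h7 : C1 ≤ max C1 C2 := le_max_left _ _
  have h8 : C2 ≤ max C1 C2 := le_max_right _ _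
  rw [Real.norm_eq_abs, Real.norm_eq_abs, abs_of_nonneg h6, abs_le]
  constructor
  · linarith
  · linarith

theorem Data.alpha_eq {l : ℕ} {a : ℝ} {f Ψ P : ℂ → ℂ} (D : Data l a f Ψ P) :
    alpha f = (a : EReal) :=
  le_antisymm (Pool.Agent.Helper61.Lac.alpha_le D.up) (Pool.Agent.Helper61.Lac.le_alpha D.low)

/-- an analytic function that is constant in the sense of `ConstInDisc` is constant -/
theorem eq_of_constInDisc {g : ℂ → ℂ} (hg : AnalyticOnNhd ℂ g (ball 0 1)) (h : ConstInDisc g)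
    {z w : ℂ} (hz : z ∈ ball (0 : ℂ) 1) (hw : w ∈ ball (0 : ℂ) 1) : g z = g w := by
  obtain ⟨c, hc⟩ := h
  have h1 := Pool.Agent.Helper61.Lac.eqOn_of_codiscrete hg.continuousOn continuousOn_const hc
  rw [h1 z hz, h1 w hw]

/-- `f` is not constant, because `T(r, f) → ∞` -/
theorem Data.f_nc {l : ℕ} {a : ℝ} {f Ψ P : ℂ → ℂ} (D : Data l a f Ψ P) : ¬ ConstInDisc f := by
  intro h
  have hB : ∀ z ∈ ball (0 : ℂ) 1, ‖f z‖ ≤ ‖f 0‖ := fun z hz => by
    rw [eq_of_constInDisc D.anf h hz (mem_ball_self one_pos)]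
  obtain ⟨ρ, hρ, hρr⟩ := D.small 1 one_pos (Real.posLog ‖f 0‖ + 1)
  set r : ℝ := max ((ρ + 1) / 2) (1 / 2) with hr
  have hr1 : r < 1 := max_lt (by linarith) (by norm_num)
  have hr0 : 0 < r := lt_of_lt_of_le (by norm_num) (le_max_right _ _)
  have hrρ : ρ < r := lt_of_lt_of_le (by linarith) (le_max_left _ _)
  have h1 := hρr r hrρ hr1
  have h2 := Pool.Agent.Helper61.Lac.charT_nonneg D.anP hr1
  have h3 := Pool.Agent.Helper61.Lac.charT_le_of_bound D.anf hB hr0.le hr1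
  linarith

private theorem ne_zero_near {P : ℂ → ℂ} (anP : AnalyticOnNhd ℂ P (ball 0 1))
    (hP : ∃ z ∈ ball (0 : ℂ) 1, P z ≠ 0) {z : ℂ} (hz : z ∈ ball (0 : ℂ) 1) :
    ∀ᶠ w in 𝓝[≠] z, P w ≠ 0 := by
  rcases (anP z hz).eventually_eq_zero_or_eventually_ne_zero with h | h
  · exfalso
    have h1 := anP.eqOn_zero_of_preconnected_of_eventuallyEq_zero
      (convex_ball (0 : ℂ) 1).isPreconnected hz h
    obtain ⟨y, hy, hPy⟩ := hP
    exact hPy (h1 hy)
  · exact h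

open Pool.Agent.Helper61.Lac in
/-- The reduction: `a_ν = 0` for `ν < l`, `a_l = 1/P`. -/
theorem not_holds_of_data {l : ℕ} {a : ℝ} {f Ψ P : ℂ → ℂ} (D : Data l a f Ψ P) :
    ¬ Holds l (a : EReal) := by
  intro H
  have hord : ∀ (g : ℂ → ℂ) (z : ℂ), AnalyticAt ℂ g z → g z ≠ 0 → meromorphicOrderAt g z = 0 := by
    intro g z hg hgz
    rw [hg.meromorphicOrderAt_eq, hg.analyticOrderAt_eq_zero.2 hgz]
    simp
  have hadm : Admissible f := by
    refine ⟨D.anf.meromorphicOn, D.f_nc, D.alpha_eq ▸ EReal.coe_lt_top a, ?_, ?_⟩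
    · convert Set.finite_empty
      ext z
      simp only [Set.mem_ofPred_eq, Set.mem_empty_iff_false, iff_false, not_and, not_lt]
      intro hz
      rw [hord _ z (D.anf z hz) (D.f_ne z hz)]
    · convert Set.finite_empty
      ext z
      simp only [Set.mem_ofPred_eq, Set.mem_empty_iff_false, iff_false, not_and, not_lt]
      intro hz
      rw [hord _ z (D.anf z hz) (D.f_ne z hz)]
  let b : ℕ → ℂ → ℂ := fun ν => if ν = l then fun z => (P z)⁻¹ else fun _ => 0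
  have hbl : b l = fun z => (P z)⁻¹ := if_pos rfl
  have hbn : ∀ ν, ν ≠ l → b ν = fun _ => 0 := fun ν hν => if_neg hν
  have hdp : ∀ z, diffPoly l b f z = (P z)⁻¹ * iteratedDeriv l f z := by
    intro z
    unfold diffPoly
    rw [Finset.sum_eq_single l]
    · rw [hbl]
    · intro ν _ hν
      rw [hbn ν hν, zero_mul]
    · intro h
      exact absurd (Finset.mem_range.2 (Nat.lt_succ_self l)) h
  have hdp2 : ∀ z ∈ ball (0 : ℂ) 1, P z ≠ 0 → diffPoly l b f z = Ψ z := by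
    intro z hz hP
    rw [hdp, D.eq z hz, inv_mul_cancel_left₀ hP]
  have hball : ∀ z ∈ ball (0 : ℂ) 1, ∀ᶠ w in 𝓝[≠] z, w ∈ ball (0 : ℂ) 1 := fun z hz =>
    mem_nhdsWithin_of_mem_nhds (isOpen_ball.mem_nhds hz)
  have hnear : ∀ z ∈ ball (0 : ℂ) 1, ∀ᶠ w in 𝓝[≠] z, diffPoly l b f w = Ψ w := by
    intro z hz
    filter_upwards [ne_zero_near D.anP D.P_ne hz, hball z hz] with w h1 h2
    exact hdp2 w h2 h1
  have hco : AdmissibleCoeffs l f b := by
    refine ⟨?_, ?_, ?_⟩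
    · intro ν _
      by_cases hν : ν = l
      · subst hν
        rw [hbl]
        exact fun z hz => (D.anP z hz).meromorphicAt.inv
      · rw [hbn ν hν]
        exact fun z _ => MeromorphicAt.const _ z
    · intro ν _
      by_cases hν : ν = l
      · subst hν
        rw [hbl]
        exact D.small_inv
      · rw [hbn ν hν]
        have h : charT (fun _ => (0 : ℂ)) =ᶠ[𝓝[<] 1] fun _ => (0 : ℝ) := by
          filter_upwards [eventually_pos_lt_one] with r hr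
          rw [charT_eq hr.2 analyticOnNhd_const]
          have h2 : (Real.posLog ‖(0 : ℂ)‖ : ℝ) = 0 := by simp
          simp only [h2]
          exact Real.circleAverage_const 0 0 r
        exact (Asymptotics.isLittleO_zero _ _).congr' h.symm EventuallyEq.rfl
    · intro h
      rw [hbl] at h
      have h1 : P =ᶠ[codiscreteWithin (ball (0 : ℂ) 1)] fun _ => 0 := by
        filter_upwards [h] with z hz
        exact inv_eq_zero.1 hz
      obtain ⟨y, hy, hPy⟩ := D.P_ne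
      exact hPy (eqOn_of_codiscrete D.anP.continuousOn continuousOn_const h1 y hy)
  have hco2 : (fun w => diffPoly l b f w) =ᶠ[codiscreteWithin (ball (0 : ℂ) 1)] Ψ := by
    change {w | diffPoly l b f w = Ψ w} ∈ codiscreteWithin (ball (0 : ℂ) 1)
    rw [mem_codiscreteWithin_iff_forall_mem_nhdsNE]
    intro z hz
    filter_upwards [hnear z hz] with w hw
    exact Or.inl hw
  have hnc : ¬ ConstInDisc (diffPoly l b f) := by
    rintro ⟨c, hc⟩
    have h1 : ConstInDisc Ψ := ⟨c, by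
      filter_upwards [hc, hco2] with w hw1 hw2
      rw [← hw1]
      exact hw2.symm⟩
    obtain ⟨z, hz, w, hw, hne⟩ := D.Ψ_nc
    exact hne (eq_of_constInDisc D.anΨ h1 hz hw)
  refine H _ hadm D.alpha_eq b hco hnc 1 one_ne_zero ?_
  convert Set.finite_empty
  ext z
  simp only [Set.mem_ofPred_eq, Set.mem_empty_iff_false, iff_false, not_and, not_lt]
  intro hz
  have h1 : (fun ζ => diffPoly l b f ζ - 1) =ᶠ[𝓝[≠] z] fun ζ => Ψ ζ - 1 := by
    filter_upwards [hnear z hz] with w hw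
    rw [hw]
  rw [meromorphicOrderAt_congr h1]
  exact (hord (fun ζ => Ψ ζ - 1) z ((D.anΨ z hz).fun_sub analyticAt_const)
    (sub_ne_zero.2 (D.Ψ_ne z hz))).le

/-- What remains to be shown. -/
def Target : Prop := ∀ l : ℕ, 1 ≤ l → ∀ a : ℝ, (l : ℝ) < a → a ≤ l + 1 → ¬ Holds l (a : EReal)

/-- The full answer, from `Target`. -/
theorem holds_iff (h : Target) (l : ℕ) (hl : 1 ≤ l) (x : ℝ) (hx : 0 ≤ x) :
    Holds l (x : EReal) ↔ (l : ℝ) + 1 < x := by
  constructor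
  · intro H
    by_contra h1
    rw [not_lt] at h1
    rcases le_or_gt x l with h2 | h2
    · exact Pool.Agent.Helper58.LD.not_holds l hl x hx h2 H
    · exact h l hl x h2 h1 H
  · intro h1 f hf hα a ha hΨ w hw
    by_contra hfin
    rw [Set.not_infinite] at hfin
    have h2 := alpha_le_of_finite hf ha hΨ hw hfin
    rw [hα] at h2
    have h3 : (x : EReal) ≤ ((l + 1 : ℝ) : EReal) := h2
    rw [EReal.coe_le_coe_iff] at h3
    linarith

end Pool.Agent.Helper53.QF
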