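import Pool.Agent.Helper53.QF.ChainDefs
import Pool.Agent.Helper61.Lac.LC10
import Pool.Agent.Helper16.T78.T6

/-!
# MP_78803a: from a chain of states to the limit functions

`f n`, `B n`, `P n` converge locally uniformly on the disc; the limit functions satisfy `Basic`; the growth along the radii
`R_n = 1 - exp (-(T_n + 20 log T_n))`.
-/

set_option autoImplicit false

open Filter Topology Metric Complex

namespace Pool.Agent.Helper53.QF

open Pool.Agent.Helper61.Nev Pool.Agent.Helper81.QF Pool.Agent.Helper84.Lam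

/-! ### Radii -/

theorem Rad_lt (T : ℝ) : Rad T < 1 := by
  unfold Rad
  linarith [Real.exp_pos (-(T + 20 * Real.log T))]

theorem Rad_mono {T T' : ℝ} (h0 : 1 ≤ T) (h : T ≤ T') : Rad T ≤ Rad T' := by
  unfold Rad
  have h1 : Real.log T ≤ Real.log T' := Real.log_le_log (by linarith) h
  have h2 : Real.exp (-(T' + 20 * Real.log T')) ≤ Real.exp (-(T + 20 * Real.log T)) :=
    Real.exp_le_exp.2 (by linarith)
  linarith

theorem exp_neg_three : Real.exp (-3) ≤ 1 / 16 := by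
  have h1 := Real.exp_one_gt_d9
  have h2 : (2.7 : ℝ) ≤ Real.exp 1 := by linarith
  have h3 : (16 : ℝ) ≤ Real.exp 3 := by
    have h4 : Real.exp 3 = Real.exp 1 ^ 3 := by
      rw [← Real.exp_nat_mul]
      norm_num
    rw [h4]
    have h5 : (2.7 : ℝ) ^ 3 ≤ Real.exp 1 ^ 3 := pow_le_pow_left₀ (by norm_num) h2 3
    norm_num at h5 ⊢
    linarith
  rw [Real.exp_neg, ← one_div]
  exact one_div_le_one_div_of_le (by norm_num) h3

theorem Rad_ge {T : ℝ} (h : 3 ≤ T) : 15 / 16 ≤ Rad T := by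
  unfold Rad
  have h1 : 0 ≤ Real.log T := Real.log_nonneg (by linarith)
  have h2 : Real.exp (-(T + 20 * Real.log T)) ≤ Real.exp (-3) := Real.exp_le_exp.2 (by linarith)
  linarith [exp_neg_three]

/-- `e^T (1 - R) ≤ 1/8` -/
theorem exp_mul_Rad {T : ℝ} (h : 3 ≤ T) : Real.exp T * (1 - Rad T) ≤ 1 / 8 := by
  unfold Rad
  rw [sub_sub_cancel, ← Real.exp_add]
  have h1 : 1 ≤ Real.log T := by
    rw [← Real.log_exp 1]
    refine Real.log_le_log (Real.exp_pos 1) ?_
    linarith [Real.exp_one_lt_three]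
  have h2 : T + -(T + 20 * Real.log T) ≤ -3 := by linarith
  have h3 := Real.exp_le_exp.2 h2
  linarith [exp_neg_three]

namespace Chain

variable {l : ℕ} {T : ℕ → ℝ} {B f P : ℕ → ℂ → ℂ}

theorem T_ge (c : Chain l T B f P) (n : ℕ) : 3 + (n : ℝ) ≤ T n := by
  induction n with
  | zero => simpa using c.T0
  | succ n ih =>
    have := c.Tlo n
    push_cast
    linarith

theorem T3 (c : Chain l T B f P) (n : ℕ) : 3 ≤ T n := by
  have := c.T_ge n
  have : (0 : ℝ) ≤ n := Nat.cast_nonneg n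
  linarith

theorem mono (c : Chain l T B f P) : Monotone fun n => Rad (T n) :=
  monotone_nat_of_le_succ fun n => Rad_mono (by linarith [c.T3 n]) (by linarith [c.Tlo n])

theorem T_tend (c : Chain l T B f P) : Tendsto T atTop atTop := by
  refine tendsto_atTop_mono (fun n => c.T_ge n) ?_
  exact tendsto_atTop_add_const_left _ _ tendsto_natCast_atTop_atTop

theorem exhaust (c : Chain l T B f P) (z : ℂ) (hz : ‖z‖ < 1) : ∃ n, ‖z‖ < Rad (T n) := by
  have h1 : Tendsto (fun n => Rad (T n)) atTop (𝓝 1) := by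
    unfold Rad
    have h2 : Tendsto (fun n => Real.exp (-(T n + 20 * Real.log (T n)))) atTop (𝓝 0) := by
      have h3 : Tendsto (fun n => Real.exp (-(T n))) atTop (𝓝 0) :=
        Real.tendsto_exp_neg_atTop_nhds_zero.comp c.T_tend
      refine squeeze_zero (fun n => (Real.exp_pos _).le) (fun n => ?_) h3
      refine Real.exp_le_exp.2 ?_
      have := Real.log_nonneg (show 1 ≤ T n by linarith [c.T3 n])
      linarith
    have h3 := (tendsto_const_nhds (x := (1 : ℝ))).sub h2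
    rwa [sub_zero] at h3
  exact (h1.eventually (lt_mem_nhds hz)).exists

theorem exp_small (c : Chain l T B f P) (n : ℕ) : Real.exp (-T n) ≤ 1 / 2 ^ (n + 4) := by
  have h1 := c.T_ge n
  have h2 : Real.exp (-T n) ≤ Real.exp (-3) * Real.exp (-(n : ℝ)) := by
    rw [← Real.exp_add]
    exact Real.exp_le_exp.2 (by linarith)
  have h3 : Real.exp (-(n : ℝ)) ≤ 1 / 2 ^ n := by
    rw [Real.exp_neg, ← one_div]
    refine one_div_le_one_div_of_le (by positivity) ?_
    have h4 : Real.exp (n : ℝ) = Real.exp 1 ^ n := by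
      rw [← Real.exp_nat_mul, mul_one]
    rw [h4]
    exact pow_le_pow_left₀ (by norm_num) (by linarith [Real.exp_one_gt_d9]) n
  calc Real.exp (-T n) ≤ Real.exp (-3) * Real.exp (-(n : ℝ)) := h2
    _ ≤ 1 / 16 * (1 / 2 ^ n) := mul_le_mul exp_neg_three h3 (Real.exp_pos _).le (by norm_num)
    _ = 1 / 2 ^ (n + 4) := by
        rw [pow_add]
        norm_num

/-- products converge -/
theorem mult (c : Chain l T B f P) (n : ℕ) {z : ℂ} (hz : ‖z‖ ≤ Rad (T n)) (k : ℕ) :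
    ‖f (n + k) z - f n z‖ ≤ (1 - 1 / 2 ^ k) * (1 / 2 ^ (n + 2)) * ‖f n z‖ := by
  induction k with
  | zero => simp
  | succ k ih =>
    have h1 : ‖z‖ ≤ Rad (T (n + k)) := hz.trans (c.mono (Nat.le_add_right n k))
    have h2 := c.cf (n + k) z h1
    have h3 := c.exp_small (n + k)
    have h0 := norm_nonneg (f n z)
    have hp : (0 : ℝ) < 1 / 2 ^ k := by positivity
    have hp1 : (1 : ℝ) / 2 ^ (n + 2) ≤ 1 := by
      rw [div_le_one (by positivity)]
      exact one_le_pow₀ (by norm_num)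
    have h4 : ‖f (n + k) z‖ ≤ 2 * ‖f n z‖ := by
      have h5 : ‖f (n + k) z‖ ≤ ‖f (n + k) z - f n z‖ + ‖f n z‖ := by
        have := norm_add_le (f (n + k) z - f n z) (f n z)
        rwa [sub_add_cancel] at this
      have h6 : (1 - 1 / 2 ^ k) * (1 / 2 ^ (n + 2)) * ‖f n z‖ ≤ 1 * 1 * ‖f n z‖ := by
        refine mul_le_mul_of_nonneg_right ?_ h0
        exact mul_le_mul (by linarith) hp1 (by positivity) (by norm_num)
      linarith
    have h7 : ‖f (n + k + 1) z - f (n + k) z‖ ≤ 1 / 2 ^ (n + k + 4) * (2 * ‖f n z‖) :=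
      h2.trans (mul_le_mul h3 h4 (norm_nonneg _) (by positivity))
    have h8 : ‖f (n + (k + 1)) z - f n z‖ ≤ ‖f (n + k + 1) z - f (n + k) z‖ +
        ‖f (n + k) z - f n z‖ := by
      have := norm_add_le (f (n + k + 1) z - f (n + k) z) (f (n + k) z - f n z)
      rwa [sub_add_sub_cancel] at this
    have h9 : (1 - 1 / 2 ^ (k + 1)) * (1 / 2 ^ (n + 2)) * ‖f n z‖ =
        (1 - 1 / 2 ^ k) * (1 / 2 ^ (n + 2)) * ‖f n z‖ + 1 / 2 ^ (n + k + 4) * (2 * ‖f n z‖) := by
      have e1 : (2 : ℝ) ^ (k + 1) = 2 ^ k * 2 := pow_succ _ _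
      have e2 : (2 : ℝ) ^ (n + k + 4) = 2 ^ n * 2 ^ k * 16 := by
        rw [pow_add, pow_add]
        norm_num
      have e3 : (2 : ℝ) ^ (n + 2) = 2 ^ n * 4 := by
        rw [pow_add]
        norm_num
      rw [e1, e2, e3]
      have p1 : (2 : ℝ) ^ k ≠ 0 := by positivity
      have p2 : (2 : ℝ) ^ n ≠ 0 := by positivity
      field_simp
      ring
    rw [h9]
    linarith

theorem f_bound (c : Chain l T B f P) (n : ℕ) {z : ℂ} (hz : ‖z‖ ≤ Rad (T n)) (k : ℕ) :
    ‖f (n + k) z‖ ≤ 2 * ‖f n z‖ := by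
  have h1 := c.mult n hz k
  have h0 := norm_nonneg (f n z)
  have hp : (0 : ℝ) < 1 / 2 ^ k := by positivity
  have hp1 : (1 : ℝ) / 2 ^ (n + 2) ≤ 1 := by
    rw [div_le_one (by positivity)]
    exact one_le_pow₀ (by norm_num)
  have h5 : ‖f (n + k) z‖ ≤ ‖f (n + k) z - f n z‖ + ‖f n z‖ := by
    have := norm_add_le (f (n + k) z - f n z) (f n z)
    rwa [sub_add_cancel] at this
  have h6 : (1 - 1 / 2 ^ k) * (1 / 2 ^ (n + 2)) * ‖f n z‖ ≤ 1 * 1 * ‖f n z‖ := by
    refine mul_le_mul_of_nonneg_right ?_ h0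
    exact mul_le_mul (by linarith) hp1 (by positivity) (by norm_num)
  linarith

/-- the pointwise limit of `f n` -/
theorem f_lim (c : Chain l T B f P) : ∃ F : ℂ → ℂ, ∀ n, ∀ z : ℂ, ‖z‖ ≤ Rad (T n) →
    ‖F z - f n z‖ ≤ 1 / 2 ^ (n + 2) * ‖f n z‖ := by
  classical
  have hc : ∀ z : ℂ, ∃ w : ℂ, ‖z‖ < 1 → Tendsto (fun n => f n z) atTop (𝓝 w) := by
    intro z
    by_cases hz : ‖z‖ < 1
    · obtain ⟨n, hn⟩ := c.exhaust z hz
      have hcau : CauchySeq fun k => f (n + k) z := by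
        refine cauchySeq_of_le_geometric_two (C := 1 / 2 ^ (n + 2) * ‖f n z‖ ) (fun k => ?_)
        have h1 : ‖z‖ ≤ Rad (T (n + k)) := hn.le.trans (c.mono (Nat.le_add_right n k))
        have h2 := c.cf (n + k) z h1
        have h3 := c.exp_small (n + k)
        have h4 := c.f_bound n hn.le k
        rw [dist_comm, dist_eq_norm]
        calc ‖f (n + (k + 1)) z - f (n + k) z‖ ≤ 1 / 2 ^ (n + k + 4) * (2 * ‖f n z‖) :=
              h2.trans (mul_le_mul h3 h4 (norm_nonneg _) (by positivity))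
          _ = 1 / 2 ^ (n + 2) * ‖f n z‖ / 2 / 2 ^ k := by
              have e2 : (2 : ℝ) ^ (n + k + 4) = 2 ^ n * 2 ^ k * 16 := by
                rw [pow_add, pow_add]
                norm_num
              have e3 : (2 : ℝ) ^ (n + 2) = 2 ^ n * 4 := by
                rw [pow_add]
                norm_num
              rw [e2, e3]
              field_simp
              ring
      obtain ⟨w, hw⟩ := cauchySeq_tendsto_of_complete hcau
      refine ⟨w, fun _ => ?_⟩
      refine (tendsto_add_atTop_iff_nat n).1 ?_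
      refine hw.congr fun k => ?_
      rw [add_comm]
    · exact ⟨0, fun h => absurd h hz⟩
  choose F hF using hc
  refine ⟨F, fun n z hz => ?_⟩
  have hz1 : ‖z‖ < 1 := lt_of_le_of_lt hz (Rad_lt _)
  have h1 : Tendsto (fun k => f (n + k) z) atTop (𝓝 (F z)) := by
    have := (tendsto_add_atTop_iff_nat n).2 (hF z hz1)
    refine this.congr fun k => ?_
    rw [add_comm]
  refine le_of_tendsto ((h1.sub_const (f n z)).norm) (Eventually.of_forall fun k => ?_)
  refine (c.mult n hz k).trans ?_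
  have hp : (0 : ℝ) < 1 / 2 ^ k := by positivity
  have h2 : (0 : ℝ) ≤ 1 / 2 ^ (n + 2) * ‖f n z‖ := by positivity
  rw [mul_assoc]
  nlinarith

/-- local uniform convergence of `f n` -/
theorem f_lu (c : Chain l T B f P) {F : ℂ → ℂ} (hF : ∀ n, ∀ z : ℂ, ‖z‖ ≤ Rad (T n) →
    ‖F z - f n z‖ ≤ 1 / 2 ^ (n + 2) * ‖f n z‖) :
    TendstoLocallyUniformlyOn f F atTop (ball 0 1) := by
  rw [Metric.tendstoLocallyUniformlyOn_iff]
  intro ε hε z hz
  have hz1 : ‖z‖ < 1 := mem_ball_zero_iff.1 hz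
  obtain ⟨n, hn⟩ := c.exhaust z hz1
  obtain ⟨M, hM⟩ := (isCompact_closedBall (0 : ℂ) 1).exists_bound_of_continuousOn
    (c.anf n).continuousOn
  refine ⟨{w : ℂ | ‖w‖ < Rad (T n)} ∩ ball 0 1, ?_, ?_⟩
  · refine Filter.inter_mem ?_ self_mem_nhdsWithin
    refine mem_nhdsWithin_of_mem_nhds ?_
    exact (isOpen_lt continuous_norm continuous_const).mem_nhds hn
  · have h1 : Tendsto (fun k : ℕ => (1 : ℝ) / 2 ^ (k + 2) * (2 * M)) atTop (𝓝 0) := by
      have h2 : Tendsto (fun k : ℕ => (1 : ℝ) / 2 ^ (k + 2)) atTop (𝓝 0) := by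
        have h3 := tendsto_pow_atTop_nhds_zero_of_lt_one (r := (1 / 2 : ℝ)) (by norm_num)
          (by norm_num)
        have h4 := (tendsto_add_atTop_iff_nat 2).2 h3
        refine h4.congr fun k => ?_
        rw [one_div, one_div, inv_pow]
      have h3 := h2.mul_const (2 * M)
      rwa [zero_mul] at h3
    filter_upwards [h1.eventually (gt_mem_nhds hε), eventually_ge_atTop n] with k hk hnk w hw
    have hwn : ‖w‖ ≤ Rad (T n) := (show ‖w‖ < Rad (T n) from hw.1).le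
    obtain ⟨j, rfl⟩ := Nat.exists_eq_add_of_le hnk
    have hwk : ‖w‖ ≤ Rad (T (n + j)) := hwn.trans (c.mono (Nat.le_add_right n j))
    have h2 := hF (n + j) w hwk
    have h3 := c.f_bound n hwn j
    have h4 := hM w (by
      rw [mem_closedBall_zero_iff]
      exact hwn.trans (Rad_lt _).le)
    rw [dist_eq_norm]
    refine lt_of_le_of_lt (h2.trans ?_) hk
    exact mul_le_mul_of_nonneg_left (h3.trans (by linarith)) (by positivity)

theorem an_ball {g : ℂ → ℂ} (h : AnalyticOnNhd ℂ g (closedBall 0 1)) :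
    AnalyticOnNhd ℂ g (ball 0 1) := h.mono ball_subset_closedBall

/-- limits of `B n` and `P n` -/
theorem add_lim (c : Chain l T B f P) {G : ℕ → ℂ → ℂ}
    (hG : ∀ n, ∀ z : ℂ, ‖z‖ ≤ Rad (T n) → ‖G (n + 1) z - G n z‖ ≤ Real.exp (-T n)) :
    ∃ g : ℂ → ℂ, (∀ n, ∀ z : ℂ, ‖z‖ ≤ Rad (T n) → ‖g z - G n z‖ ≤ 1 / 2 ^ (n + 1)) ∧
      TendstoLocallyUniformlyOn G g atTop (ball 0 1) := by
  obtain ⟨g, hg⟩ := Pool.Agent.Helper61.Lac.LC10.exists_lim G (fun n => Rad (T n)) c.mono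
    (fun z hz => (c.exhaust z hz).imp fun n h => h.le) (fun n z hz => by
      refine (hG n z hz).trans ((c.exp_small n).trans ?_)
      refine one_div_le_one_div_of_le (by positivity) ?_
      exact pow_le_pow_right₀ (by norm_num) (by omega))
  refine ⟨g, fun n z hz => hg n z hz (lt_of_le_of_lt hz (Rad_lt _)), ?_⟩
  exact Pool.Agent.Helper61.Lac.LC10.tendsto_lu G g (fun n => Rad (T n)) c.mono c.exhaust hg

/-- local uniform convergence of iterated derivatives -/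
theorem lim_iter {F : ℕ → ℂ → ℂ} {g : ℂ → ℂ}
    (h : TendstoLocallyUniformlyOn F g atTop (ball 0 1))
    (hF : ∀ n, AnalyticOnNhd ℂ (F n) (ball 0 1)) (k : ℕ) :
    TendstoLocallyUniformlyOn (fun n => iteratedDeriv k (F n)) (iteratedDeriv k g) atTop
      (ball 0 1) := by
  induction k with
  | zero =>
    simp only [iteratedDeriv_zero]
    exact h
  | succ k ih =>
    have h1 := ih.deriv (Eventually.of_forall fun n => by
      rw [iteratedDeriv_eq_iterate]
      exact ((hF n).iterated_deriv k).differentiableOn) isOpen_ball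
    have h2 : (deriv ∘ fun n => iteratedDeriv k (F n)) =
        fun n => iteratedDeriv (k + 1) (F n) := by
      funext n
      rw [iteratedDeriv_succ]
      rfl
    rw [h2, ← iteratedDeriv_succ] at h1
    exact h1

theorem lim_analytic {F : ℕ → ℂ → ℂ} {g : ℂ → ℂ}
    (h : TendstoLocallyUniformlyOn F g atTop (ball 0 1))
    (hF : ∀ n, AnalyticOnNhd ℂ (F n) (ball 0 1)) : AnalyticOnNhd ℂ g (ball 0 1) :=
  (h.differentiableOn (Eventually.of_forall fun n => (hF n).differentiableOn)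
    isOpen_ball).analyticOnNhd isOpen_ball

end Chain

/-- the limit functions -/
structure Lim (l : ℕ) (T : ℕ → ℝ) (Bn fn Pn : ℕ → ℂ → ℂ) (B f P : ℂ → ℂ) : Prop where
  anB : AnalyticOnNhd ℂ B (ball 0 1)
  anf : AnalyticOnNhd ℂ f (ball 0 1)
  anP : AnalyticOnNhd ℂ P (ball 0 1)
  clf : ∀ n, ∀ z : ℂ, ‖z‖ ≤ Rad (T n) → ‖f z - fn n z‖ ≤ 1 / 4 * ‖fn n z‖
  clB : ∀ n, ∀ z : ℂ, ‖z‖ ≤ Rad (T n) → ‖B z - Bn n z‖ ≤ 1 / 2 ^ (n + 1)
  clP : ∀ n, ∀ z : ℂ, ‖z‖ ≤ Rad (T n) → ‖P z - Pn n z‖ ≤ 1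
  Ble : ∀ z : ℂ, ‖z‖ < 1 → ‖B z‖ ≤ ‖z‖
  B0 : B 0 = 0
  P0 : P 0 = Pst l
  eq : ∀ z ∈ ball (0 : ℂ) 1, iteratedDeriv l f z = P z * Ps l (B z)

theorem Chain.exists_lim {l : ℕ} {T : ℕ → ℝ} {Bn fn Pn : ℕ → ℂ → ℂ} (c : Chain l T Bn fn Pn) :
    ∃ B f P : ℂ → ℂ, Lim l T Bn fn Pn B f P := by
  obtain ⟨f, hf⟩ := c.f_lim
  have hlu := c.f_lu hf
  obtain ⟨B, hB, hBlu⟩ := c.add_lim c.cB
  obtain ⟨P, hP, hPlu⟩ := c.add_lim c.cP
  have hone : ∀ n : ℕ, (1 : ℝ) / 2 ^ (n + 1) ≤ 1 := fun n => by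
    rw [div_le_one (by positivity)]
    exact one_le_pow₀ (by norm_num)
  have hquart : ∀ n : ℕ, (1 : ℝ) / 2 ^ (n + 2) ≤ 1 / 4 := fun n => by
    refine one_div_le_one_div_of_le (by norm_num) ?_
    have : (4 : ℝ) = 2 ^ 2 := by norm_num
    rw [this]
    exact pow_le_pow_right₀ (by norm_num) (by omega)
  have htB : ∀ z : ℂ, ‖z‖ < 1 → Tendsto (fun n => Bn n z) atTop (𝓝 (B z)) := fun z hz =>
    hBlu.tendsto_at (mem_ball_zero_iff.2 hz)
  have htP : ∀ z : ℂ, ‖z‖ < 1 → Tendsto (fun n => Pn n z) atTop (𝓝 (P z)) := fun z hz =>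
    hPlu.tendsto_at (mem_ball_zero_iff.2 hz)
  have hBle : ∀ z : ℂ, ‖z‖ < 1 → ‖B z‖ ≤ ‖z‖ := by
    intro z hz
    refine le_of_tendsto (htB z hz).norm (Eventually.of_forall fun n => ?_)
    refine Complex.norm_le_norm_of_mapsTo_ball (R := 1)
      (Chain.an_ball (c.anB n)).differentiableOn ?_ (c.B0 n) hz
    intro w hw
    rw [mem_closedBall_zero_iff]
    exact (c.Blt n w (mem_ball_zero_iff.1 hw).le).le
  have e1 : AnalyticOnNhd ℂ B (ball 0 1) :=
    Chain.lim_analytic hBlu fun n => Chain.an_ball (c.anB n)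
  have e2 : AnalyticOnNhd ℂ f (ball 0 1) :=
    Chain.lim_analytic hlu fun n => Chain.an_ball (c.anf n)
  have e3 : AnalyticOnNhd ℂ P (ball 0 1) :=
    Chain.lim_analytic hPlu fun n => Chain.an_ball (c.anP n)
  have e4 : ∀ n, ∀ z : ℂ, ‖z‖ ≤ Rad (T n) → ‖f z - fn n z‖ ≤ 1 / 4 * ‖fn n z‖ := fun n z hz =>
    (hf n z hz).trans (mul_le_mul_of_nonneg_right (hquart n) (norm_nonneg _))
  have e5 : ∀ n, ∀ z : ℂ, ‖z‖ ≤ Rad (T n) → ‖P z - Pn n z‖ ≤ 1 := fun n z hz =>
    (hP n z hz).trans (hone n)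
  refine ⟨B, f, P, ⟨e1, e2, e3, e4, hB, e5, hBle, ?_, ?_, ?_⟩⟩
  · refine tendsto_nhds_unique (htB 0 (by rw [norm_zero]; exact one_pos)) ?_
    simp only [c.B0]
    exact tendsto_const_nhds
  · refine tendsto_nhds_unique (htP 0 (by rw [norm_zero]; exact one_pos)) ?_
    simp only [c.P0]
    exact tendsto_const_nhds
  · intro z hz
    have hz1 : ‖z‖ < 1 := mem_ball_zero_iff.1 hz
    have h1 : Tendsto (fun n => iteratedDeriv l (fn n) z) atTop (𝓝 (iteratedDeriv l f z)) :=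
      (Chain.lim_iter hlu (fun n => Chain.an_ball (c.anf n)) l).tendsto_at hz
    have h2 : Tendsto (fun n => Pn n z * Ps l (Bn n z)) atTop (𝓝 (P z * Ps l (B z))) := by
      refine (htP z hz1).mul ?_
      have h3 : ContinuousAt lamD (B z) :=
        (diff_lamD (lt_of_le_of_lt (hBle z hz1) hz1)).continuousAt
      unfold Ps
      exact tendsto_const_nhds.sub ((h3.tendsto.comp (htB z hz1)).pow (l + 1))
    refine tendsto_nhds_unique h1 (h2.congr fun n => ?_)
    exact (c.eq n z hz1.le).symm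

end Pool.Agent.Helper53.QF
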