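import Pool.Agent.Helper53.QF.Limit

/-!
# MP_78803a: the limit functions satisfy `Top l`
-/

set_option autoImplicit false

open Filter Topology Metric Complex

namespace Pool.Agent.Helper53.QF

open Pool.Agent.Helper61.Nev Pool.Agent.Helper81.QF Pool.Agent.Helper84.Lam

/-- circle averages on two radii -/
theorem circleAverage_scale (g : ℂ → ℝ) (R : ℝ) :
    Real.circleAverage g 0 R = Real.circleAverage (fun z => g ((R : ℂ) * z)) 0 1 := by
  rw [Real.circleAverage_def, Real.circleAverage_def]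
  congr 1
  refine intervalIntegral.integral_congr fun θ _ => ?_
  show g (circleMap 0 R θ) = g ((R : ℂ) * circleMap 0 1 θ)
  rw [circleMap_zero, circleMap_zero, Complex.ofReal_one, one_mul]

theorem circleIntegrable_posLog {g : ℂ → ℂ} {R : ℝ} (hR : 0 ≤ R)
    (hg : ContinuousOn g (closedBall 0 R)) :
    CircleIntegrable (fun z => Real.posLog ‖g z‖) 0 R := by
  refine ContinuousOn.circleIntegrable hR ?_
  exact (Pool.Agent.Helper61.Lac.continuousOn_posLog_norm hg).mono sphere_subset_closedBall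

/-- `log T` is small against `T` -/
theorem ev_log {T : ℕ → ℝ} (hT : Tendsto T atTop atTop) (C : ℝ) {ε : ℝ} (hε : 0 < ε) :
    ∀ᶠ n in atTop, C * Real.log (T n) + C ≤ ε * T n := by
  have h1 : Tendsto (fun x : ℝ => Real.log x / x) atTop (𝓝 0) := by
    have := Real.isLittleO_log_id_atTop
    exact this.tendsto_div_nhds_zero
  have h2 : Tendsto (fun x : ℝ => 1 / x) atTop (𝓝 0) := by
    simpa using tendsto_inv_atTop_zero (𝕜 := ℝ)
  have h3 : Tendsto (fun x : ℝ => C * (Real.log x / x) + C * (1 / x)) atTop (𝓝 0) := by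
    have := (h1.const_mul C).add (h2.const_mul C)
    simpa using this
  filter_upwards [hT.eventually (h3.eventually (gt_mem_nhds hε)), hT.eventually_gt_atTop 0]
    with n hn hp
  have h4 : C * Real.log (T n) + C = (C * (Real.log (T n) / T n) + C * (1 / T n)) * T n := by
    field_simp
  rw [h4]
  exact mul_le_mul_of_nonneg_right hn.le hp.le

/-- `√T` is small against `T` -/
theorem ev_sqrt {T : ℕ → ℝ} (hT : Tendsto T atTop atTop) {ε : ℝ} (hε : 0 < ε) :
    ∀ᶠ n in atTop, 2 * √(T n) ≤ ε * T n := by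
  filter_upwards [hT.eventually_ge_atTop ((2 / ε) ^ 2), hT.eventually_gt_atTop 0] with n hn hp
  have h1 : 2 / ε ≤ √(T n) := by
    rw [← Real.sqrt_sq (show 0 ≤ 2 / ε by positivity)]
    exact Real.sqrt_le_sqrt hn
  have h2 : 2 ≤ ε * √(T n) := by
    rw [div_le_iff₀ hε] at h1
    linarith
  have h3 : √(T n) * √(T n) = T n := Real.mul_self_sqrt hp.le
  calc 2 * √(T n) ≤ ε * √(T n) * √(T n) := mul_le_mul_of_nonneg_right h2 (Real.sqrt_nonneg _)
    _ = ε * T n := by rw [mul_assoc, h3]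

namespace Lim

variable {l : ℕ} {T : ℕ → ℝ} {Bn fn Pn : ℕ → ℂ → ℂ} {B f P : ℂ → ℂ}

theorem f_le (L : Lim l T Bn fn Pn B f P) (n : ℕ) {z : ℂ} (hz : ‖z‖ ≤ Rad (T n)) :
    ‖f z‖ ≤ 2 * ‖fn n z‖ := by
  have h1 := L.clf n z hz
  have h2 := norm_add_le (f z - fn n z) (fn n z)
  rw [sub_add_cancel] at h2
  have := norm_nonneg (fn n z)
  linarith

theorem f_ge (L : Lim l T Bn fn Pn B f P) (n : ℕ) {z : ℂ} (hz : ‖z‖ ≤ Rad (T n)) :
    ‖fn n z‖ ≤ 2 * ‖f z‖ := by
  have h1 := L.clf n z hz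
  have h2 := norm_add_le (fn n z - f z) (f z)
  rw [sub_add_cancel, norm_sub_rev] at h2
  have := norm_nonneg (fn n z)
  linarith

theorem f_ne (L : Lim l T Bn fn Pn B f P) (c : Chain l T Bn fn Pn) {z : ℂ} (hz : ‖z‖ < 1) :
    f z ≠ 0 := by
  obtain ⟨n, hn⟩ := c.exhaust z hz
  intro h
  have h1 := L.f_ge n hn.le
  rw [h, norm_zero, mul_zero] at h1
  exact c.fne n z hz.le (norm_le_zero_iff.1 h1)

/-- `B` is not identically zero -/
theorem B_ne (L : Lim l T Bn fn Pn B f P) (c : Chain l T Bn fn Pn) :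
    ∃ z : ℂ, ‖z‖ < 1 ∧ B z ≠ 0 := by
  obtain ⟨n, ⟨ζ, hζ, hbig⟩, hn⟩ := (c.big.and (eventually_ge_atTop 1)).exists
  have hR0 := Rad_ge (c.T3 n)
  have hR1 := Rad_lt (T n)
  set z : ℂ := (Rad (T n) : ℂ) * ζ with hz
  have hzn : ‖z‖ = Rad (T n) := by
    rw [hz, norm_mul, hζ, mul_one, Complex.norm_real, Real.norm_of_nonneg (by linarith)]
  refine ⟨z, by rw [hzn]; exact hR1, fun h0 => ?_⟩
  have h1 : ‖Bn n ζ - Bn n z‖ ≤ Real.exp (T n) * ‖ζ - z‖ := by
    refine (convex_closedBall (0 : ℂ) 1).norm_image_sub_le_of_norm_deriv_le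
      (fun w hw => (c.anB n w hw).differentiableAt) (fun w hw => c.dB n w ?_) ?_ ?_
    · exact mem_closedBall_zero_iff.1 hw
    · rw [mem_closedBall_zero_iff, hzn]
      exact hR1.le
    · rw [mem_closedBall_zero_iff, hζ]
  have h2 : ‖ζ - z‖ = 1 - Rad (T n) := by
    have : ζ - z = ((1 - Rad (T n) : ℝ) : ℂ) * ζ := by
      rw [hz]
      push_cast
      ring
    rw [this, norm_mul, hζ, mul_one, Complex.norm_real, Real.norm_of_nonneg (by linarith)]
  rw [h2] at h1
  have h3 := h1.trans (exp_mul_Rad (c.T3 n))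
  have h4 := L.clB n z hzn.le
  rw [h0, zero_sub, norm_neg] at h4
  have h5 : (1 : ℝ) / 2 ^ (n + 1) ≤ 1 / 4 := by
    refine one_div_le_one_div_of_le (by norm_num) ?_
    have h6 : (4 : ℝ) = 2 ^ 2 := by norm_num
    rw [h6]
    exact pow_le_pow_right₀ (by norm_num) (by omega)
  have h7 := norm_add_le (Bn n ζ - Bn n z) (Bn n z)
  rw [sub_add_cancel] at h7
  linarith

theorem basic (L : Lim l T Bn fn Pn B f P) (c : Chain l T Bn fn Pn) :
    Basic l f (fun z => Ps l (B z)) P := by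
  have hB : ∀ z ∈ ball (0 : ℂ) 1, ‖B z‖ < 1 := fun z hz =>
    lt_of_le_of_lt (L.Ble z (mem_ball_zero_iff.1 hz)) (mem_ball_zero_iff.1 hz)
  have hdB : ∀ z ∈ ball (0 : ℂ) 1, DifferentiableAt ℂ B z := fun z hz =>
    (L.anB z hz).differentiableAt
  have hder : ∀ z ∈ ball (0 : ℂ) 1, HasDerivAt (fun z => Ps l (B z))
      (-(((l + 1 : ℕ) : ℂ) * lamD (B z) ^ l * (deriv lamD (B z) * deriv B z))) z := by
    intro z hz
    have h1 : HasDerivAt (fun z => lamD (B z)) (deriv lamD (B z) * deriv B z) z :=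
      (diff_lamD (hB z hz)).hasDerivAt.comp z (hdB z hz).hasDerivAt
    have h2 := (h1.pow (l + 1)).const_sub 1
    simpa [Ps] using h2
  refine ⟨L.anf, ?_, L.anP, ?_, ?_, L.eq, ?_, ?_⟩
  · refine DifferentiableOn.analyticOnNhd (fun z hz => ?_) isOpen_ball
    exact (hder z hz).differentiableAt.differentiableWithinAt
  · exact fun z hz => L.f_ne c (mem_ball_zero_iff.1 hz)
  · intro z hz h
    have h1 : lamD (B z) ^ (l + 1) = 0 := by
      have h2 : Ps l (B z) = 1 := h
      unfold Ps at h2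
      linear_combination -h2
    exact lamD_ne_zero (hB z hz) (pow_eq_zero_iff (Nat.succ_ne_zero l) |>.1 h1)
  · by_contra hcon
    push Not at hcon
    have h0 : (0 : ℂ) ∈ ball (0 : ℂ) 1 := mem_ball_self one_pos
    have hzero : ∀ z ∈ ball (0 : ℂ) 1, deriv B z = 0 := by
      intro z hz
      have h1 : deriv (fun z => Ps l (B z)) z = 0 := by
        have h2 : (fun z => Ps l (B z)) =ᶠ[𝓝 z] fun _ => Ps l (B 0) := by
          filter_upwards [isOpen_ball.mem_nhds hz] with w hw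
          exact hcon w hw 0 h0
        rw [h2.deriv_eq, deriv_const]
      rw [(hder z hz).deriv, neg_eq_zero] at h1
      have h3 : ((l + 1 : ℕ) : ℂ) ≠ 0 := Nat.cast_ne_zero.2 (Nat.succ_ne_zero l)
      have h4 : lamD (B z) ^ l ≠ 0 := pow_ne_zero _ (lamD_ne_zero (hB z hz))
      rcases mul_eq_zero.1 h1 with h5 | h5
      · exact absurd h5 (mul_ne_zero h3 h4)
      · rcases mul_eq_zero.1 h5 with h6 | h6
        · exact absurd h6 (deriv_lamD_ne (hB z hz))
        · exact h6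
    obtain ⟨z, hz, hne⟩ := L.B_ne c
    refine hne ?_
    have h7 := isOpen_ball.is_const_of_deriv_eq_zero (s := ball (0 : ℂ) 1)
      (convex_ball (0 : ℂ) 1).isPreconnected (f := B) (fun w hw => (hdB w hw).differentiableWithinAt)
      (fun w hw => hzero w hw) (mem_ball_zero_iff.2 hz) h0
    rw [h7, L.B0]
  · refine ⟨0, mem_ball_self one_pos, ?_⟩
    rw [L.P0]
    unfold Pst
    refine one_div_ne_zero ?_
    rw [sub_ne_zero]
    intro h
    have h1 : ‖(1 : ℂ)‖ = ‖((1 : ℂ) / 2) ^ (l + 1)‖ := by rw [← h]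
    rw [norm_one, norm_pow] at h1
    have h2 : ‖(1 : ℂ) / 2‖ = 1 / 2 := by simp
    rw [h2] at h1
    have h3 : ((1 : ℝ) / 2) ^ (l + 1) < 1 := pow_lt_one₀ (by norm_num) (by norm_num) (by omega)
    linarith

end Lim

end Pool.Agent.Helper53.QF
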