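import Pool.Agent.Helper53.QF.Limit2

/-!
# MP_78803a: growth of the limit functions, `Chain → Means → Top l`
-/

set_option autoImplicit false

open Filter Topology Metric Complex

namespace Pool.Agent.Helper53.QF

open Pool.Agent.Helper61.Nev Pool.Agent.Helper81.QF Pool.Agent.Helper84.Lam

/-- `log⁺` and a factor -/
theorem posLog_le_of_le_mul {x y : ℂ} {c : ℝ} (hc : 1 ≤ c) (h : ‖x‖ ≤ c * ‖y‖) :
    Real.posLog ‖x‖ ≤ Real.posLog ‖y‖ + Real.log c := by
  have h0 : 0 ≤ Real.posLog ‖y‖ := by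
    rw [Real.posLog_def]
    exact le_max_left _ _
  refine posLog_le_of_norm_le (add_nonneg h0 (Real.log_nonneg hc)) ?_
  rw [Real.exp_add, Real.exp_log (by linarith), mul_comm]
  exact h.trans (mul_le_mul_of_nonneg_left (norm_le_exp_posLog y) (by linarith))

namespace Lim

variable {l : ℕ} {T : ℕ → ℝ} {Bn fn Pn : ℕ → ℂ → ℂ} {B f P : ℂ → ℂ}

theorem char_up (L : Lim l T Bn fn Pn B f P) (c : Chain l T Bn fn Pn) (n : ℕ) :
    charT f (Rad (T n)) ≤
      Real.circleAverage (fun z => Real.posLog ‖fn n z‖) 0 1 + Real.log 2 := by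
  have hR0 : 0 ≤ Rad (T n) := by linarith [Rad_ge (c.T3 n)]
  have hR1 := Rad_lt (T n)
  rw [Pool.Agent.Helper61.Lac.charT_eq hR1 L.anf]
  have hsub : closedBall (0 : ℂ) (Rad (T n)) ⊆ ball 0 1 := closedBall_subset_ball hR1
  have hfn : AnalyticOnNhd ℂ (fn n) (closedBall 0 (Rad (T n))) :=
    (c.anf n).mono (closedBall_subset_closedBall hR1.le)
  have i1 := circleIntegrable_posLog hR0 (L.anf.mono hsub).continuousOn
  have i2 := circleIntegrable_posLog hR0 hfn.continuousOn
  have h1 : Real.circleAverage (fun z => Real.posLog ‖f z‖) 0 (Rad (T n)) ≤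
      Real.circleAverage (fun z => Real.posLog ‖fn n z‖ + Real.log 2) 0 (Rad (T n)) := by
    refine Real.circleAverage_mono i1 (i2.add (circleIntegrable_const _ _ _)) fun z hz => ?_
    rw [abs_of_nonneg hR0, mem_sphere_zero_iff_norm] at hz
    exact posLog_le_of_le_mul (by norm_num) (L.f_le n hz.le)
  have h2 : Real.circleAverage (fun z => Real.posLog ‖fn n z‖ + Real.log 2) 0 (Rad (T n)) =
      Real.circleAverage (fun z => Real.posLog ‖fn n z‖) 0 (Rad (T n)) + Real.log 2 := by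
    have := Real.circleAverage_add i2 (circleIntegrable_const (Real.log 2) 0 (Rad (T n)))
    rw [Real.circleAverage_const] at this
    exact this
  have h3 := mean_posLog_mono hR0 hR1.le (c.anf n)
  linarith

theorem charP_up (L : Lim l T Bn fn Pn B f P) (c : Chain l T Bn fn Pn) (n : ℕ) :
    charT P (Rad (T n)) ≤
      Real.circleAverage (fun z => Real.posLog ‖Pn n z‖) 0 1 + Real.log 2 := by
  have hR0 : 0 ≤ Rad (T n) := by linarith [Rad_ge (c.T3 n)]
  have hR1 := Rad_lt (T n)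
  rw [Pool.Agent.Helper61.Lac.charT_eq hR1 L.anP]
  have hsub : closedBall (0 : ℂ) (Rad (T n)) ⊆ ball 0 1 := closedBall_subset_ball hR1
  have hfn : AnalyticOnNhd ℂ (Pn n) (closedBall 0 (Rad (T n))) :=
    (c.anP n).mono (closedBall_subset_closedBall hR1.le)
  have i1 := circleIntegrable_posLog hR0 (L.anP.mono hsub).continuousOn
  have i2 := circleIntegrable_posLog hR0 hfn.continuousOn
  have h1 : Real.circleAverage (fun z => Real.posLog ‖P z‖) 0 (Rad (T n)) ≤
      Real.circleAverage (fun z => Real.posLog ‖Pn n z‖ + Real.log 2) 0 (Rad (T n)) := by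
    refine Real.circleAverage_mono i1 (i2.add (circleIntegrable_const _ _ _)) fun z hz => ?_
    rw [abs_of_nonneg hR0, mem_sphere_zero_iff_norm] at hz
    have h4 := L.clP n z hz.le
    have h5 := norm_add_le (P z - Pn n z) (Pn n z)
    rw [sub_add_cancel] at h5
    have h6 : 0 ≤ Real.posLog ‖Pn n z‖ := by
      rw [Real.posLog_def]
      exact le_max_left _ _
    refine posLog_le_of_norm_le (add_nonneg h6 (Real.log_nonneg (by norm_num))) ?_
    rw [Real.exp_add, Real.exp_log (by norm_num)]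
    have h7 := norm_le_exp_posLog (Pn n z)
    have h8 : 1 ≤ Real.exp (Real.posLog ‖Pn n z‖) := Real.one_le_exp h6
    linarith
  have h2 : Real.circleAverage (fun z => Real.posLog ‖Pn n z‖ + Real.log 2) 0 (Rad (T n)) =
      Real.circleAverage (fun z => Real.posLog ‖Pn n z‖) 0 (Rad (T n)) + Real.log 2 := by
    have := Real.circleAverage_add i2 (circleIntegrable_const (Real.log 2) 0 (Rad (T n)))
    rw [Real.circleAverage_const] at this
    exact this
  have h3 := mean_posLog_mono hR0 hR1.le (c.anP n)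
  linarith

/-- `‖f_n ζ‖ ≤ 2 ‖f_n (R ζ)‖` -/
theorem _root_.Pool.Agent.Helper53.QF.Chain.ray (c : Chain l T Bn fn Pn) (n : ℕ) {ζ : ℂ}
    (hζ : ‖ζ‖ = 1) : ‖fn n ζ‖ ≤ 2 * ‖fn n ((Rad (T n) : ℂ) * ζ)‖ := by
  have hR0 := Rad_ge (c.T3 n)
  have hR1 := Rad_lt (T n)
  have hpos : 0 < Rad (T n) := by linarith
  have hd : ∀ z : ℂ, ‖z‖ ≤ 1 → DifferentiableAt ℂ (fn n) z := fun z hz =>
    (c.anf n z (mem_closedBall_zero_iff.2 hz)).differentiableAt
  have h1 := Pool.Agent.Helper16.T78.ray_growth (f := fun z => (fn n z)⁻¹) (R := 1)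
    (b := Real.exp (T n)) (Real.exp_pos _).le
    (fun z hz => (hd z hz).inv (c.fne n z hz)) (fun z hz => by
      have e1 : deriv (fun z => (fn n z)⁻¹) z = -deriv (fn n) z / fn n z ^ 2 :=
        ((hd z hz).hasDerivAt.inv (c.fne n z hz)).deriv
      have e2 : 0 < ‖fn n z‖ := norm_pos_iff.2 (c.fne n z hz)
      rw [e1, norm_div, norm_neg, norm_pow, norm_inv, div_le_iff₀ (by positivity)]
      have e3 := c.df n z hz
      have e4 : Real.exp (T n) * ‖fn n z‖⁻¹ * ‖fn n z‖ ^ 2 = Real.exp (T n) * ‖fn n z‖ := by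
        field_simp
      rw [e4]
      exact e3) (z := ζ) hζ.le (t := Rad (T n)) hpos hR1.le
  rw [mul_one] at h1
  have hw : ‖(Rad (T n) : ℂ) * ζ‖ ≤ 1 := by
    rw [norm_mul, hζ, mul_one, Complex.norm_real, Real.norm_of_nonneg hpos.le]
    exact hR1.le
  have h2 : Rad (T n) ^ (-Real.exp (T n)) ≤ 2 := by
    rw [Real.rpow_def_of_pos hpos, mul_neg]
    have h3 : -Real.log (Rad (T n)) ≤ 1 / Rad (T n) - 1 := by
      rw [← Real.log_inv, ← one_div]
      exact Real.log_le_sub_one_of_pos (by positivity)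
    have h4 : 1 / Rad (T n) - 1 ≤ 2 * (1 - Rad (T n)) := by
      rw [div_sub_one hpos.ne', div_le_iff₀ hpos]
      nlinarith
    have h5 := exp_mul_Rad (c.T3 n)
    have h6 : -(Real.log (Rad (T n)) * Real.exp (T n)) ≤ 1 / 4 := by
      have h7 : -(Real.log (Rad (T n)) * Real.exp (T n)) =
          Real.exp (T n) * (-Real.log (Rad (T n))) := by ring
      rw [h7]
      have h8 : Real.exp (T n) * (-Real.log (Rad (T n))) ≤
          Real.exp (T n) * (2 * (1 - Rad (T n))) :=
        mul_le_mul_of_nonneg_left (h3.trans h4) (Real.exp_pos _).le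
      linarith
    have h9 : (1 : ℝ) / 4 ≤ Real.log 2 := by linarith [Real.log_two_gt_d9]
    calc Real.exp (-(Real.log (Rad (T n)) * Real.exp (T n))) ≤ Real.exp (Real.log 2) :=
          Real.exp_le_exp.2 (h6.trans h9)
      _ = 2 := Real.exp_log (by norm_num)
  have e1 : 0 < ‖fn n ζ‖ := norm_pos_iff.2 (c.fne n ζ hζ.le)
  have e2 : 0 < ‖fn n ((Rad (T n) : ℂ) * ζ)‖ := norm_pos_iff.2 (c.fne n _ hw)
  simp only [norm_inv] at h1
  have h3 : ‖fn n ((Rad (T n) : ℂ) * ζ)‖⁻¹ ≤ ‖fn n ζ‖⁻¹ * 2 :=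
    h1.trans (mul_le_mul_of_nonneg_left h2 (by positivity))
  rw [← div_eq_inv_mul, inv_eq_one_div, div_le_div_iff₀ e2 e1] at h3
  linarith

theorem char_low (L : Lim l T Bn fn Pn B f P) (c : Chain l T Bn fn Pn) (n : ℕ) :
    Real.circleAverage (fun z => Real.posLog ‖fn n z‖) 0 1 - Real.log 4 ≤
      charT f (Rad (T n)) := by
  have hR0 : 0 ≤ Rad (T n) := by linarith [Rad_ge (c.T3 n)]
  have hR1 := Rad_lt (T n)
  rw [Pool.Agent.Helper61.Lac.charT_eq hR1 L.anf, circleAverage_scale _ (Rad (T n))]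
  have i1 := circleIntegrable_posLog zero_le_one (c.anf n).continuousOn
  have hin : ∀ z : ℂ, ‖z‖ ≤ 1 → ‖(Rad (T n) : ℂ) * z‖ ≤ Rad (T n) := by
    intro z hz
    rw [norm_mul, Complex.norm_real, Real.norm_of_nonneg hR0]
    exact mul_le_of_le_one_right hR0 hz
  have i2 : CircleIntegrable (fun z => Real.posLog ‖f ((Rad (T n) : ℂ) * z)‖) 0 1 := by
    refine circleIntegrable_posLog (g := fun z => f ((Rad (T n) : ℂ) * z)) zero_le_one ?_
    refine ContinuousOn.comp (L.anf.continuousOn) (by fun_prop) fun z hz => ?_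
    rw [mem_ball_zero_iff]
    exact lt_of_le_of_lt (hin z (mem_closedBall_zero_iff.1 hz)) hR1
  have h1 : Real.circleAverage (fun z => Real.posLog ‖fn n z‖) 0 1 ≤
      Real.circleAverage (fun z => Real.posLog ‖f ((Rad (T n) : ℂ) * z)‖ + Real.log 4) 0 1 := by
    refine Real.circleAverage_mono i1 (i2.add (circleIntegrable_const _ _ _)) fun z hz => ?_
    rw [abs_one, mem_sphere_zero_iff_norm] at hz
    refine posLog_le_of_le_mul (by norm_num) ?_
    have h2 := c.ray n hz
    have h3 := L.f_ge n (hin z hz.le)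
    linarith
  have h2 : Real.circleAverage (fun z => Real.posLog ‖f ((Rad (T n) : ℂ) * z)‖ + Real.log 4) 0 1 =
      Real.circleAverage (fun z => Real.posLog ‖f ((Rad (T n) : ℂ) * z)‖) 0 1 + Real.log 4 := by
    have := Real.circleAverage_add i2 (circleIntegrable_const (Real.log 4) 0 1)
    rw [Real.circleAverage_const] at this
    exact this
  linarith

/-- the bound of `log⁺ |f|` -/
theorem growth (L : Lim l T Bn fn Pn B f P) (c : Chain l T Bn fn Pn) :
    ∃ (C : ℝ) (m : ℕ), ∀ z ∈ ball (0 : ℂ) 1, Real.posLog ‖f z‖ ≤ C * (1 + Lr ‖z‖) ^ m := by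
  have hT : ∀ n, 1 ≤ T n := fun n => by linarith [c.T3 n]
  have hball : ∀ n, ∀ z : ℂ, ‖z‖ ≤ 1 → Real.posLog ‖fn n z‖ ≤ T n ^ 12 := by
    intro n z hz
    have h1 := posLog_le_of_sphere one_pos (c.anf n)
      (q := fun _ => ((T n ^ 12 : ℝ) : ℂ)) analyticOnNhd_const (fun w hw => by
        rw [mem_sphere_zero_iff_norm] at hw
        rw [Complex.ofReal_re, Real.posLog_def]
        exact max_le (pow_nonneg (by linarith [hT n]) _) ((le_abs_self _).trans (c.flog n w hw)))
      (w := z) (mem_closedBall_zero_iff.2 hz)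
    rwa [Complex.ofReal_re] at h1
  have hf : ∀ n, ∀ z : ℂ, ‖z‖ ≤ Rad (T n) → Real.posLog ‖f z‖ ≤ T n ^ 12 + 1 := by
    intro n z hz
    have h1 := posLog_le_of_le_mul (by norm_num) (L.f_le n hz)
    have h2 := hball n z (hz.trans (Rad_lt _).le)
    have h3 : Real.log 2 ≤ 1 := by linarith [Real.log_two_lt_d9]
    linarith
  refine ⟨T 0 ^ 12 + 3 ^ 12 + 1, 12, fun z hz => ?_⟩
  have hz1 : ‖z‖ < 1 := mem_ball_zero_iff.1 hz
  have hLr : 0 ≤ Lr ‖z‖ := by
    unfold Lr
    have := Real.log_nonpos (show 0 ≤ 1 - ‖z‖ by linarith) (by linarith [norm_nonneg z])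
    linarith
  have hge : (1 : ℝ) ≤ (1 + Lr ‖z‖) ^ 12 := one_le_pow₀ (by linarith)
  have hT0 : 0 ≤ T 0 ^ 12 := pow_nonneg (by linarith [hT 0]) _
  have hex := (c.exhaust z hz1).imp fun n h => h.le
  classical
  obtain ⟨n, hn, hmin⟩ : ∃ n, ‖z‖ ≤ Rad (T n) ∧ ∀ m, m < n → ¬ ‖z‖ ≤ Rad (T m) :=
    ⟨Nat.find hex, Nat.find_spec hex, fun m hm => Nat.find_min hex hm⟩
  rcases n with _ | n
  · refine (hf 0 z hn).trans ?_
    have : (T 0 ^ 12 + 1) * 1 ≤ (T 0 ^ 12 + 3 ^ 12 + 1) * (1 + Lr ‖z‖) ^ 12 :=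
      mul_le_mul (by norm_num) hge (by norm_num) (by positivity)
    linarith
  · have h1 : Rad (T n) < ‖z‖ := not_le.1 (hmin n (Nat.lt_succ_self n))
    have h2 : T n ≤ Lr ‖z‖ := by
      unfold Lr
      have h3 : Real.log (1 - ‖z‖) ≤ Real.log (Real.exp (-(T n + 20 * Real.log (T n)))) := by
        refine Real.log_le_log (by linarith) ?_
        unfold Rad at h1
        linarith
      rw [Real.log_exp] at h3
      have h4 := Real.log_nonneg (hT n)
      linarith
    have h3 : T (n + 1) ≤ 3 * T n := by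
      have h4 := c.Thi n
      have h5 : √(T n) ≤ T n := by
        rw [Real.sqrt_le_left (by linarith [hT n])]
        nlinarith [hT n]
      linarith
    have h4 : T (n + 1) ≤ 3 * (1 + Lr ‖z‖) := by linarith
    have h5 : T (n + 1) ^ 12 ≤ 3 ^ 12 * (1 + Lr ‖z‖) ^ 12 := by
      rw [← mul_pow]
      exact pow_le_pow_left₀ (by linarith [hT (n + 1)]) h4 12
    refine (hf (n + 1) z hn).trans ?_
    nlinarith

end Lim

/-- **From a chain of states to `Top l`.** -/
theorem top_of_chain {l : ℕ} {T : ℕ → ℝ} {Bn fn Pn : ℕ → ℂ → ℂ} (c : Chain l T Bn fn Pn)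
    (M : Means l T fn Pn) : Top l := by
  obtain ⟨B, f, P, L⟩ := c.exists_lim
  have hT := c.T_tend
  have hT1 : ∀ n, 1 ≤ T n := fun n => by linarith [c.T3 n]
  have hlog : ∀ n, 0 ≤ Real.log (T n) := fun n => Real.log_nonneg (hT1 n)
  have hs : Tendsto (fun n => T n + 20 * Real.log (T n)) atTop atTop :=
    tendsto_atTop_mono (fun n => by linarith [hlog n]) hT
  have hsr : ∀ ε : ℝ, 0 < ε → ∀ᶠ n in atTop, T (n + 1) + 20 * Real.log (T (n + 1)) ≤
      (1 + ε) * (T n + 20 * Real.log (T n)) := by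
    intro ε hε
    filter_upwards [ev_sqrt hT (half_pos hε), ev_log hT (20 * Real.log 3) (half_pos hε)] with
      n h1 h2
    have h3 : T (n + 1) ≤ 3 * T n := by
      have h4 := c.Thi n
      have h5 : √(T n) ≤ T n := by
        rw [Real.sqrt_le_left (by linarith [hT1 n])]
        nlinarith [hT1 n]
      linarith
    have h4 : Real.log (T (n + 1)) ≤ Real.log 3 + Real.log (T n) := by
      rw [← Real.log_mul (by norm_num) (by linarith [hT1 n])]
      exact Real.log_le_log (by linarith [hT1 (n + 1)]) h3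
    have h5 : 0 ≤ 20 * Real.log 3 * Real.log (T n) :=
      mul_nonneg (mul_nonneg (by norm_num) (Real.log_nonneg (by norm_num))) (hlog n)
    have h6 : 0 ≤ ε * Real.log (T n) := mul_nonneg hε.le (hlog n)
    have h7 := c.Thi n
    nlinarith
  have hl : (0 : ℝ) < l + 1 := by positivity
  obtain ⟨U, W, S⟩ := growth_of_seq (a := (l : ℝ) + 1) (f := f) (P := P) hl L.anf L.anP
    (s := fun n => T n + 20 * Real.log (T n)) (t := fun n => T n + 20 * Real.log (T n))
    hs hsr hs hsr (fun ε hε => by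
      filter_upwards [M.up (ε / 2) (half_pos hε), ev_log hT (Real.log 2) (half_pos hε)] with
        n h1 h2
      have h3 := L.char_up c n
      have h4 : 0 ≤ (l + 1 + ε) * (20 * Real.log (T n)) :=
        mul_nonneg (by linarith) (mul_nonneg (by norm_num) (hlog n))
      have h5 : 0 ≤ Real.log 2 * Real.log (T n) :=
        mul_nonneg (Real.log_nonneg (by norm_num)) (hlog n)
      show charT f (Rad (T n)) ≤ _
      linarith) (fun ε hε => by
      filter_upwards [M.low (ε / 2) (half_pos hε),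
        ev_log hT ((l + 1) * 20 + Real.log 4) (half_pos hε)] with n h1 h2
      have h3 := L.char_low c n
      have h4 : 0 ≤ ε * (20 * Real.log (T n)) :=
        mul_nonneg hε.le (mul_nonneg (by norm_num) (hlog n))
      have h5 : 0 ≤ Real.log 4 * Real.log (T n) :=
        mul_nonneg (Real.log_nonneg (by norm_num)) (hlog n)
      show _ ≤ charT f (Rad (T n))
      nlinarith) (fun ε hε => by
      filter_upwards [M.sm (ε / 2) (half_pos hε), ev_log hT (Real.log 2) (half_pos hε)] with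
        n h1 h2
      have h3 := L.charP_up c n
      have h4 : 0 ≤ ε * (20 * Real.log (T n)) :=
        mul_nonneg hε.le (mul_nonneg (by norm_num) (hlog n))
      have h5 : 0 ≤ Real.log 2 * Real.log (T n) :=
        mul_nonneg (Real.log_nonneg (by norm_num)) (hlog n)
      show charT P (Rad (T n)) ≤ _
      linarith)
  exact ⟨f, fun z => Ps l (B z), P, ⟨L.basic c, U, W, S⟩, L.growth c⟩

end Pool.Agent.Helper53.QF
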