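import Pool.Agent.Helper53.QF.End
import Pool.Agent.Helper81.QF.Cycle
import Pool.Agent.Helper81.QF.Run.RunMain
import Pool.Agent.Helper84.PD.Top

/-!
# MP_78803a: the full answer from RUN (proved) and EVENT (hypothesis of this file)
-/

set_option autoImplicit false

namespace Pool.Agent.Helper53.QF

open Pool.Agent.Helper61.Nev Pool.Agent.Helper81.QF Pool.Agent.Helper84.Lam

/-- The answer to Q1 from `EventGoal`. -/
theorem answer_of_event
    (h : ∀ l : ℕ, 1 ≤ l → ∃ C₃ : ℝ, 2 ≤ C₃ ∧ EventGoal l C₃) (l : ℕ) (hl : 1 ≤ l) :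
    (∀ x : ℝ, 0 ≤ x → (Holds l (x : EReal) ↔ (l : ℝ) + 1 < x)) ∧
    IsLeast {c : ℝ | ∀ x : ℝ, c < x → Holds l (x : EReal)} ((l : ℝ) + 1) := by
  refine answer_of_cycle (fun l hl => ?_) l hl
  obtain ⟨C₃, hC, hE⟩ := h l hl
  exact ⟨C₃, Pool.Agent.Helper84.PD.log_YD_zero_le.trans hC, cycle (run hl C₃) hE⟩

end Pool.Agent.Helper53.QF
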