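import Mathlib
import Pool.Agent.Helper61.Lac.LC11a

/-!
# The characteristic of an analytic function increases

`circleAverage (log⁺ ‖P‖) 0 r ≤ circleAverage (log⁺ ‖P‖) 0 R` for `0 ≤ r ≤ R` and `P` analytic near the closed disc of
radius `R` (zeros allowed). Proof: Riemann sums with `m` points and the maximum principle for
`∏_(j ∈ J) P (z ω^j)`, `J = {j | 1 < ‖P (r ω^j)‖}`.
-/

set_option autoImplicit false

open Filter Topology Metric Complex MeasureTheory
open scoped Real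

namespace Pool.Agent.Helper53.QF

/-- Riemann sums of a continuous `2π`-periodic function, uniformly in the offset. -/
theorem riemann {g : ℝ → ℝ} (hg : Continuous g) (hp : Function.Periodic g (2 * π)) {ε : ℝ}
    (hε : 0 < ε) : ∃ M : ℕ, ∀ m : ℕ, M ≤ m → 0 < m → ∀ θ ∈ Set.Icc (-π) π,
      |(1 / (m : ℝ)) * ∑ j ∈ Finset.range m, g (θ + 2 * π * j / m) -
        (2 * π)⁻¹ * ∫ t in (0 : ℝ)..2 * π, g t| ≤ ε := by
  have hpi := Real.pi_pos
  have huc : UniformContinuousOn g (Set.Icc (-π) (3 * π)) :=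
    isCompact_Icc.uniformContinuousOn_of_continuous hg.continuousOn
  rw [Metric.uniformContinuousOn_iff] at huc
  obtain ⟨δ, hδ, hδg⟩ := huc ε hε
  obtain ⟨M, hM⟩ := exists_nat_gt (2 * π / δ)
  refine ⟨M, fun m hm hm0 θ hθ => ?_⟩
  have hm0' : (0 : ℝ) < m := by exact_mod_cast hm0
  have hmM : 2 * π / δ < m := lt_of_lt_of_le hM (by exact_mod_cast hm)
  have hstep : 2 * π / m < δ := by
    rw [div_lt_iff₀ hδ] at hmM
    rw [div_lt_iff₀ hm0']
    linarith
  set a : ℕ → ℝ := fun j => θ + 2 * π * j / m with ha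
  have hsucc : ∀ j, a (j + 1) = a j + 2 * π / m := by
    intro j
    simp only [ha]
    push_cast
    ring
  have hint : ∀ x y : ℝ, IntervalIntegrable g volume x y := fun x y => hg.intervalIntegrable x y
  have hsum : ∑ j ∈ Finset.range m, ∫ t in (a j)..(a (j + 1)), g t = ∫ t in (0 : ℝ)..2 * π, g t := by
    rw [intervalIntegral.sum_integral_adjacent_intervals fun k _ => hint _ _]
    have h0 : a 0 = θ := by simp [ha]
    have h1 : a m = θ + 2 * π := by
      simp only [ha]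
      field_simp
    rw [h0, h1, hp.intervalIntegral_add_eq θ 0, zero_add]
  have hterm : ∀ j ∈ Finset.range m, |(2 * π / m) * g (a j) - ∫ t in (a j)..(a (j + 1)), g t| ≤
      ε * (2 * π / m) := by
    intro j hj
    have hjm : (j : ℝ) + 1 ≤ m := by exact_mod_cast Finset.mem_range.1 hj
    have hpos : 0 < 2 * π / m := by positivity
    have e1 : (2 * π / m) * g (a j) - ∫ t in (a j)..(a (j + 1)), g t =
        ∫ t in (a j)..(a (j + 1)), (g (a j) - g t) := by
      rw [intervalIntegral.integral_sub intervalIntegrable_const (hint _ _),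
        intervalIntegral.integral_const, hsucc, smul_eq_mul]
      ring
    have hj0 : (0 : ℝ) ≤ j := Nat.cast_nonneg j
    have haj : -π ≤ a j := by
      have : 0 ≤ 2 * π * j / m := by positivity
      simp only [ha]
      linarith [hθ.1]
    have haj1 : a (j + 1) ≤ 3 * π := by
      have h3 : 2 * π * ((j + 1 : ℕ) : ℝ) / m ≤ 2 * π := by
        rw [div_le_iff₀ hm0']
        push_cast
        exact mul_le_mul_of_nonneg_left hjm (by positivity)
      simp only [ha]
      linarith [hθ.2]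
    rw [e1, ← Real.norm_eq_abs]
    refine (intervalIntegral.norm_integral_le_of_norm_le_const (C := ε) ?_).trans (le_of_eq ?_)
    · intro t ht
      rw [Set.uIoc_of_le (by rw [hsucc]; linarith)] at ht
      have h4 := hsucc j
      have h5 := hδg (a j) ⟨haj, by linarith⟩ t ⟨by linarith [ht.1], by linarith [ht.2]⟩ (by
        rw [Real.dist_eq, abs_sub_comm, abs_of_nonneg (by linarith [ht.1])]
        linarith [ht.2])
      rw [Real.dist_eq] at h5
      rw [Real.norm_eq_abs]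
      exact h5.le
    · rw [hsucc, add_sub_cancel_left, abs_of_pos hpos]
  have htot : |∑ j ∈ Finset.range m, ((2 * π / m) * g (a j)) - ∫ t in (0 : ℝ)..2 * π, g t| ≤
      ε * (2 * π) := by
    rw [← hsum, ← Finset.sum_sub_distrib]
    refine (Finset.abs_sum_le_sum_abs _ _).trans ((Finset.sum_le_sum hterm).trans (le_of_eq ?_))
    rw [Finset.sum_const, Finset.card_range, nsmul_eq_mul]
    field_simp
  have hfin : (1 / (m : ℝ)) * ∑ j ∈ Finset.range m, g (a j) - (2 * π)⁻¹ * ∫ t in (0 : ℝ)..2 * π, g t =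
      (2 * π)⁻¹ * (∑ j ∈ Finset.range m, ((2 * π / m) * g (a j)) - ∫ t in (0 : ℝ)..2 * π, g t) := by
    rw [← Finset.mul_sum]
    field_simp
  show |(1 / (m : ℝ)) * ∑ j ∈ Finset.range m, g (a j) - (2 * π)⁻¹ * ∫ t in (0 : ℝ)..2 * π, g t| ≤ ε
  rw [hfin, abs_mul, abs_of_pos (by positivity : 0 < (2 * π)⁻¹)]
  calc (2 * π)⁻¹ * |∑ j ∈ Finset.range m, ((2 * π / m) * g (a j)) - ∫ t in (0 : ℝ)..2 * π, g t|
      ≤ (2 * π)⁻¹ * (ε * (2 * π)) := mul_le_mul_of_nonneg_left htot (by positivity)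
    _ = ε := by field_simp

/-- The mean of `log⁺ ‖P‖` increases with the radius. -/
theorem mean_posLog_mono {P : ℂ → ℂ} {r R : ℝ} (hr : 0 ≤ r) (hrR : r ≤ R)
    (hP : AnalyticOnNhd ℂ P (closedBall 0 R)) :
    Real.circleAverage (fun z => Real.posLog ‖P z‖) 0 r ≤
      Real.circleAverage (fun z => Real.posLog ‖P z‖) 0 R := by
  rcases hrR.eq_or_lt with h | h
  · rw [h]
  have hR : 0 < R := lt_of_le_of_lt hr h
  have hpi := Real.pi_pos
  have hcm : ∀ ρ : ℝ, 0 ≤ ρ → ρ ≤ R → ∀ θ : ℝ, circleMap 0 ρ θ ∈ closedBall (0 : ℂ) R := by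
    intro ρ h0 h1 θ
    rw [mem_closedBall_zero_iff, norm_circleMap_zero, abs_of_nonneg h0]
    exact h1
  have hcont : ∀ ρ : ℝ, 0 ≤ ρ → ρ ≤ R →
      Continuous fun θ : ℝ => Real.posLog ‖P (circleMap 0 ρ θ)‖ := by
    intro ρ h0 h1
    have h2 : Continuous fun θ : ℝ => P (circleMap 0 ρ θ) :=
      hP.continuousOn.comp_continuous (continuous_circleMap 0 ρ) (hcm ρ h0 h1)
    exact Real.continuous_posLog.comp h2.norm
  have hper : ∀ ρ : ℝ, Function.Periodic (fun θ : ℝ => Real.posLog ‖P (circleMap 0 ρ θ)‖) (2 * π) := by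
    intro ρ θ
    show Real.posLog ‖P (circleMap 0 ρ (θ + 2 * π))‖ = Real.posLog ‖P (circleMap 0 ρ θ)‖
    rw [periodic_circleMap 0 ρ θ]
  have havg : ∀ ρ : ℝ, Real.circleAverage (fun z => Real.posLog ‖P z‖) 0 ρ =
      (2 * π)⁻¹ * ∫ t in (0 : ℝ)..2 * π, Real.posLog ‖P (circleMap 0 ρ t)‖ := by
    intro ρ
    rw [Real.circleAverage_def, smul_eq_mul]
  refine le_of_forall_pos_le_add fun ε hε => ?_
  obtain ⟨M1, hM1⟩ := riemann (hcont r hr h.le) (hper r) (half_pos hε)
  obtain ⟨M2, hM2⟩ := riemann (hcont R hR.le le_rfl) (hper R) (half_pos hε)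
  set m : ℕ := max (max M1 M2) 1 with hm
  have hmM1 : M1 ≤ m := (le_max_left _ _).trans (le_max_left _ _)
  have hmM2 : M2 ≤ m := (le_max_right _ _).trans (le_max_left _ _)
  have hm0 : 0 < m := lt_of_lt_of_le one_pos (le_max_right _ _)
  have hm0' : (0 : ℝ) < m := by exact_mod_cast hm0
  classical
  -- the rotations
  set ω : ℕ → ℂ := fun j => cexp ((2 * π * j / m : ℝ) * I) with hω
  have hωn : ∀ j, ‖ω j‖ = 1 := fun j => Complex.norm_exp_ofReal_mul_I _
  set J : Finset ℕ := (Finset.range m).filter fun j => 1 < ‖P (r * ω j)‖ with hJ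
  set Φ : ℂ → ℂ := fun z => ∏ j ∈ J, P (z * ω j) with hΦ
  have hmem : ∀ z ∈ closedBall (0 : ℂ) R, ∀ j, z * ω j ∈ closedBall (0 : ℂ) R := by
    intro z hz j
    rw [mem_closedBall_zero_iff] at hz ⊢
    rw [norm_mul, hωn, mul_one]
    exact hz
  have hΦd : DiffContOnCl ℂ Φ (ball 0 R) := by
    refine DifferentiableOn.diffContOnCl ?_
    rw [closure_ball _ hR.ne']
    refine DifferentiableOn.fun_finsetProd fun j _ => ?_
    intro z hz
    have h1 : DifferentiableAt ℂ P (z * ω j) := (hP _ (hmem z hz j)).differentiableAt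
    have h2 : DifferentiableAt ℂ (fun z => P (z * ω j)) z :=
      DifferentiableAt.fun_comp' z h1 (differentiableAt_id.mul_const (ω j))
    exact h2.differentiableWithinAt
  obtain ⟨ζ, hζ, hmax⟩ := Complex.exists_mem_frontier_isMaxOn_norm isBounded_ball
    (nonempty_ball.2 hR) hΦd
  rw [frontier_ball _ hR.ne'] at hζ
  rw [closure_ball _ hR.ne'] at hmax
  have hζn : ‖ζ‖ = R := mem_sphere_zero_iff_norm.1 hζ
  have hrmem : ((r : ℂ)) ∈ closedBall (0 : ℂ) R := by
    rw [mem_closedBall_zero_iff, Complex.norm_real, Real.norm_eq_abs, abs_of_nonneg hr]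
    exact h.le
  have hle : ‖Φ r‖ ≤ ‖Φ ζ‖ := hmax hrmem
  have hΦr : ‖Φ r‖ = ∏ j ∈ J, ‖P (r * ω j)‖ := norm_prod _ _
  have hΦζ : ‖Φ ζ‖ = ∏ j ∈ J, ‖P (ζ * ω j)‖ := norm_prod _ _
  have hJ1 : ∀ j ∈ J, 1 < ‖P (r * ω j)‖ := fun j hj => (Finset.mem_filter.1 hj).2
  have hΦr0 : 0 < ‖Φ r‖ := by
    rw [hΦr]
    exact Finset.prod_pos fun j hj => lt_trans one_pos (hJ1 j hj)
  have hΦζ0 : 0 < ‖Φ ζ‖ := lt_of_lt_of_le hΦr0 hle
  have hζ0 : ∀ j ∈ J, ‖P (ζ * ω j)‖ ≠ 0 := by
    intro j hj h0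
    rw [hΦζ] at hΦζ0
    exact hΦζ0.ne' (Finset.prod_eq_zero hj h0)
  have e1 : Real.log ‖Φ r‖ = ∑ j ∈ Finset.range m, Real.posLog ‖P (r * ω j)‖ := by
    rw [hΦr, Real.log_prod fun j hj => (lt_trans one_pos (hJ1 j hj)).ne', hJ, Finset.sum_filter]
    refine Finset.sum_congr rfl fun j _ => ?_
    split_ifs with h1
    · rw [Real.posLog_eq_log]
      rw [abs_of_nonneg (norm_nonneg _)]
      exact h1.le
    · rw [not_lt] at h1
      symm
      rw [Real.posLog_eq_zero_iff, abs_of_nonneg (norm_nonneg _)]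
      exact h1
  have e2 : Real.log ‖Φ ζ‖ ≤ ∑ j ∈ Finset.range m, Real.posLog ‖P (ζ * ω j)‖ := by
    rw [hΦζ, Real.log_prod hζ0]
    refine (Finset.sum_le_sum fun j _ => (?_ : _ ≤ Real.posLog ‖P (ζ * ω j)‖)).trans
      (Finset.sum_le_sum_of_subset_of_nonneg (Finset.filter_subset _ _)
        fun j _ _ => Real.posLog_nonneg)
    rw [Real.posLog_def]
    exact le_max_right _ _
  have e3 : ∑ j ∈ Finset.range m, Real.posLog ‖P (r * ω j)‖ ≤
      ∑ j ∈ Finset.range m, Real.posLog ‖P (ζ * ω j)‖ := by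
    rw [← e1]
    exact (Real.log_le_log hΦr0 hle).trans e2
  have hr1 : ∀ j : ℕ, circleMap 0 r (0 + 2 * π * j / m) = r * ω j := by
    intro j
    simp only [circleMap, hω, zero_add]
  set θ : ℝ := arg ζ with hθ
  have hζ1 : ∀ j : ℕ, circleMap 0 R (θ + 2 * π * j / m) = ζ * ω j := by
    intro j
    simp only [circleMap, hω, zero_add]
    rw [ofReal_add, add_mul, Complex.exp_add, ← mul_assoc]
    congr 1
    have h1 := Complex.norm_mul_exp_arg_mul_I ζ
    rw [hζn] at h1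
    exact h1
  have k1 := hM1 m hmM1 hm0 0 ⟨by linarith, by linarith⟩
  have k2 := hM2 m hmM2 hm0 θ ⟨(neg_pi_lt_arg ζ).le, arg_le_pi ζ⟩
  simp only [hr1] at k1
  simp only [hζ1] at k2
  rw [← havg r, abs_le] at k1
  rw [← havg R, abs_le] at k2
  have k3 : (1 / (m : ℝ)) * ∑ j ∈ Finset.range m, Real.posLog ‖P (r * ω j)‖ ≤
      (1 / (m : ℝ)) * ∑ j ∈ Finset.range m, Real.posLog ‖P (ζ * ω j)‖ :=
    mul_le_mul_of_nonneg_left e3 (by positivity)
  linarith [k1.1, k2.2]

open Pool.Agent.Helper61.Nev in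
/-- The characteristic of an analytic function in the disc increases. -/
theorem charT_mono {P : ℂ → ℂ} (hP : AnalyticOnNhd ℂ P (ball 0 1)) {r R : ℝ} (hr : 0 ≤ r)
    (hrR : r ≤ R) (hR : R < 1) : charT P r ≤ charT P R := by
  rw [Pool.Agent.Helper61.Lac.charT_eq (lt_of_le_of_lt hrR hR) hP,
    Pool.Agent.Helper61.Lac.charT_eq hR hP]
  exact mean_posLog_mono hr hrR (hP.mono (closedBall_subset_ball hR))

end Pool.Agent.Helper53.QF
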