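import Pool.Agent.Helper53.QF.RedSub

/-!
# The covering map of an annulus

`0 < α < π`, `p z = 1 - e^(-iα) z`, `m z = 1 - e^(iα) z`, `x = log p - log m`, `σ = (Im x + α)/π ∈ (0, 1)`, `σ(0) = α/π`,
`B = exp (i x - α)`, `|B| = e^(-πσ)`, `B' = -2 sin α B/(p m)`, `C = 1/B`, `g = 1/B' = -p m C/(2 sin α)`, `g C' = -C²`.
`sin (πσ) |p| |m| = sin α (1 - |z|²)`.
-/

set_option autoImplicit false

open Filter Topology Metric Complex
open scoped Real ComplexConjugate

namespace Pool.Agent.Helper53.QF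

/-- `p z = 1 - e^(-iα) z` -/
noncomputable def pp (α : ℝ) : ℂ → ℂ := fun z => 1 - cexp (-(α * I)) * z

/-- `m z = 1 - e^(iα) z` -/
noncomputable def mm (α : ℝ) : ℂ → ℂ := fun z => 1 - cexp (α * I) * z

/-- `x = log p - log m` -/
noncomputable def xx (α : ℝ) : ℂ → ℂ := fun z => log (pp α z) - log (mm α z)

/-- `σ = (Im x + α)/π` -/
noncomputable def sg (α : ℝ) : ℂ → ℝ := fun z => ((xx α z).im + α) / π

/-- `S`, with real part `σ` -/
noncomputable def SS (α : ℝ) : ℂ → ℂ := fun z => (-I * xx α z + α) / π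

/-- the covering map -/
noncomputable def BB (α : ℝ) : ℂ → ℂ := fun z => cexp (I * xx α z - α)

/-- its inverse -/
noncomputable def CC (α : ℝ) : ℂ → ℂ := fun z => cexp (-(I * xx α z - α))

/-- `1/B'` -/
noncomputable def gg (α : ℝ) : ℂ → ℂ := fun z =>
  (-(2 * Real.sin α : ℝ) : ℂ)⁻¹ * (pp α z * mm α z * CC α z)

variable {α : ℝ}

theorem norm_e (α : ℝ) : ‖cexp (α * I)‖ = 1 := Complex.norm_exp_ofReal_mul_I α

theorem norm_e' (α : ℝ) : ‖cexp (-(α * I))‖ = 1 := by
  have : (-(α * I) : ℂ) = ((-α : ℝ) : ℂ) * I := by push_cast; ring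
  rw [this]
  exact Complex.norm_exp_ofReal_mul_I _

private theorem re_pos_aux {u z : ℂ} (hu : ‖u‖ = 1) (hz : ‖z‖ < 1) : 0 < (1 - u * z).re := by
  rw [Complex.sub_re, Complex.one_re]
  have h1 : (u * z).re ≤ ‖u * z‖ := Complex.re_le_norm _
  rw [norm_mul, hu, one_mul] at h1
  linarith

theorem pp_re {z : ℂ} (hz : ‖z‖ < 1) : 0 < (pp α z).re := re_pos_aux (norm_e' α) hz

theorem mm_re {z : ℂ} (hz : ‖z‖ < 1) : 0 < (mm α z).re := re_pos_aux (norm_e α) hz

theorem pp_ne {z : ℂ} (hz : ‖z‖ < 1) : pp α z ≠ 0 := by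
  intro h
  have := pp_re (α := α) hz
  rw [h, Complex.zero_re] at this
  exact lt_irrefl _ this

theorem mm_ne {z : ℂ} (hz : ‖z‖ < 1) : mm α z ≠ 0 := by
  intro h
  have := mm_re (α := α) hz
  rw [h, Complex.zero_re] at this
  exact lt_irrefl _ this

theorem pp_slit {z : ℂ} (hz : ‖z‖ < 1) : pp α z ∈ slitPlane := Or.inl (pp_re hz)

theorem mm_slit {z : ℂ} (hz : ‖z‖ < 1) : mm α z ∈ slitPlane := Or.inl (mm_re hz)

theorem hasDerivAt_pp (α : ℝ) (z : ℂ) : HasDerivAt (pp α) (-cexp (-(α * I))) z := by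
  have := ((hasDerivAt_id z).const_mul (cexp (-(α * I)))).const_sub 1
  show HasDerivAt (fun z => 1 - cexp (-(α * I)) * z) _ z
  simpa using this

theorem hasDerivAt_mm (α : ℝ) (z : ℂ) : HasDerivAt (mm α) (-cexp (α * I)) z := by
  have := ((hasDerivAt_id z).const_mul (cexp (α * I))).const_sub 1
  show HasDerivAt (fun z => 1 - cexp (α * I) * z) _ z
  simpa using this

/-- `e^(iα) - e^(-iα) = 2 i sin α` -/
theorem e_sub (α : ℝ) : cexp (α * I) - cexp (-(α * I)) = 2 * I * Real.sin α := by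
  have h1 : cexp (-(α * I)) = cexp ((-α : ℝ) * I) := by
    congr 1
    push_cast
    ring
  rw [h1, Complex.exp_mul_I, Complex.exp_mul_I, ← Complex.ofReal_cos, ← Complex.ofReal_sin,
    ← Complex.ofReal_cos, ← Complex.ofReal_sin, Real.cos_neg, Real.sin_neg]
  push_cast
  ring

theorem e_mul (α : ℝ) : cexp (α * I) * cexp (-(α * I)) = 1 := by
  rw [← Complex.exp_add, add_neg_cancel, Complex.exp_zero]

/-- `x' = 2 i sin α / (p m)` -/
theorem hasDerivAt_xx {z : ℂ} (hz : ‖z‖ < 1) :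
    HasDerivAt (xx α) (2 * I * Real.sin α / (pp α z * mm α z)) z := by
  have h1 := (hasDerivAt_pp α z).clog (pp_slit hz)
  have h2 := (hasDerivAt_mm α z).clog (mm_slit hz)
  have h3 := h1.sub h2
  have hp := pp_ne (α := α) hz
  have hm := mm_ne (α := α) hz
  have h4 : (2 * I * Real.sin α / (pp α z * mm α z) : ℂ) =
      -cexp (-(α * I)) / pp α z - -cexp (α * I) / mm α z := by
    rw [div_sub_div _ _ hp hm, ← e_sub]
    congr 1
    unfold pp mm
    ring
  rw [h4]
  exact h3

theorem analytic_xx (α : ℝ) : AnalyticOnNhd ℂ (xx α) (ball 0 1) := by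
  refine DifferentiableOn.analyticOnNhd ?_ isOpen_ball
  intro z hz
  exact (hasDerivAt_xx (mem_ball_zero_iff.1 hz)).differentiableAt.differentiableWithinAt

theorem xx_zero (α : ℝ) : xx α 0 = 0 := by
  unfold xx pp mm
  simp

theorem SS_re (α : ℝ) (z : ℂ) : (SS α z).re = sg α z := by
  unfold SS sg
  have h1 : (-I * xx α z + α) / π = ((1 / π : ℝ) : ℂ) * (-I * xx α z + α) := by
    push_cast
    ring
  rw [h1, Complex.re_ofReal_mul]
  simp only [Complex.add_re, Complex.mul_re, Complex.neg_re, Complex.neg_im, Complex.I_re,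
    Complex.I_im, Complex.ofReal_re]
  ring

theorem analytic_SS (α : ℝ) : AnalyticOnNhd ℂ (SS α) (ball 0 1) := by
  intro z hz
  have h1 := analytic_xx α z hz
  have h2 : AnalyticAt ℂ (fun z => (-I * xx α z + α) * (π : ℂ)⁻¹) z :=
    ((analyticAt_const.mul h1).add analyticAt_const).mul analyticAt_const
  have h3 : SS α = fun z => (-I * xx α z + α) * (π : ℂ)⁻¹ := by
    funext w
    unfold SS
    rw [div_eq_mul_inv]
  rw [h3]
  exact h2

theorem sg_zero (α : ℝ) : sg α 0 = α / π := by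
  unfold sg
  rw [xx_zero]
  simp

/-- `exp (x + iα) = (e^(iα) - z)/m` and its imaginary part -/
theorem exp_xx {z : ℂ} (hz : ‖z‖ < 1) : cexp (xx α z) = pp α z / mm α z := by
  unfold xx
  rw [Complex.exp_sub, Complex.exp_log (pp_ne hz), Complex.exp_log (mm_ne hz)]

theorem sin_sg {z : ℂ} (hz : ‖z‖ < 1) :
    Real.sin ((xx α z).im + α) * (‖pp α z‖ * ‖mm α z‖) = Real.sin α * (1 - ‖z‖ ^ 2) := by
  have hp := pp_ne (α := α) hz
  have hm := mm_ne (α := α) hz
  -- `exp (x + iα)`
  have h1 : (cexp (xx α z + α * I)).im = Real.exp (xx α z).re * Real.sin ((xx α z).im + α) := by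
    rw [Complex.exp_im]
    simp
  have h2 : Real.exp (xx α z).re = ‖pp α z‖ / ‖mm α z‖ := by
    rw [← Complex.norm_exp, exp_xx hz, norm_div]
  have h3 : cexp (xx α z + α * I) = (cexp (α * I) - z) / mm α z := by
    rw [Complex.exp_add, exp_xx hz, div_mul_eq_mul_div]
    congr 1
    unfold pp
    linear_combination (-z) * e_mul α
  have h4 : ((cexp (α * I) - z) / mm α z).im * Complex.normSq (mm α z) =
      Real.sin α * (1 - ‖z‖ ^ 2) := by
    rw [div_eq_mul_inv, Complex.inv_def, ← mul_assoc, Complex.im_mul_ofReal]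
    have hn : Complex.normSq (mm α z) ≠ 0 := by
      rw [Ne, Complex.normSq_eq_zero]
      exact hm
    rw [mul_assoc, inv_mul_cancel₀ hn, mul_one]
    unfold mm
    rw [Complex.exp_mul_I, ← Complex.ofReal_cos, ← Complex.ofReal_sin, ← Complex.normSq_eq_norm_sq]
    simp only [Complex.normSq_apply, Complex.mul_im, Complex.sub_im, Complex.sub_re,
      Complex.add_im, Complex.add_re, Complex.mul_re, Complex.ofReal_re, Complex.ofReal_im,
      Complex.I_re, Complex.I_im, Complex.one_re, Complex.one_im, Complex.conj_re,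
      Complex.conj_im]
    have hcs := Real.sin_sq_add_cos_sq α
    have hcs' : Real.cos α ^ 2 = 1 - Real.sin α ^ 2 := by linarith
    ring_nf
    rw [hcs']
    ring
  rw [h3] at h1
  rw [h1, h2, Complex.normSq_eq_norm_sq] at h4
  have hmn : ‖mm α z‖ ≠ 0 := norm_ne_zero_iff.2 hm
  rw [← h4]
  field_simp

/-- `0 < Im x + α < π` -/
theorem im_mem (h0 : 0 < α) (h1 : α < π) {z : ℂ} (hz : ‖z‖ < 1) :
    0 < (xx α z).im + α ∧ (xx α z).im + α < π := by
  have hpi := Real.pi_pos
  have hs : 0 < Real.sin α := Real.sin_pos_of_pos_of_lt_pi h0 h1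
  have hp := pp_ne (α := α) hz
  have hm := mm_ne (α := α) hz
  have hpos : 0 < Real.sin ((xx α z).im + α) := by
    have h2 := sin_sg (α := α) hz
    have h3 : 0 < Real.sin α * (1 - ‖z‖ ^ 2) := by
      have : ‖z‖ ^ 2 < 1 := by nlinarith [norm_nonneg z]
      exact mul_pos hs (by linarith)
    rw [← h2] at h3
    exact pos_of_mul_pos_left h3 (by positivity)
  have him : (xx α z).im = arg (pp α z) - arg (mm α z) := by
    unfold xx
    rw [Complex.sub_im, Complex.log_im, Complex.log_im]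
  have e1 := Complex.abs_arg_lt_pi_div_two_iff.2 (Or.inl (pp_re (α := α) hz))
  have e2 := Complex.abs_arg_lt_pi_div_two_iff.2 (Or.inl (mm_re (α := α) hz))
  rw [abs_lt] at e1 e2
  constructor
  · by_contra hcon
    rw [not_lt] at hcon
    have h4 : Real.sin ((xx α z).im + α) ≤ 0 := by
      refine Real.sin_nonpos_of_nonpos_of_neg_pi_le hcon ?_
      rw [him]
      linarith [e1.1, e2.2]
    linarith
  · by_contra hcon
    rw [not_lt] at hcon
    have h4 : 0 ≤ Real.sin ((xx α z).im + α - π) := by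
      refine Real.sin_nonneg_of_nonneg_of_le_pi (by linarith) ?_
      rw [him]
      linarith [e1.2, e2.1]
    rw [Real.sin_sub_pi] at h4
    linarith

theorem sg_mem (h0 : 0 < α) (h1 : α < π) {z : ℂ} (hz : ‖z‖ < 1) : 0 < sg α z ∧ sg α z < 1 := by
  have h2 := im_mem h0 h1 hz
  have hpi := Real.pi_pos
  unfold sg
  constructor
  · exact div_pos h2.1 hpi
  · rw [div_lt_one hpi]
    exact h2.2

theorem norm_BB (α : ℝ) (z : ℂ) : ‖BB α z‖ = Real.exp (-(π * sg α z)) := by
  unfold BB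
  rw [Complex.norm_exp]
  congr 1
  unfold sg
  rw [mul_div_cancel₀ _ Real.pi_ne_zero]
  simp
  ring

theorem norm_CC (α : ℝ) (z : ℂ) : ‖CC α z‖ = Real.exp (π * sg α z) := by
  unfold CC
  rw [Complex.norm_exp]
  congr 1
  unfold sg
  rw [mul_div_cancel₀ _ Real.pi_ne_zero]
  simp
  ring

theorem BB_mul_CC (α : ℝ) (z : ℂ) : CC α z * BB α z = 1 := by
  unfold CC BB
  rw [← Complex.exp_add, neg_add_cancel, Complex.exp_zero]

theorem hasDerivAt_BB {z : ℂ} (hz : ‖z‖ < 1) :
    HasDerivAt (BB α) (cexp (I * xx α z - α) * (I * (2 * I * Real.sin α / (pp α z * mm α z)))) z :=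
  (((hasDerivAt_xx hz).const_mul I).sub_const (α : ℂ)).cexp

theorem hasDerivAt_CC {z : ℂ} (hz : ‖z‖ < 1) :
    HasDerivAt (CC α) (cexp (-(I * xx α z - α)) *
      -(I * (2 * I * Real.sin α / (pp α z * mm α z)))) z :=
  (((hasDerivAt_xx hz).const_mul I).sub_const (α : ℂ)).neg.cexp

theorem selfMap_BB (h0 : 0 < α) (h1 : α < π) : SelfMap (BB α) (gg α) (CC α) := by
  have hs : 0 < Real.sin α := Real.sin_pos_of_pos_of_lt_pi h0 h1
  have hsc : ((Real.sin α : ℝ) : ℂ) ≠ 0 := by exact_mod_cast hs.ne'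
  have hsc' : Complex.sin α ≠ 0 := by rwa [← Complex.ofReal_sin]
  have anBB : AnalyticOnNhd ℂ (BB α) (ball 0 1) := fun z hz =>
    (((analyticAt_const.mul (analytic_xx α z hz)).sub analyticAt_const)).cexp'
  have anCC : AnalyticOnNhd ℂ (CC α) (ball 0 1) := fun z hz =>
    (((analyticAt_const.mul (analytic_xx α z hz)).sub analyticAt_const).neg).cexp'
  have algp : Alg (CC α) (pp α) := by
    have h2 : Alg (CC α) fun z => 1 + (-cexp (-(α * I))) * z :=
      (Alg.const 1).add ((Alg.const _).mul Alg.var)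
    have h3 : pp α = fun z => 1 + (-cexp (-(α * I))) * z := by
      funext z
      unfold pp
      ring
    rw [h3]
    exact h2
  have algm : Alg (CC α) (mm α) := by
    have h2 : Alg (CC α) fun z => 1 + (-cexp (α * I)) * z :=
      (Alg.const 1).add ((Alg.const _).mul Alg.var)
    have h3 : mm α = fun z => 1 + (-cexp (α * I)) * z := by
      funext z
      unfold mm
      ring
    rw [h3]
    exact h2
  refine { anB := anBB, maps := ?_, anC := anCC, bdC := ?_, gAlg := ?_, gCAlg := ?_, inv := ?_ }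
  · intro z hz
    rw [mem_ball_zero_iff] at hz ⊢
    rw [norm_BB, Real.exp_lt_one_iff]
    have := (sg_mem h0 h1 hz).1
    have := mul_pos Real.pi_pos this
    linarith
  · refine ⟨Real.exp π, fun z hz => ?_⟩
    rw [mem_ball_zero_iff] at hz
    rw [norm_CC, Real.exp_le_exp]
    have := (sg_mem h0 h1 hz).2
    nlinarith [Real.pi_pos]
  · exact ⟨_, (Alg.const _).mul ((algp.mul algm).mul Alg.gen), fun z _ => rfl⟩
  · refine ⟨_, (Alg.const (-1)).mul (Alg.gen.mul Alg.gen), fun z hz => ?_⟩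
    rw [mem_ball_zero_iff] at hz
    have hp := pp_ne (α := α) hz
    have hm := mm_ne (α := α) hz
    show gg α z * deriv (CC α) z = -1 * (CC α z * CC α z)
    rw [(hasDerivAt_CC hz).deriv]
    show (-(2 * Real.sin α : ℝ) : ℂ)⁻¹ * (pp α z * mm α z * CC α z) *
      (CC α z * -(I * (2 * I * Real.sin α / (pp α z * mm α z)))) = -1 * (CC α z * CC α z)
    push_cast
    field_simp
    linear_combination (CC α z ^ 2) * Complex.I_sq
  · intro z hz
    rw [mem_ball_zero_iff] at hz
    have hp := pp_ne (α := α) hz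
    have hm := mm_ne (α := α) hz
    rw [(hasDerivAt_BB hz).deriv]
    show (-(2 * Real.sin α : ℝ) : ℂ)⁻¹ * (pp α z * mm α z * CC α z) *
      (BB α z * (I * (2 * I * Real.sin α / (pp α z * mm α z)))) = 1
    have h2 := BB_mul_CC α z
    have h3 : (-(2 * Real.sin α : ℝ) : ℂ)⁻¹ * (pp α z * mm α z * CC α z) *
        (BB α z * (I * (2 * I * Real.sin α / (pp α z * mm α z)))) =
        (-(I * I)) * (CC α z * BB α z) := by
      push_cast
      field_simp
    rw [h3, h2, Complex.I_mul_I]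
    ring

end Pool.Agent.Helper53.QF
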