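import Mathlib

/-!
# The chain rule of order `l` in the form `(f^(l)) ∘ B = ∑ c_ν (f ∘ B)^(ν)` with bounded `c_ν`

`g = 1 / B'`; `c_(0,0) = 1`, `c_(j+1,ν) = g (c_(j,ν)' + c_(j,ν-1))`. If `g` lies in an algebra generated by `z` and a bounded
analytic function `C`, and `g C'` too, then all `c_(j,ν)` are bounded analytic functions in the disc.
-/

set_option autoImplicit false

open Filter Topology Metric Complex

namespace Pool.Agent.Helper53.QF

/-- The algebra generated by `z` and `C`. -/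
inductive Alg (C : ℂ → ℂ) : (ℂ → ℂ) → Prop
  | const (c : ℂ) : Alg C fun _ => c
  | var : Alg C fun z => z
  | gen : Alg C C
  | add {h k : ℂ → ℂ} : Alg C h → Alg C k → Alg C fun z => h z + k z
  | mul {h k : ℂ → ℂ} : Alg C h → Alg C k → Alg C fun z => h z * k z

/-- Equal on the disc to a member of the algebra. -/
def InAlg (C : ℂ → ℂ) (h : ℂ → ℂ) : Prop := ∃ k, Alg C k ∧ ∀ z ∈ ball (0 : ℂ) 1, h z = k z

theorem Alg.analytic {C h : ℂ → ℂ} (hC : AnalyticOnNhd ℂ C (ball 0 1)) (hh : Alg C h) :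
    AnalyticOnNhd ℂ h (ball 0 1) := by
  induction hh with
  | const c => exact analyticOnNhd_const
  | var => exact analyticOnNhd_id
  | gen => exact hC
  | add _ _ h1 h2 => exact h1.add h2
  | mul _ _ h1 h2 => exact h1.mul h2

theorem Alg.bounded {C h : ℂ → ℂ} (hC : ∃ M : ℝ, ∀ z ∈ ball (0 : ℂ) 1, ‖C z‖ ≤ M) (hh : Alg C h) :
    ∃ M : ℝ, ∀ z ∈ ball (0 : ℂ) 1, ‖h z‖ ≤ M := by
  induction hh with
  | const c => exact ⟨‖c‖, fun z _ => le_rfl⟩
  | var => exact ⟨1, fun z hz => (mem_ball_zero_iff.1 hz).le⟩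
  | gen => exact hC
  | add _ _ h1 h2 =>
    obtain ⟨M1, h1⟩ := h1
    obtain ⟨M2, h2⟩ := h2
    exact ⟨M1 + M2, fun z hz => (norm_add_le _ _).trans (add_le_add (h1 z hz) (h2 z hz))⟩
  | mul _ _ h1 h2 =>
    obtain ⟨M1, h1⟩ := h1
    obtain ⟨M2, h2⟩ := h2
    refine ⟨M1 * M2, fun z hz => ?_⟩
    rw [norm_mul]
    exact mul_le_mul (h1 z hz) (h2 z hz) (norm_nonneg _) ((norm_nonneg _).trans (h1 z hz))

theorem InAlg.congr {C h k : ℂ → ℂ} (hh : InAlg C h) (e : ∀ z ∈ ball (0 : ℂ) 1, k z = h z) :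
    InAlg C k := by
  obtain ⟨h', h1, h2⟩ := hh
  exact ⟨h', h1, fun z hz => (e z hz).trans (h2 z hz)⟩

theorem InAlg.add {C h k : ℂ → ℂ} (hh : InAlg C h) (hk : InAlg C k) :
    InAlg C fun z => h z + k z := by
  obtain ⟨h', h1, h2⟩ := hh
  obtain ⟨k', k1, k2⟩ := hk
  exact ⟨_, h1.add k1, fun z hz => by
    show h z + k z = h' z + k' z
    rw [h2 z hz, k2 z hz]⟩

theorem InAlg.mul {C h k : ℂ → ℂ} (hh : InAlg C h) (hk : InAlg C k) :
    InAlg C fun z => h z * k z := by
  obtain ⟨h', h1, h2⟩ := hh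
  obtain ⟨k', k1, k2⟩ := hk
  exact ⟨_, h1.mul k1, fun z hz => by
    show h z * k z = h' z * k' z
    rw [h2 z hz, k2 z hz]⟩

theorem InAlg.analytic {C h : ℂ → ℂ} (hC : AnalyticOnNhd ℂ C (ball 0 1)) (hh : InAlg C h) :
    AnalyticOnNhd ℂ h (ball 0 1) := by
  obtain ⟨h', h1, h2⟩ := hh
  exact (h1.analytic hC).congr isOpen_ball fun z hz => (h2 z hz).symm

theorem InAlg.bounded {C h : ℂ → ℂ} (hC : ∃ M : ℝ, ∀ z ∈ ball (0 : ℂ) 1, ‖C z‖ ≤ M)
    (hh : InAlg C h) : ∃ M : ℝ, ∀ z ∈ ball (0 : ℂ) 1, ‖h z‖ ≤ M := by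
  obtain ⟨h', h1, h2⟩ := hh
  obtain ⟨M, hM⟩ := h1.bounded hC
  exact ⟨M, fun z hz => by rw [h2 z hz]; exact hM z hz⟩

theorem deriv_congr_disc {h k : ℂ → ℂ} (e : ∀ z ∈ ball (0 : ℂ) 1, h z = k z) {z : ℂ}
    (hz : z ∈ ball (0 : ℂ) 1) : deriv h z = deriv k z := by
  refine Filter.EventuallyEq.deriv_eq ?_
  filter_upwards [isOpen_ball.mem_nhds hz] with w hw
  exact e w hw

/-- The algebra is closed under `g d/dz`. -/
theorem Alg.deriv {C g h : ℂ → ℂ} (hC : AnalyticOnNhd ℂ C (ball 0 1)) (hg : InAlg C g)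
    (hgC : InAlg C fun z => g z * _root_.deriv C z) (hh : Alg C h) :
    InAlg C fun z => g z * _root_.deriv h z := by
  induction hh with
  | const c => exact ⟨_, Alg.const 0, fun z _ => by simp⟩
  | var => exact hg.congr fun z _ => by simp
  | gen => exact hgC
  | @add h k hh hk h1 h2 =>
    refine (h1.add h2).congr fun z hz => ?_
    have e1 : DifferentiableAt ℂ h z := (hh.analytic hC z hz).differentiableAt
    have e2 : DifferentiableAt ℂ k z := (hk.analytic hC z hz).differentiableAt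
    show g z * _root_.deriv (fun z => h z + k z) z = _
    rw [deriv_fun_add e1 e2]
    ring
  | @mul h k hh hk h1 h2 =>
    refine ((h1.mul ⟨k, hk, fun z _ => rfl⟩).add (h2.mul ⟨h, hh, fun z _ => rfl⟩)).congr
      fun z hz => ?_
    have e1 : DifferentiableAt ℂ h z := (hh.analytic hC z hz).differentiableAt
    have e2 : DifferentiableAt ℂ k z := (hk.analytic hC z hz).differentiableAt
    show g z * _root_.deriv (fun z => h z * k z) z = _
    rw [deriv_fun_mul e1 e2]
    ring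

theorem InAlg.deriv {C g h : ℂ → ℂ} (hC : AnalyticOnNhd ℂ C (ball 0 1)) (hg : InAlg C g)
    (hgC : InAlg C fun z => g z * _root_.deriv C z) (hh : InAlg C h) :
    InAlg C fun z => g z * _root_.deriv h z := by
  obtain ⟨h', h1, h2⟩ := hh
  refine (h1.deriv hC hg hgC).congr fun z hz => ?_
  show g z * _root_.deriv h z = g z * _root_.deriv h' z
  rw [deriv_congr_disc h2 hz]

/-- The coefficients. -/
noncomputable def cf (g : ℂ → ℂ) : ℕ → ℕ → ℂ → ℂ
  | 0, 0 => fun _ => 1
  | 0, _ + 1 => fun _ => 0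
  | j + 1, 0 => fun z => g z * deriv (cf g j 0) z
  | j + 1, ν + 1 => fun z => g z * deriv (cf g j (ν + 1)) z + g z * cf g j ν z

theorem cf_inAlg {C g : ℂ → ℂ} (hC : AnalyticOnNhd ℂ C (ball 0 1)) (hg : InAlg C g)
    (hgC : InAlg C fun z => g z * deriv C z) : ∀ j ν : ℕ, InAlg C (cf g j ν)
  | 0, 0 => ⟨_, Alg.const 1, fun _ _ => rfl⟩
  | 0, _ + 1 => ⟨_, Alg.const 0, fun _ _ => rfl⟩
  | j + 1, 0 => InAlg.deriv hC hg hgC (cf_inAlg hC hg hgC j 0)
  | j + 1, ν + 1 => (InAlg.deriv hC hg hgC (cf_inAlg hC hg hgC j (ν + 1))).add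
      (hg.mul (cf_inAlg hC hg hgC j ν))

theorem cf_zero (g : ℂ → ℂ) : ∀ j ν : ℕ, j < ν → cf g j ν = fun _ => 0
  | 0, 0, h => absurd h (lt_irrefl 0)
  | 0, _ + 1, _ => rfl
  | j + 1, 0, h => absurd h (by omega)
  | j + 1, ν + 1, h => by
    show (fun z => g z * deriv (cf g j (ν + 1)) z + g z * cf g j ν z) = fun _ => 0
    rw [cf_zero g j (ν + 1) (by omega), cf_zero g j ν (by omega)]
    funext z
    simp

theorem cf_self (g : ℂ → ℂ) : ∀ (j : ℕ) (z : ℂ), cf g j j z = g z ^ j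
  | 0, z => by simp [cf]
  | j + 1, z => by
    show g z * deriv (cf g j (j + 1)) z + g z * cf g j j z = g z ^ (j + 1)
    rw [cf_zero g j (j + 1) (by omega), cf_self g j z, pow_succ]
    simp [mul_comm]

/-- **The chain rule.** -/
theorem chain {B g f : ℂ → ℂ} (hB : AnalyticOnNhd ℂ B (ball 0 1))
    (hmap : ∀ z ∈ ball (0 : ℂ) 1, B z ∈ ball (0 : ℂ) 1)
    (hgB : ∀ z ∈ ball (0 : ℂ) 1, g z * deriv B z = 1) (hf : AnalyticOnNhd ℂ f (ball 0 1))
    (hcf : ∀ j ν : ℕ, AnalyticOnNhd ℂ (cf g j ν) (ball 0 1)) :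
    ∀ (j : ℕ), ∀ z ∈ ball (0 : ℂ) 1, iteratedDeriv j f (B z) =
      ∑ ν ∈ Finset.range (j + 1), cf g j ν z * iteratedDeriv ν (fun w => f (B w)) z := by
  have hF : AnalyticOnNhd ℂ (fun w => f (B w)) (ball 0 1) := fun z hz =>
    (hf (B z) (hmap z hz)).fun_comp (hB z hz)
  have hFi : ∀ ν : ℕ, AnalyticOnNhd ℂ (iteratedDeriv ν fun w => f (B w)) (ball 0 1) := fun ν => by
    rw [iteratedDeriv_eq_iterate]
    exact hF.iterated_deriv ν
  have hfi : ∀ ν : ℕ, AnalyticOnNhd ℂ (iteratedDeriv ν f) (ball 0 1) := fun ν => by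
    rw [iteratedDeriv_eq_iterate]
    exact hf.iterated_deriv ν
  intro j
  induction j with
  | zero =>
    intro z hz
    simp [cf]
  | succ j ih =>
    intro z hz
    have h1 : deriv (fun w => iteratedDeriv j f (B w)) z =
        iteratedDeriv (j + 1) f (B z) * deriv B z := by
      have e1 : DifferentiableAt ℂ (iteratedDeriv j f) (B z) :=
        (hfi j (B z) (hmap z hz)).differentiableAt
      have e2 : DifferentiableAt ℂ B z := (hB z hz).differentiableAt
      have e3 := (e1.hasDerivAt.comp z e2.hasDerivAt).deriv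
      rw [iteratedDeriv_succ]
      exact e3
    have h2 : deriv (fun w => iteratedDeriv j f (B w)) z =
        ∑ ν ∈ Finset.range (j + 1), (deriv (cf g j ν) z * iteratedDeriv ν (fun w => f (B w)) z +
          cf g j ν z * iteratedDeriv (ν + 1) (fun w => f (B w)) z) := by
      rw [deriv_congr_disc (h := fun w => iteratedDeriv j f (B w))
        (k := fun w => ∑ ν ∈ Finset.range (j + 1), cf g j ν w *
          iteratedDeriv ν (fun w => f (B w)) w) ih hz]
      rw [deriv_fun_sum fun ν _ => ((hcf j ν z hz).differentiableAt).fun_mul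
        (hFi ν z hz).differentiableAt]
      refine Finset.sum_congr rfl fun ν _ => ?_
      rw [deriv_fun_mul (hcf j ν z hz).differentiableAt (hFi ν z hz).differentiableAt,
        iteratedDeriv_succ]
    have h3 : iteratedDeriv (j + 1) f (B z) = g z * deriv (fun w => iteratedDeriv j f (B w)) z := by
      rw [h1, mul_comm (g z), mul_assoc, mul_comm (deriv B z), hgB z hz, mul_one]
    rw [h3, h2, Finset.mul_sum]
    -- compare the two sums
    have h4 : ∑ ν ∈ Finset.range (j + 1 + 1),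
        cf g (j + 1) ν z * iteratedDeriv ν (fun w => f (B w)) z =
        ∑ ν ∈ Finset.range (j + 1 + 1), g z * deriv (cf g j ν) z *
            iteratedDeriv ν (fun w => f (B w)) z +
          ∑ ν ∈ Finset.range (j + 1), g z * cf g j ν z *
            iteratedDeriv (ν + 1) (fun w => f (B w)) z := by
      rw [Finset.sum_range_succ' (fun ν => cf g (j + 1) ν z * iteratedDeriv ν (fun w => f (B w)) z),
        Finset.sum_range_succ' (fun ν => g z * deriv (cf g j ν) z *
            iteratedDeriv ν (fun w => f (B w)) z)]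
      have e1 : ∀ ν ∈ Finset.range (j + 1),
          cf g (j + 1) (ν + 1) z * iteratedDeriv (ν + 1) (fun w => f (B w)) z =
          g z * deriv (cf g j (ν + 1)) z * iteratedDeriv (ν + 1) (fun w => f (B w)) z +
          g z * cf g j ν z * iteratedDeriv (ν + 1) (fun w => f (B w)) z := by
        intro ν _
        show (g z * deriv (cf g j (ν + 1)) z + g z * cf g j ν z) *
          iteratedDeriv (ν + 1) (fun w => f (B w)) z = _
        ring
      rw [Finset.sum_congr rfl e1, Finset.sum_add_distrib]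
      show _ + (g z * deriv (cf g j 0) z) * iteratedDeriv 0 (fun w => f (B w)) z = _
      ring
    rw [h4, Finset.sum_range_succ (fun ν => g z * deriv (cf g j ν) z *
            iteratedDeriv ν (fun w => f (B w)) z), cf_zero g j (j + 1) (by omega)]
    simp only [deriv_const, mul_zero, zero_mul, add_zero]
    rw [← Finset.sum_add_distrib]
    refine Finset.sum_congr rfl fun ν _ => ?_
    ring

end Pool.Agent.Helper53.QF
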