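import Pool.Agent.Helper53.QF.SeqData
import Pool.Agent.Helper61.Nev.Main3

/-!
# Linear differential polynomials with bounded coefficients, divided by a small function

`GData l f Ψ P c`: `∑_(ν ≤ l) c_ν f^(ν) = P Ψ` with bounded analytic `c_ν`, `c_l ≢ 0`, `f` zero-free, `Ψ` not constant and
omitting `1`, `T(r, P) = o(T(r, f))`, `T(r, f) → ∞`. Then `a_ν = c_ν / P` are admissible coefficients, `Ψ = ∑ a_ν f^(ν)`, so
`α(f) ≤ l + 1` and `¬ Holds l (α(f))`, if `α(f) < ∞`.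
-/

set_option autoImplicit false

open Filter Topology Metric Complex

namespace Pool.Agent.Helper53.QF

open Pool.Agent.Helper61.Nev

structure GData (l : ℕ) (f Ψ P : ℂ → ℂ) (c : ℕ → ℂ → ℂ) : Prop where
  anf : AnalyticOnNhd ℂ f (ball 0 1)
  anΨ : AnalyticOnNhd ℂ Ψ (ball 0 1)
  anP : AnalyticOnNhd ℂ P (ball 0 1)
  anc : ∀ ν ≤ l, AnalyticOnNhd ℂ (c ν) (ball 0 1)
  bdc : ∀ ν ≤ l, ∃ M : ℝ, ∀ z ∈ ball (0 : ℂ) 1, ‖c ν z‖ ≤ M
  c_ne : ∃ z ∈ ball (0 : ℂ) 1, c l z ≠ 0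
  f_ne : ∀ z ∈ ball (0 : ℂ) 1, f z ≠ 0
  Ψ_ne : ∀ z ∈ ball (0 : ℂ) 1, Ψ z ≠ 1
  eq : ∀ z ∈ ball (0 : ℂ) 1,
    ∑ ν ∈ Finset.range (l + 1), c ν z * iteratedDeriv ν f z = P z * Ψ z
  Ψ_nc : ∃ z ∈ ball (0 : ℂ) 1, ∃ w ∈ ball (0 : ℂ) 1, Ψ z ≠ Ψ w
  P_ne : ∃ z ∈ ball (0 : ℂ) 1, P z ≠ 0
  small : ∀ ε : ℝ, 0 < ε → ∀ K : ℝ, ∀ᶠ r : ℝ in 𝓝[<] 1, charT P r + K ≤ ε * charT f r
  alpha_lt : alpha f < ⊤

namespace GData

variable {l : ℕ} {f Ψ P : ℂ → ℂ} {c : ℕ → ℂ → ℂ}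

/-- the coefficients -/
noncomputable def a (c : ℕ → ℂ → ℂ) (P : ℂ → ℂ) : ℕ → ℂ → ℂ := fun ν => c ν * P⁻¹

theorem mero_a (D : GData l f Ψ P c) : ∀ ν ≤ l, MeromorphicOn (a c P ν) (ball 0 1) := fun ν hν =>
  (D.anc ν hν).meromorphicOn.mul D.anP.meromorphicOn.inv

/-- the coefficients are small -/
theorem small_a (D : GData l f Ψ P c) : ∀ ν ≤ l, charT (a c P ν) =o[𝓝[<] 1] charT f := by
  intro ν hν
  have hm : MeromorphicOn P (ball 0 1) := D.anP.meromorphicOn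
  have hc : MeromorphicOn (c ν) (ball 0 1) := (D.anc ν hν).meromorphicOn
  obtain ⟨M, hM⟩ := D.bdc ν hν
  obtain ⟨C, hC0, hC⟩ := first_main hm
  have hp : (0 : ℝ) ≤ pm P 0 := by exact_mod_cast pm_nonneg P 0
  have hpa : (0 : ℝ) ≤ pm (a c P ν) 0 := by exact_mod_cast pm_nonneg (a c P ν) 0
  have hpc : (0 : ℝ) ≤ pm (c ν) 0 := by exact_mod_cast pm_nonneg (c ν) 0
  have hl2 : 0 ≤ Real.log 2 := Real.log_nonneg (by norm_num)
  set K : ℝ := C + pm P 0 * Real.log 2 + (Real.posLog M + pm (c ν) 0 * Real.log 2) +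
    pm (a c P ν) 0 * Real.log 2 with hK
  rw [Asymptotics.isLittleO_iff]
  intro ε hε
  filter_upwards [D.small ε hε K, half_lt_eventually] with r hr hr2
  obtain ⟨h0, h1⟩ := hr2
  have h6 := Pool.Agent.Helper61.Lac.charT_nonneg D.anf h1
  have h2 : |charT (a c P ν) r| ≤ Ts (a c P ν) r + pm (a c P ν) 0 * Real.log 2 :=
    abs_charT_le (D.mero_a ν hν) h0 h1
  have h3 : Ts (a c P ν) r ≤ Ts (c ν) r + Ts P⁻¹ r := by
    have e1 := prox_mul_le hc hm.inv (by linarith : 0 < r) h1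
    have e2 := Ns_mul_le hc hm.inv (by linarith : 0 < r) h1
    unfold Ts a
    linarith
  have h4 := abs_le.1 (hC r h0 h1)
  have h5 := Ts_le_charT hm h0 h1
  have h7 := Ts_le_charT hc h0 h1
  have h8 := Pool.Agent.Helper61.Lac.charT_le_of_bound (D.anc ν hν) hM (by linarith) h1
  rw [Real.norm_eq_abs, Real.norm_eq_abs, abs_of_nonneg h6]
  linarith

theorem tendsto (D : GData l f Ψ P c) (K : ℝ) : ∀ᶠ r : ℝ in 𝓝[<] 1, K ≤ charT f r := by
  filter_upwards [D.small 1 one_pos K, Pool.Agent.Helper61.Lac.eventually_pos_lt_one] with r hr hr2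
  have := Pool.Agent.Helper61.Lac.charT_nonneg D.anP hr2.2
  linarith

theorem f_nc (D : GData l f Ψ P c) : ¬ ConstInDisc f := by
  intro h
  have hB : ∀ z ∈ ball (0 : ℂ) 1, ‖f z‖ ≤ ‖f 0‖ := fun z hz => by
    rw [eq_of_constInDisc D.anf h hz (mem_ball_self one_pos)]
  obtain ⟨r, hr, hr2⟩ := ((D.tendsto (Real.posLog ‖f 0‖ + 1)).and
    Pool.Agent.Helper61.Lac.eventually_pos_lt_one).exists
  have h3 := Pool.Agent.Helper61.Lac.charT_le_of_bound D.anf hB hr2.1.le hr2.2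
  linarith

theorem order_zero (g : ℂ → ℂ) (z : ℂ) (hg : AnalyticAt ℂ g z) (hgz : g z ≠ 0) :
    meromorphicOrderAt g z = 0 := by
  rw [hg.meromorphicOrderAt_eq, hg.analyticOrderAt_eq_zero.2 hgz]
  simp

theorem admissible (D : GData l f Ψ P c) : Admissible f := by
  refine ⟨D.anf.meromorphicOn, D.f_nc, D.alpha_lt, ?_, ?_⟩
  · convert Set.finite_empty
    ext z
    simp only [Set.mem_ofPred_eq, Set.mem_empty_iff_false, iff_false, not_and, not_lt]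
    intro hz
    rw [order_zero _ z (D.anf z hz) (D.f_ne z hz)]
  · convert Set.finite_empty
    ext z
    simp only [Set.mem_ofPred_eq, Set.mem_empty_iff_false, iff_false, not_and, not_lt]
    intro hz
    rw [order_zero _ z (D.anf z hz) (D.f_ne z hz)]

theorem ne_zero_near {Q : ℂ → ℂ} (anQ : AnalyticOnNhd ℂ Q (ball 0 1))
    (hQ : ∃ z ∈ ball (0 : ℂ) 1, Q z ≠ 0) {z : ℂ} (hz : z ∈ ball (0 : ℂ) 1) :
    ∀ᶠ w in 𝓝[≠] z, Q w ≠ 0 := by
  rcases (anQ z hz).eventually_eq_zero_or_eventually_ne_zero with h | h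
  · exfalso
    have h1 := anQ.eqOn_zero_of_preconnected_of_eventuallyEq_zero
      (convex_ball (0 : ℂ) 1).isPreconnected hz h
    obtain ⟨y, hy, hPy⟩ := hQ
    exact hPy (h1 hy)
  · exact h

theorem near (D : GData l f Ψ P c) {z : ℂ} (hz : z ∈ ball (0 : ℂ) 1) :
    ∀ᶠ w in 𝓝[≠] z, diffPoly l (a c P) f w = Ψ w := by
  have h1 : ∀ᶠ w in 𝓝[≠] z, w ∈ ball (0 : ℂ) 1 :=
    mem_nhdsWithin_of_mem_nhds (isOpen_ball.mem_nhds hz)
  filter_upwards [ne_zero_near D.anP D.P_ne hz, h1] with w hP hw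
  have h2 := D.eq w hw
  have h3 : diffPoly l (a c P) f w =
      (P w)⁻¹ * ∑ ν ∈ Finset.range (l + 1), c ν w * iteratedDeriv ν f w := by
    unfold diffPoly a
    rw [Finset.mul_sum]
    refine Finset.sum_congr rfl fun ν _ => ?_
    rw [Pi.mul_apply, Pi.inv_apply]
    ring
  rw [h3, h2, inv_mul_cancel_left₀ hP]

theorem coeffs (D : GData l f Ψ P c) : AdmissibleCoeffs l f (a c P) := by
  refine ⟨D.mero_a, D.small_a, ?_⟩
  intro h
  obtain ⟨z, hz, hcz⟩ := D.c_ne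
  -- near `z`, both `c l` and `P` do not vanish on a punctured neighbourhood
  have hc : ∀ᶠ w in 𝓝[≠] z, c l w ≠ 0 := by
    have := ((D.anc l le_rfl) z hz).continuousAt.eventually_ne hcz
    exact this.filter_mono nhdsWithin_le_nhds
  have hP := ne_zero_near D.anP D.P_ne hz
  have h2 : {w | a c P l w = (fun _ => (0 : ℂ)) w} ∈ codiscreteWithin (ball (0 : ℂ) 1) := h
  rw [mem_codiscreteWithin_iff_forall_mem_nhdsNE] at h2
  have h3 : ∀ᶠ w in 𝓝[≠] z, a c P l w = 0 ∨ w ∉ ball (0 : ℂ) 1 := h2 z hz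
  have h4 : ∀ᶠ w in 𝓝[≠] z, w ∈ ball (0 : ℂ) 1 :=
    mem_nhdsWithin_of_mem_nhds (isOpen_ball.mem_nhds hz)
  obtain ⟨w, hw1, hw2, hw3, hw4⟩ := (hc.and (hP.and (h3.and h4))).exists
  rcases hw3 with hw3 | hw3
  · unfold a at hw3
    rw [Pi.mul_apply, Pi.inv_apply] at hw3
    exact (mul_ne_zero hw1 (inv_ne_zero hw2)) hw3
  · exact hw3 hw4

theorem nonconst (D : GData l f Ψ P c) : ¬ ConstInDisc (diffPoly l (a c P) f) := by
  rintro ⟨b, hb⟩
  have hco2 : (fun w => diffPoly l (a c P) f w) =ᶠ[codiscreteWithin (ball (0 : ℂ) 1)] Ψ := by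
    change {w | diffPoly l (a c P) f w = Ψ w} ∈ codiscreteWithin (ball (0 : ℂ) 1)
    rw [mem_codiscreteWithin_iff_forall_mem_nhdsNE]
    intro z hz
    filter_upwards [D.near hz] with w hw
    exact Or.inl hw
  have h1 : ConstInDisc Ψ := ⟨b, by
    filter_upwards [hb, hco2] with w hw1 hw2
    rw [← hw1]
    exact hw2.symm⟩
  obtain ⟨z, hz, w, hw, hne⟩ := D.Ψ_nc
  exact hne (eq_of_constInDisc D.anΨ h1 hz hw)

theorem omits (D : GData l f Ψ P c) : {z : ℂ | z ∈ ball (0 : ℂ) 1 ∧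
    0 < meromorphicOrderAt (fun ζ => diffPoly l (a c P) f ζ - 1) z}.Finite := by
  convert Set.finite_empty
  ext z
  simp only [Set.mem_ofPred_eq, Set.mem_empty_iff_false, iff_false, not_and, not_lt]
  intro hz
  have h1 : (fun ζ => diffPoly l (a c P) f ζ - 1) =ᶠ[𝓝[≠] z] fun ζ => Ψ ζ - 1 := by
    filter_upwards [D.near hz] with w hw
    rw [hw]
  rw [meromorphicOrderAt_congr h1]
  exact (order_zero (fun ζ => Ψ ζ - 1) z ((D.anΨ z hz).fun_sub analyticAt_const)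
    (sub_ne_zero.2 (D.Ψ_ne z hz))).le

/-- The threshold theorem for such `f`. -/
theorem alpha_le (D : GData l f Ψ P c) : alpha f ≤ ((l + 1 : ℝ) : EReal) :=
  alpha_le_of_finite D.admissible D.coeffs D.nonconst one_ne_zero D.omits

/-- Property (V) fails. -/
theorem not_holds (D : GData l f Ψ P c) : ¬ Holds l (alpha f) := fun H =>
  (H f D.admissible rfl (a c P) D.coeffs D.nonconst 1 one_ne_zero) D.omits

end GData

end Pool.Agent.Helper53.QF
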