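import Pool.Agent.Helper53.QF.RedMob

/-!
# The least harmonic majorant is `(l + 1 + o(1)) log 1/(1-ρ)` on compact sets
-/

set_option autoImplicit false

open Filter Topology Metric Complex Polynomial

namespace Pool.Agent.Helper53.QF

open Pool.Agent.Helper61.Nev

variable {l : ℕ} {f Ψ P : ℂ → ℂ}

/-- Upper bound, uniform on compact sets. -/
theorem Asym.maj_le (A : Asym l f Ψ P) {s : ℝ} (hs : s < 1) {ε : ℝ} (hε : 0 < ε) :
    ∀ᶠ ρ : ℝ in 𝓝[<] 1, ∀ (η : ℝ) (q : Polynomial ℂ), η ≤ 1 → Maj f ρ η q →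
      ∀ ζ ∈ closedBall (0 : ℂ) s, (q.eval ζ).re ≤ (l + 1 + ε) * Lr ρ := by
  have hl : (0 : ℝ) ≤ l := Nat.cast_nonneg l
  set R : ℝ := (1 - s) / 2 with hR
  have hR0 : 0 < R := by linarith
  set ε₁ : ℝ := min 1 (ε / (l + 3)) with hε₁
  have hε₁0 : 0 < ε₁ := lt_min one_pos (by positivity)
  have hε₁1 : ε₁ ≤ 1 := min_le_left _ _
  have hε₁2 : ε₁ * (l + 3) ≤ ε := by
    have := min_le_right (1 : ℝ) (ε / (l + 3))
    rwa [le_div_iff₀ (by positivity)] at this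
  have hkey : (1 + ε₁) * (l + 1 + ε₁) ≤ l + 1 + ε := by nlinarith
  set δ : ℝ := R * (ε₁ / 4) with hδ
  have hδ0 : 0 < δ := by positivity
  have hδR : δ < R := by nlinarith
  obtain ⟨t, ht1, ht2, ht3⟩ := (isCompact_closedBall (0 : ℂ) s).finite_cover_balls hδ0
  have h1 : ∀ᶠ ρ : ℝ in 𝓝[<] 1, ∀ x ∈ t, ∀ (η : ℝ) (q : Polynomial ℂ), η ≤ 1 → Maj f ρ η q →
      (q.eval x).re ≤ (l + 1 + ε₁) * Lr ρ := by
    rw [Filter.eventually_all_finite ht2]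
    intro x hx
    refine A.maj_le_point ?_ hε₁0
    exact lt_of_le_of_lt (mem_closedBall_zero_iff.1 (ht1 hx)) hs
  filter_upwards [h1, gt_eventually (s := (1 + s) / 2) (by linarith), lt_one_eventually,
    tendsto_Lr.eventually_ge_atTop 0] with ρ h1 h2 h3 h4 η q hη hq ζ hζ
  obtain ⟨x, hx, hxζ⟩ := Set.mem_iUnion₂.1 (ht3 hζ)
  have h5 := h1 x hx η q hη hq
  have hsub : closedBall x R ⊆ closedBall (0 : ℂ) ρ := by
    intro w hw
    rw [mem_closedBall_zero_iff]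
    rw [mem_closedBall, dist_eq_norm] at hw
    have hx1 := mem_closedBall_zero_iff.1 (ht1 hx)
    have : ‖w‖ ≤ ‖w - x‖ + ‖x‖ := by
      have := norm_add_le (w - x) x
      rwa [sub_add_cancel] at this
    linarith
  have hpos : ∀ w ∈ closedBall x R, 0 ≤ (q.eval w).re := fun w hw =>
    Real.posLog_nonneg.trans (hq.ge w (hsub hw))
  have hζx : ‖ζ - x‖ < δ := by
    rw [← dist_eq_norm]
    exact hxζ
  have h6 := (harnack hR0 (analytic_poly q _) hpos (w := ζ) (by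
    rw [mem_ball, dist_eq_norm]
    linarith)).2
  have h7 : (R + ‖ζ - x‖) / (R - ‖ζ - x‖) ≤ 1 + ε₁ := by
    rw [div_le_iff₀ (by linarith)]
    have h8 : ‖ζ - x‖ * (2 + ε₁) ≤ δ * (2 + ε₁) :=
      mul_le_mul_of_nonneg_right hζx.le (by positivity)
    have h9 : δ * (2 + ε₁) ≤ R * ε₁ := by
      rw [hδ]
      have : R * (ε₁ / 4) * (2 + ε₁) = R * ε₁ * ((2 + ε₁) / 4) := by ring
      rw [this]
      have h10 : (2 + ε₁) / 4 ≤ 1 := by linarith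
      nlinarith [mul_pos hR0 hε₁0]
    nlinarith
  have h8 : 0 ≤ (q.eval x).re := hpos x (mem_closedBall_self hR0.le)
  calc (q.eval ζ).re ≤ (R + ‖ζ - x‖) / (R - ‖ζ - x‖) * (q.eval x).re := h6
    _ ≤ (1 + ε₁) * ((l + 1 + ε₁) * Lr ρ) :=
        mul_le_mul h7 h5 h8 (by positivity)
    _ = (1 + ε₁) * (l + 1 + ε₁) * Lr ρ := by ring
    _ ≤ (l + 1 + ε) * Lr ρ := mul_le_mul_of_nonneg_right hkey h4

/-- Lower bound, uniform on compact sets. -/
theorem Asym.le_maj (A : Asym l f Ψ P) {s : ℝ} (hs0 : 0 ≤ s) (hs : s < 1) {ε : ℝ} (hε : 0 < ε) :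
    ∀ᶠ ρ : ℝ in 𝓝[<] 1, ∀ (η : ℝ) (q : Polynomial ℂ), η ≤ 1 → Maj f ρ η q →
      ∀ ζ ∈ closedBall (0 : ℂ) s, (l + 1 - ε) * Lr ρ ≤ (q.eval ζ).re := by
  set s' : ℝ := (1 + s) / 2 with hs'
  have hs'1 : s' < 1 := by linarith
  have hs'0 : 0 < s' := by linarith
  set ε₁ : ℝ := ε * (1 - s) / 16 with hε₁
  have hε₁0 : 0 < ε₁ := div_pos (mul_pos hε (by linarith)) (by norm_num)
  filter_upwards [A.maj_le hs'1 hε₁0, A.low ε₁ hε₁0, gt_eventually hs'1, lt_one_eventually,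
    tendsto_Lr.eventually_ge_atTop 0] with ρ h1 h2 h3 h4 h5 η q hη hq ζ hζ
  have hζs : ‖ζ‖ ≤ s := mem_closedBall_zero_iff.1 hζ
  have hu := h1 η q hη hq
  have h0 : (l + 1 - ε₁) * Lr ρ ≤ (q.eval 0).re := h2.trans hq.zero_ge
  have han : AnalyticOnNhd ℂ (fun w => (((l + 1 + ε₁) * Lr ρ : ℝ) : ℂ) - q.eval w)
      (closedBall 0 s') := analyticOnNhd_const.sub (analytic_poly q _)
  have h6 := (harnack (w := ζ) hs'0 han (fun w hw => by
    rw [Complex.sub_re, Complex.ofReal_re]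
    linarith [hu w hw]) (by
    rw [mem_ball_zero_iff]
    linarith)).2
  rw [sub_zero] at h6
  simp only [Complex.sub_re, Complex.ofReal_re] at h6
  have h7 : (s' + ‖ζ‖) / (s' - ‖ζ‖) ≤ 4 / (1 - s) := by
    rw [div_le_div_iff₀ (by linarith) (by linarith)]
    nlinarith [norm_nonneg ζ]
  have h8 : (l + 1 + ε₁) * Lr ρ - (q.eval 0).re ≤ 2 * ε₁ * Lr ρ := by linarith
  have h9 : 0 ≤ (l + 1 + ε₁) * Lr ρ - (q.eval 0).re := by
    have := hu 0 (by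
      rw [mem_closedBall_zero_iff, norm_zero]
      exact hs'0.le)
    linarith
  have h10 : (s' + ‖ζ‖) / (s' - ‖ζ‖) * ((l + 1 + ε₁) * Lr ρ - (q.eval 0).re) ≤
      4 / (1 - s) * (2 * ε₁ * Lr ρ) :=
    mul_le_mul h7 h8 h9 (div_nonneg (by norm_num) (by linarith))
  have h11 : 4 / (1 - s) * (2 * ε₁ * Lr ρ) = ε / 2 * Lr ρ := by
    rw [hε₁]
    have : (1 : ℝ) - s ≠ 0 := by linarith
    field_simp
    ring
  have h12 : ε₁ ≤ ε / 16 := by
    rw [hε₁]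
    nlinarith
  nlinarith

end Pool.Agent.Helper53.QF
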