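import Pool.Agent.Helper53.QF.RedUp

/-!
# Lower bound for `T(r, f ∘ B)`

`v = log⁺ |f| ≤ C (1 + L)^m`, `Re q` its least harmonic majorant on `|w| ≤ ρ`, `1 - ρ = (1 - r)^κ`, `κ < 1`. The harmonic function
`h = Re q(B) - (l+1+ε) L(ρ) σ - η L(ρ) Re E` is at most the least harmonic majorant of `v ∘ B` on `|z| < r`, by the maximum
principle on `{|z| < r, |B z| < ρ}`.
-/

set_option autoImplicit false

open Filter Topology Metric Complex Polynomial
open scoped Real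

namespace Pool.Agent.Helper53.QF

open Pool.Agent.Helper61.Nev

variable {l : ℕ} {f Ψ P : ℂ → ℂ} {α : ℝ}

/-- `x - i (π/2 - α)`, in the strip `|Im| < π/2` -/
noncomputable def yy (α : ℝ) : ℂ → ℂ := fun z => xx α z - ((π / 2 - α : ℝ) : ℂ) * I

/-- `2 cosh (y/2)` -/
noncomputable def EE (α : ℝ) : ℂ → ℂ := fun z => cexp (yy α z / 2) + cexp (-(yy α z / 2))

theorem analytic_EE (α : ℝ) : AnalyticOnNhd ℂ (EE α) (ball 0 1) := by
  intro z hz
  have h1 : AnalyticAt ℂ (yy α) z := (analytic_xx α z hz).sub analyticAt_const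
  have h2 : AnalyticAt ℂ (fun z => yy α z * (2 : ℂ)⁻¹) z := h1.mul analyticAt_const
  have h3 : EE α = fun z => cexp (yy α z * (2 : ℂ)⁻¹) + cexp (-(yy α z * (2 : ℂ)⁻¹)) := by
    funext w
    unfold EE
    rw [div_eq_mul_inv]
  rw [h3]
  exact h2.cexp'.add h2.neg.cexp'

theorem yy_im (α : ℝ) (z : ℂ) : (yy α z).im = π * sg α z - π / 2 := by
  unfold yy sg
  rw [mul_div_cancel₀ _ Real.pi_ne_zero]
  simp
  ring

theorem yy_re (α : ℝ) (z : ℂ) : (yy α z).re = (xx α z).re := by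
  unfold yy
  simp

theorem EE_re (α : ℝ) (z : ℂ) : (EE α z).re =
    (Real.exp ((xx α z).re / 2) + Real.exp (-((xx α z).re / 2))) *
      Real.cos ((π * sg α z - π / 2) / 2) := by
  unfold EE
  rw [Complex.add_re, Complex.exp_re, Complex.exp_re]
  have h1 : (yy α z / 2).re = (xx α z).re / 2 := by
    have : yy α z / 2 = ((1 / 2 : ℝ) : ℂ) * yy α z := by push_cast; ring
    rw [this, Complex.re_ofReal_mul, yy_re]
    ring
  have h2 : (yy α z / 2).im = (π * sg α z - π / 2) / 2 := by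
    have : yy α z / 2 = ((1 / 2 : ℝ) : ℂ) * yy α z := by push_cast; ring
    rw [this, Complex.im_ofReal_mul, yy_im]
    ring
  rw [Complex.neg_re, Complex.neg_im, h1, h2, Real.cos_neg]
  ring

theorem cos_ge (h0 : 0 < α) (h1 : α < π) {z : ℂ} (hz : ‖z‖ < 1) :
    1 / 2 ≤ Real.cos ((π * sg α z - π / 2) / 2) := by
  have h2 := sg_mem h0 h1 hz
  have hpi := Real.pi_pos
  have h3 : |(π * sg α z - π / 2) / 2| ≤ π / 3 := by
    rw [abs_le]
    constructor
    · nlinarith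
    · nlinarith
  rw [← Real.cos_abs, ← Real.cos_pi_div_three]
  exact Real.cos_le_cos_of_nonneg_of_le_pi (abs_nonneg _) (by linarith) h3

theorem EE_nonneg (h0 : 0 < α) (h1 : α < π) {z : ℂ} (hz : ‖z‖ < 1) : 0 ≤ (EE α z).re := by
  rw [EE_re]
  have := cos_ge h0 h1 hz
  positivity

theorem EE_zero_le (α : ℝ) : (EE α 0).re ≤ 2 := by
  rw [EE_re, xx_zero]
  simp only [Complex.zero_re, zero_div, neg_zero, Real.exp_zero]
  have := Real.cos_le_one ((π * sg α 0 - π / 2) / 2)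
  linarith

/-- `Re E ≥ (1/2) √(sin α sin (πσ) / (1 - |z|²))` -/
theorem EE_ge (h0 : 0 < α) (h1 : α < π) {z : ℂ} (hz : ‖z‖ < 1) {Q : ℝ}
    (hQ : Q * (1 - ‖z‖ ^ 2) ≤ Real.sin α * Real.sin (π * sg α z)) :
    1 / 2 * √Q ≤ (EE α z).re := by
  have hs : 0 < Real.sin α := Real.sin_pos_of_pos_of_lt_pi h0 h1
  have hp := pp_ne (α := α) hz
  have hm := mm_ne (α := α) hz
  have hu : 0 < ‖pp α z‖ := norm_pos_iff.2 hp
  have hw : 0 < ‖mm α z‖ := norm_pos_iff.2 hm
  have ht : 0 < 1 - ‖z‖ ^ 2 := by nlinarith [norm_nonneg z]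
  have hpi : π * sg α z = (xx α z).im + α := by
    unfold sg
    rw [mul_div_cancel₀ _ Real.pi_ne_zero]
  have him := im_mem h0 h1 hz
  have hsin : 0 < Real.sin ((xx α z).im + α) := Real.sin_pos_of_pos_of_lt_pi him.1 him.2
  have hkey := sin_sg (α := α) hz
  rw [hpi] at hQ
  have hre : Real.exp (xx α z).re = ‖pp α z‖ / ‖mm α z‖ := by
    rw [← Complex.norm_exp, exp_xx hz, norm_div]
  have hre' : Real.exp (-(xx α z).re) = ‖mm α z‖ / ‖pp α z‖ := by
    rw [Real.exp_neg, hre, inv_div]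
  -- `|p| + |m| ≥ 2 sin α`
  have hsum : 2 * Real.sin α ≤ ‖pp α z‖ + ‖mm α z‖ := by
    have e1 : cexp (α * I) * pp α z - cexp (-(α * I)) * mm α z = 2 * I * Real.sin α := by
      rw [← e_sub]
      unfold pp mm
      ring
    have e2 : ‖(2 * I * Real.sin α : ℂ)‖ = 2 * Real.sin α := by
      rw [norm_mul, norm_mul, Complex.norm_I, Complex.norm_real, Real.norm_eq_abs, abs_of_pos hs]
      norm_num
    rw [← e2, ← e1]
    refine (norm_sub_le _ _).trans (le_of_eq ?_)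
    rw [norm_mul, norm_mul, norm_e, norm_e', one_mul, one_mul]
  have hcos := cos_ge h0 h1 hz
  rw [EE_re]
  have hx1 : Real.exp ((xx α z).re / 2) = √(‖pp α z‖ / ‖mm α z‖) := by
    rw [Real.exp_half, hre]
  have hx2 : Real.exp (-((xx α z).re / 2)) = √(‖mm α z‖ / ‖pp α z‖) := by
    have : -((xx α z).re / 2) = (-(xx α z).re) / 2 := by ring
    rw [this, Real.exp_half, hre']
  rw [hx1, hx2]
  have hsum2 : √Q ≤ √(‖pp α z‖ / ‖mm α z‖) + √(‖mm α z‖ / ‖pp α z‖) := by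
    rcases le_or_gt (Real.sin α) ‖pp α z‖ with h2 | h2
    · have h3 : Q ≤ ‖pp α z‖ / ‖mm α z‖ := by
        rw [le_div_iff₀ hw]
        have h4 : Q * ‖mm α z‖ * (1 - ‖z‖ ^ 2) ≤ ‖pp α z‖ * (1 - ‖z‖ ^ 2) := by
          have h5 : Q * (1 - ‖z‖ ^ 2) * ‖mm α z‖ ≤
              Real.sin α * Real.sin ((xx α z).im + α) * ‖mm α z‖ :=
            mul_le_mul_of_nonneg_right hQ hw.le
          have h6 : Real.sin α * Real.sin ((xx α z).im + α) * ‖mm α z‖ ≤
              ‖pp α z‖ * (1 - ‖z‖ ^ 2) := by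
            -- sin α * s * w ≤ u t, from s u w = sin α t and sin α ≤ u
            have h7 : Real.sin ((xx α z).im + α) * ‖mm α z‖ =
                Real.sin α * (1 - ‖z‖ ^ 2) / ‖pp α z‖ := by
              rw [eq_div_iff hu.ne', ← hkey]
              ring
            rw [mul_assoc, h7, mul_div_assoc', div_le_iff₀ hu]
            nlinarith [mul_pos hs ht, mul_nonneg ht.le (sub_nonneg.2 h2)]
          linarith
        exact le_of_mul_le_mul_right h4 ht
      have := Real.sqrt_le_sqrt h3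
      linarith [Real.sqrt_nonneg (‖mm α z‖ / ‖pp α z‖)]
    · have h2' : Real.sin α ≤ ‖mm α z‖ := by linarith
      have h3 : Q ≤ ‖mm α z‖ / ‖pp α z‖ := by
        rw [le_div_iff₀ hu]
        have h4 : Q * ‖pp α z‖ * (1 - ‖z‖ ^ 2) ≤ ‖mm α z‖ * (1 - ‖z‖ ^ 2) := by
          have h5 : Q * (1 - ‖z‖ ^ 2) * ‖pp α z‖ ≤
              Real.sin α * Real.sin ((xx α z).im + α) * ‖pp α z‖ :=
            mul_le_mul_of_nonneg_right hQ hu.le
          have h6 : Real.sin α * Real.sin ((xx α z).im + α) * ‖pp α z‖ ≤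
              ‖mm α z‖ * (1 - ‖z‖ ^ 2) := by
            have h7 : Real.sin ((xx α z).im + α) * ‖pp α z‖ =
                Real.sin α * (1 - ‖z‖ ^ 2) / ‖mm α z‖ := by
              rw [eq_div_iff hw.ne', ← hkey]
              ring
            rw [mul_assoc, h7, mul_div_assoc', div_le_iff₀ hw]
            nlinarith [mul_pos hs ht, mul_nonneg ht.le (sub_nonneg.2 h2')]
          linarith
        exact le_of_mul_le_mul_right h4 ht
      have := Real.sqrt_le_sqrt h3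
      linarith [Real.sqrt_nonneg (‖pp α z‖ / ‖mm α z‖)]
  have h8 : 0 ≤ √(‖pp α z‖ / ‖mm α z‖) + √(‖mm α z‖ / ‖pp α z‖) := by positivity
  nlinarith [Real.sqrt_nonneg Q]

/-- `sin (πσ) ≥ 2 min(σ, 1-σ)` -/
theorem sin_ge {σ β : ℝ} (h0 : 0 ≤ σ) (h1 : σ ≤ 1) (hβ1 : β ≤ 2 * σ) (hβ2 : β ≤ 2 * (1 - σ)) :
    β ≤ Real.sin (π * σ) := by
  have hpi := Real.pi_pos
  rcases le_or_gt σ (1 / 2) with h | h
  · have h2 := Real.mul_le_sin (x := π * σ) (by positivity) (by nlinarith)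
    have h3 : 2 / π * (π * σ) = 2 * σ := by field_simp
    linarith
  · have h2 := Real.mul_le_sin (x := π * (1 - σ)) (by nlinarith) (by nlinarith)
    have h3 : 2 / π * (π * (1 - σ)) = 2 * (1 - σ) := by field_simp
    have h4 : Real.sin (π * (1 - σ)) = Real.sin (π * σ) := by
      rw [← Real.sin_pi_sub]
      congr 1
      ring
    linarith

/-- the frontier of `{|z| < r, |B z| < ρ}` -/
theorem frontier_aux {B : ℂ → ℂ} (hB : ContinuousOn B (ball 0 1)) {r ρ : ℝ} (hr0 : 0 < r)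
    (hr1 : r < 1) {z : ℂ} (hz : z ∈ frontier (ball (0 : ℂ) r ∩ B ⁻¹' ball 0 ρ)) :
    ‖z‖ ≤ r ∧ ‖B z‖ ≤ ρ ∧ (‖z‖ = r ∨ ‖B z‖ = ρ) := by
  have h1 : z ∈ closure (ball (0 : ℂ) r ∩ B ⁻¹' ball 0 ρ) := frontier_subset_closure hz
  have h2 : ‖z‖ ≤ r := by
    have := closure_mono Set.inter_subset_left h1
    rw [closure_ball _ hr0.ne', mem_closedBall_zero_iff] at this
    exact this
  have hzD : z ∈ ball (0 : ℂ) 1 := by
    rw [mem_ball_zero_iff]
    linarith
  have hcont : ContinuousAt B z := hB.continuousAt (isOpen_ball.mem_nhds hzD)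
  have h3 : ‖B z‖ ≤ ρ := by
    rw [mem_closure_iff_frequently] at h1
    by_contra hcon
    rw [not_le] at hcon
    have h4 : ∀ᶠ w in 𝓝 z, ρ < ‖B w‖ := hcont.norm.eventually (lt_mem_nhds hcon)
    obtain ⟨w, hw1, hw2⟩ := (h1.and_eventually h4).exists
    have h5 : B w ∈ ball (0 : ℂ) ρ := hw1.2
    rw [mem_ball_zero_iff] at h5
    linarith
  refine ⟨h2, h3, ?_⟩
  by_contra hcon
  push Not at hcon
  have h4 : ‖z‖ < r := lt_of_le_of_ne h2 hcon.1
  have h5 : ‖B z‖ < ρ := lt_of_le_of_ne h3 hcon.2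
  have h6 : (ball (0 : ℂ) r ∩ B ⁻¹' ball 0 ρ) ∈ 𝓝 z := by
    refine Filter.inter_mem (isOpen_ball.mem_nhds ?_) (hcont.preimage_mem_nhds ?_)
    · rwa [mem_ball_zero_iff]
    · refine isOpen_ball.mem_nhds ?_
      rwa [mem_ball_zero_iff]
  rw [← mem_interior_iff_mem_nhds] at h6
  rw [frontier, Set.mem_sdiff] at hz
  exact hz.2 h6

end Pool.Agent.Helper53.QF
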