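import Pool.Agent.Helper53.QF.RedLow

/-!
# Lower bound for `T(r, f ∘ B)`, continued
-/

set_option autoImplicit false

open Filter Topology Metric Complex Polynomial
open scoped Real

namespace Pool.Agent.Helper53.QF

open Pool.Agent.Helper61.Nev

variable {l : ℕ} {f Ψ P : ℂ → ℂ} {α : ℝ}

/-- One radius. `Λ` is an upper bound for the majorant on the compact disc, `Λ' δ'`-room, `V` bounds `v + η` on
`|w| ≤ ρ`. -/
theorem low_step (h0 : 0 < α) (h1 : α < π) (hf : AnalyticOnNhd ℂ f (ball 0 1)) {r ρ : ℝ}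
    (hr0 : 0 < r) (hr1 : r < 1) (hBρ : ‖BB α 0‖ < ρ) {q : Polynomial ℂ}
    (hq : Maj f ρ 1 q) {Λ Λ' V δ W : ℝ} (hδ1 : δ ≤ 1 / 2) (hρδ : 1 - ρ ≤ 4 * δ)
    (hΛ : ∀ w ∈ closedBall (0 : ℂ) (Real.exp (-(π / 2))), (q.eval w).re ≤ Λ)
    (hΛ' : Λ ≤ Λ' * (1 - δ)) (hΛ'0 : 0 ≤ Λ')
    (hV : ∀ w ∈ closedBall (0 : ℂ) ρ, (q.eval w).re ≤ V) (hW0 : 0 ≤ W)
    (hW : V ≤ W * (1 / 2 * √(Real.sin α * ((1 - ρ) / 2) / (1 - r ^ 2)))) :
    (q.eval (BB α 0)).re - Λ' * (α / π) - 2 * W - 2 ≤ charT (fun z => f (BB α z)) r := by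
  have hpi := Real.pi_pos
  have hs : 0 < Real.sin α := Real.sin_pos_of_pos_of_lt_pi h0 h1
  have M := selfMap_BB h0 h1
  have han : AnalyticOnNhd ℂ (fun z => f (BB α z)) (ball 0 1) := M.an_comp hf
  have hρ0 : 0 < ρ := lt_of_le_of_lt (norm_nonneg _) hBρ
  obtain ⟨k, hk⟩ := exists_maj han hr0 hr1 one_pos
  set U : Set ℂ := ball (0 : ℂ) r ∩ BB α ⁻¹' ball 0 ρ with hU
  have hUb : Bornology.IsBounded U := isBounded_ball.subset Set.inter_subset_left
  have hUc : closure U ⊆ ball (0 : ℂ) 1 := by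
    refine (closure_mono Set.inter_subset_left).trans ?_
    rw [closure_ball _ hr0.ne']
    exact closedBall_subset_ball hr1
  -- the analytic function with real part `h`
  have hqB : AnalyticOnNhd ℂ (fun z => q.eval (BB α z)) (ball 0 1) := fun z hz =>
    (analytic_poly q Set.univ _ (Set.mem_univ _)).fun_comp (M.anB z hz)
  set hh : ℂ → ℂ := fun z => q.eval (BB α z) - (Λ' : ℂ) * SS α z - (W : ℂ) * EE α z with hhh
  have hhan : AnalyticOnNhd ℂ hh (ball 0 1) := fun z hz =>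
    ((hqB z hz).sub (analyticAt_const.mul (analytic_SS α z hz))).sub
      (analyticAt_const.mul (analytic_EE α z hz))
  have hhre : ∀ z, (hh z).re = (q.eval (BB α z)).re - Λ' * sg α z - W * (EE α z).re := by
    intro z
    rw [hhh]
    simp only [Complex.sub_re, Complex.re_ofReal_mul, SS_re]
  have hkan : AnalyticOnNhd ℂ (fun z => k.eval z + 1) (ball 0 1) := fun z hz =>
    (analytic_poly k _ z hz).add analyticAt_const
  have hd1 : DiffContOnCl ℂ hh U := (hhan.differentiableOn.mono hUc).diffContOnCl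
  have hd2 : DiffContOnCl ℂ (fun z => k.eval z + 1) U :=
    (hkan.differentiableOn.mono hUc).diffContOnCl
  have hfr : ∀ z ∈ frontier U, (hh z).re ≤ (k.eval z + 1).re := by
    intro z hz
    obtain ⟨g1, g2, g3⟩ := frontier_aux M.anB.continuousOn hr0 hr1 hz
    have hz1 : ‖z‖ < 1 := lt_of_le_of_lt g1 hr1
    have hsg := sg_mem h0 h1 hz1
    have hE := EE_nonneg h0 h1 hz1
    have hkz : Real.posLog ‖f (BB α z)‖ ≤ (k.eval z).re := hk.ge z (by
      rw [mem_closedBall_zero_iff]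
      exact g1)
    have hk0 : 0 ≤ (k.eval z).re := Real.posLog_nonneg.trans hkz
    rw [hhre, Complex.add_re, Complex.one_re]
    have hWE : 0 ≤ W * (EE α z).re := mul_nonneg hW0 hE
    have hΛs : 0 ≤ Λ' * sg α z := mul_nonneg hΛ'0 hsg.1.le
    rcases g3 with g3 | g3
    · -- `|z| = r`
      rcases le_or_gt (1 - δ) (sg α z) with h2 | h2
      · -- near the top
        have h3 : BB α z ∈ closedBall (0 : ℂ) (Real.exp (-(π / 2))) := by
          rw [mem_closedBall_zero_iff, norm_BB, Real.exp_le_exp]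
          nlinarith
        have h4 := hΛ _ h3
        have h5 : Λ' * (1 - δ) ≤ Λ' * sg α z := mul_le_mul_of_nonneg_left h2 hΛ'0
        linarith
      · have h3 : BB α z ∈ closedBall (0 : ℂ) ρ := by
          rw [mem_closedBall_zero_iff]
          exact g2
        have h4 := hV _ h3
        -- `sin (πσ) ≥ (1 - ρ)/2`
        have h5 : 1 - ρ ≤ π * sg α z := by
          rw [norm_BB] at g2
          have := Real.add_one_le_exp (-(π * sg α z))
          linarith
        have h6 : (1 - ρ) / 2 ≤ Real.sin (π * sg α z) := by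
          refine sin_ge hsg.1.le hsg.2.le ?_ ?_
          · have h7 : π * sg α z ≤ 4 * sg α z := mul_le_mul_of_nonneg_right Real.pi_le_four hsg.1.le
            linarith
          · linarith
        have h7 : Real.sin α * ((1 - ρ) / 2) / (1 - r ^ 2) * (1 - ‖z‖ ^ 2) ≤
            Real.sin α * Real.sin (π * sg α z) := by
          rw [g3, div_mul_cancel₀ _ (by nlinarith : (1 : ℝ) - r ^ 2 ≠ 0)]
          exact mul_le_mul_of_nonneg_left h6 hs.le
        have h8 := EE_ge h0 h1 hz1 h7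
        have h9 : V ≤ W * (EE α z).re := hW.trans (mul_le_mul_of_nonneg_left h8 hW0)
        linarith
    · -- `|B z| = ρ`
      have h2 : BB α z ∈ sphere (0 : ℂ) ρ := by
        rw [mem_sphere_zero_iff_norm]
        exact g3
      have h3 := hq.le _ h2
      linarith
  have h0U : (0 : ℂ) ∈ closure U := by
    refine subset_closure ⟨?_, ?_⟩
    · exact mem_ball_self hr0
    · show BB α 0 ∈ ball (0 : ℂ) ρ
      rw [mem_ball_zero_iff]
      exact hBρ
  have h2 := re_le_of_frontier hUb hd1 hd2 hfr h0U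
  rw [hhre, Complex.add_re, Complex.one_re, sg_zero] at h2
  have h3 := hk.zero_le
  have h4 : W * (EE α 0).re ≤ W * 2 := mul_le_mul_of_nonneg_left (EE_zero_le α) hW0
  linarith

/-! ### The radius `ρ = 1 - (1 - r)^κ` -/

theorem Lr_pow {κ r : ℝ} (hr : r < 1) : Lr (1 - (1 - r) ^ κ) = κ * Lr r := by
  unfold Lr
  rw [sub_sub_cancel, Real.log_rpow (by linarith)]
  ring

theorem tendsto_pow {κ : ℝ} (hκ : 0 < κ) :
    Tendsto (fun r : ℝ => 1 - (1 - r) ^ κ) (𝓝[<] 1) (𝓝[<] 1) := by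
  refine tendsto_nhdsWithin_iff.2 ⟨?_, ?_⟩
  · have h1 : Tendsto (fun r : ℝ => (1 - r)) (𝓝[<] 1) (𝓝 0) := by
      have h : Tendsto (fun r : ℝ => 1 - r) (𝓝 1) (𝓝 (1 - 1)) := tendsto_const_nhds.sub tendsto_id
      rw [sub_self] at h
      exact h.mono_left nhdsWithin_le_nhds
    have h2 : Tendsto (fun r : ℝ => (1 - r) ^ κ) (𝓝[<] 1) (𝓝 ((0 : ℝ) ^ κ)) :=
      h1.rpow_const (Or.inr hκ.le)
    rw [Real.zero_rpow hκ.ne'] at h2
    have h3 := (tendsto_const_nhds (x := (1 : ℝ))).sub h2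
    rwa [sub_zero] at h3
  · filter_upwards [self_mem_nhdsWithin] with r hr
    have h1 : 0 < 1 - r := sub_pos.2 hr
    have h2 : 0 < (1 - r) ^ κ := Real.rpow_pos_of_pos h1 κ
    show 1 - (1 - r) ^ κ < 1
    linarith

/-- exponentials beat powers -/
theorem pow_le_exp (C : ℝ) (m : ℕ) {b c : ℝ} (hb : 0 < b) (hc : 0 < c) :
    ∀ᶠ x : ℝ in atTop, C * (1 + x) ^ m + 1 ≤ c * Real.exp (b * x) := by
  have h1 := isLittleO_pow_exp_pos_mul_atTop m hb
  have hK : 0 < |C| * 2 ^ m + 1 := by positivity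
  rw [Asymptotics.isLittleO_iff] at h1
  have h2 := h1 (show 0 < c / (|C| * 2 ^ m + 1) by positivity)
  filter_upwards [h2, eventually_ge_atTop 1] with x hx hx1
  rw [Real.norm_eq_abs, Real.norm_eq_abs, abs_of_nonneg (by positivity),
    abs_of_nonneg (Real.exp_pos _).le, div_mul_eq_mul_div, le_div_iff₀ hK] at hx
  have h3 : C * (1 + x) ^ m ≤ |C| * (2 * x) ^ m := by
    have h4 : (1 + x) ^ m ≤ (2 * x) ^ m := pow_le_pow_left₀ (by positivity) (by linarith) m
    exact mul_le_mul (le_abs_self C) h4 (by positivity) (abs_nonneg C)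
  have h5 : (1 : ℝ) ≤ x ^ m := one_le_pow₀ hx1
  calc C * (1 + x) ^ m + 1 ≤ |C| * (2 * x) ^ m + x ^ m := by linarith
    _ = x ^ m * (|C| * 2 ^ m + 1) := by rw [mul_pow]; ring
    _ ≤ c * Real.exp (b * x) := hx

/-- **Lower bound.** -/
theorem Asym.low_BB (A : Asym l f Ψ P)
    (hgrow : ∃ (C : ℝ) (m : ℕ), ∀ z ∈ ball (0 : ℂ) 1, Real.posLog ‖f z‖ ≤ C * (1 + Lr ‖z‖) ^ m)
    (h0 : 0 < α) (h1 : α < π) {ε : ℝ} (hε : 0 < ε) :
    ∀ᶠ r : ℝ in 𝓝[<] 1, ((l + 1) * (1 - α / π) - ε) * Lr r ≤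
      charT (fun z => f (BB α z)) r := by
  have hl : (0 : ℝ) ≤ l := Nat.cast_nonneg l
  have hpi := Real.pi_pos
  have hs : 0 < Real.sin α := Real.sin_pos_of_pos_of_lt_pi h0 h1
  have M := selfMap_BB h0 h1
  have hB0 : ‖BB α 0‖ < 1 := mem_ball_zero_iff.1 (M.maps 0 (mem_ball_self one_pos))
  obtain ⟨C, m, hCm⟩ := hgrow
  set k : ℝ := α / π with hk
  have hk0 : 0 < k := div_pos h0 hpi
  have hk1 : k < 1 := (div_lt_one hpi).2 h1
  -- parameters
  set ε₁ : ℝ := ε / 20 with hε₁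
  have hε₁0 : 0 < ε₁ := by positivity
  set δ : ℝ := min (1 / 2) (ε₁ / (l + 1 + 2 * ε₁)) with hδ
  have hδ0 : 0 < δ := lt_min (by norm_num) (by positivity)
  have hδ1 : δ ≤ 1 / 2 := min_le_left _ _
  have hδ2 : δ * (l + 1 + 2 * ε₁) ≤ ε₁ := by
    have := min_le_right (1 / 2 : ℝ) (ε₁ / (l + 1 + 2 * ε₁))
    rwa [le_div_iff₀ (by positivity)] at this
  set κ : ℝ := 1 - min (1 / 2) (ε / (4 * (l + 1))) with hκ
  have hκ1 : κ < 1 := by
    have : 0 < min (1 / 2 : ℝ) (ε / (4 * (l + 1))) := lt_min (by norm_num) (by positivity)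
    linarith
  have hκ0 : 0 < κ := by
    have := min_le_left (1 / 2 : ℝ) (ε / (4 * (l + 1)))
    linarith
  have hκ2 : (1 - κ) * (l + 1) ≤ ε / 4 := by
    have := min_le_right (1 / 2 : ℝ) (ε / (4 * (l + 1)))
    rw [le_div_iff₀ (by positivity)] at this
    rw [hκ]
    linarith
  have hpow := tendsto_pow hκ0
  have hs1 : Real.exp (-(π / 2)) < 1 := by
    rw [Real.exp_lt_one_iff]
    linarith
  have e1 := hpow.eventually (A.le_maj (norm_nonneg (BB α 0)) hB0 hε₁0)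
  have e2 := hpow.eventually (A.maj_le hs1 hε₁0)
  have e3 := hpow.eventually (gt_eventually hB0)
  have e4 := hpow.eventually (gt_eventually (s := 1 - 4 * δ) (by linarith))
  have e5 := hpow.eventually (gt_eventually (s := (0 : ℝ)) one_pos)
  have hc : 0 < ε₁ * κ * (1 / 4 * √(Real.sin α)) := by positivity
  have e6 : ∀ᶠ r : ℝ in 𝓝[<] 1, |C| * (1 + Lr r) ^ m + 1 ≤
      ε₁ * κ * (1 / 4 * √(Real.sin α)) * Real.exp ((1 - κ) / 2 * Lr r) :=
    tendsto_Lr.eventually (pow_le_exp |C| m (by linarith : 0 < (1 - κ) / 2) hc)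
  filter_upwards [e1, e2, e3, e4, e5, e6, Pool.Agent.Helper61.Lac.eventually_pos_lt_one,
    tendsto_Lr.eventually_ge_atTop 1, const_le_Lr 2 (show 0 < ε / 4 by linarith),
    hpow.eventually lt_one_eventually]
    with r e1 e2 e3 e4 e5 e6 hr hL1 hL2 hρ1
  set ρ : ℝ := 1 - (1 - r) ^ κ with hρ
  have hLρ : Lr ρ = κ * Lr r := Lr_pow hr.2
  have hLρ0 : 0 ≤ Lr ρ := by
    rw [hLρ]
    positivity
  obtain ⟨q, hq⟩ := exists_maj A.basic.anf e5 hρ1 one_pos
  have g1 := e1 1 q le_rfl hq (BB α 0) (by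
    rw [mem_closedBall_zero_iff])
  have g2 := e2 1 q le_rfl hq
  -- the bound for the majorant on the whole disc
  set V : ℝ := |C| * (1 + Lr r) ^ m + 1 with hV
  have hVb : ∀ w ∈ closedBall (0 : ℂ) ρ, (q.eval w).re ≤ V := by
    intro w hw
    have h2 := re_le_of_sphere (p := fun w => q.eval w) (q := fun _ => (V : ℂ)) e5
      (analytic_poly q _) analyticOnNhd_const (fun z hz => by
        rw [Complex.ofReal_re]
        have hzn : ‖z‖ = ρ := mem_sphere_zero_iff_norm.1 hz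
        have h3 := hq.le z hz
        have h4 := hCm z (by
          rw [mem_ball_zero_iff, hzn]
          exact hρ1)
        rw [hzn, hLρ] at h4
        have h5 : C * (1 + κ * Lr r) ^ m ≤ |C| * (1 + Lr r) ^ m := by
          have h6 : (1 + κ * Lr r) ^ m ≤ (1 + Lr r) ^ m :=
            pow_le_pow_left₀ (by positivity) (by nlinarith) m
          exact mul_le_mul (le_abs_self C) h6 (by positivity) (abs_nonneg C)
        linarith) hw
    rw [Complex.ofReal_re] at h2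
    exact h2
  have hW : V ≤ ε₁ * Lr ρ * (1 / 2 * √(Real.sin α * ((1 - ρ) / 2) / (1 - r ^ 2))) := by
    have h2 : 1 - ρ = Real.exp (-(κ * Lr r)) := by
      rw [hρ, sub_sub_cancel, Real.rpow_def_of_pos (by linarith [hr.2])]
      congr 1
      unfold Lr
      ring
    have h3 : 1 - r = Real.exp (-(Lr r)) := by
      unfold Lr
      rw [neg_neg, Real.exp_log (by linarith [hr.2])]
    have h4 : Real.sin α / 4 * Real.exp ((1 - κ) * Lr r) ≤
        Real.sin α * ((1 - ρ) / 2) / (1 - r ^ 2) := by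
      have ht : 0 < 1 - r ^ 2 := by nlinarith [hr.1, hr.2]
      rw [le_div_iff₀ ht]
      have h5 : 1 - r ^ 2 ≤ 2 * (1 - r) := by nlinarith [sq_nonneg (1 - r)]
      have h6 : Real.exp ((1 - κ) * Lr r) * (1 - r) = 1 - ρ := by
        rw [h2, h3, ← Real.exp_add]
        congr 1
        ring
      have h7 : 0 ≤ Real.sin α / 4 * Real.exp ((1 - κ) * Lr r) := by positivity
      calc Real.sin α / 4 * Real.exp ((1 - κ) * Lr r) * (1 - r ^ 2)
          ≤ Real.sin α / 4 * Real.exp ((1 - κ) * Lr r) * (2 * (1 - r)) :=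
            mul_le_mul_of_nonneg_left h5 h7
        _ = Real.sin α / 2 * (Real.exp ((1 - κ) * Lr r) * (1 - r)) := by ring
        _ = Real.sin α * ((1 - ρ) / 2) := by rw [h6]; ring
    have h5 : √(Real.sin α) * (1 / 2) * Real.exp ((1 - κ) / 2 * Lr r) ≤
        √(Real.sin α * ((1 - ρ) / 2) / (1 - r ^ 2)) := by
      refine Real.le_sqrt_of_sq_le ?_
      refine le_trans (le_of_eq ?_) h4
      rw [mul_pow, mul_pow, Real.sq_sqrt hs.le, ← Real.exp_nat_mul]
      have : ((2 : ℕ) : ℝ) * ((1 - κ) / 2 * Lr r) = (1 - κ) * Lr r := by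
        push_cast
        ring
      rw [this]
      ring
    have h6 : ε₁ * κ * (1 / 4 * √(Real.sin α)) * Real.exp ((1 - κ) / 2 * Lr r) ≤
        ε₁ * Lr ρ * (1 / 2 * √(Real.sin α * ((1 - ρ) / 2) / (1 - r ^ 2))) := by
      have h7 : ε₁ * κ ≤ ε₁ * Lr ρ := by
        rw [hLρ]
        nlinarith [mul_pos hε₁0 hκ0]
      calc ε₁ * κ * (1 / 4 * √(Real.sin α)) * Real.exp ((1 - κ) / 2 * Lr r)
          = ε₁ * κ * (1 / 2 * (√(Real.sin α) * (1 / 2) * Real.exp ((1 - κ) / 2 * Lr r))) := by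
            ring
        _ ≤ ε₁ * Lr ρ * (1 / 2 * √(Real.sin α * ((1 - ρ) / 2) / (1 - r ^ 2))) := by
            refine mul_le_mul h7 ?_ (by positivity) (by positivity)
            exact mul_le_mul_of_nonneg_left h5 (by norm_num)
    exact e6.trans h6
  have h2 := low_step h0 h1 A.basic.anf hr.1 hr.2 e3 hq (Λ := (l + 1 + ε₁) * Lr ρ)
    (Λ' := (l + 1 + 2 * ε₁) * Lr ρ) (V := V) (δ := δ) (W := ε₁ * Lr ρ) hδ1 (by linarith) g2
    (by nlinarith) (by positivity) hVb (by positivity) hW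
  rw [← hk, hLρ] at h2
  rw [hLρ] at g1
  -- `T ≥ ((l+1)(1-k) - 5 ε₁) κ L - 2`
  have h3 : ((l + 1) * (1 - k) - 5 * ε₁) * (κ * Lr r) - 2 ≤ charT (fun z => f (BB α z)) r := by
    have hκL : 0 ≤ κ * Lr r := by positivity
    have h4 : 0 ≤ ε₁ * (1 - k) * (κ * Lr r) :=
      mul_nonneg (mul_nonneg hε₁0.le (by linarith)) hκL
    nlinarith
  have h4 : ((l + 1) * (1 - k) - ε / 4 - ε / 4) * Lr r ≤
      ((l + 1) * (1 - k) - 5 * ε₁) * (κ * Lr r) := by
    have h5 : (l + 1) * (1 - k) - 5 * ε₁ - ε / 4 ≤ ((l + 1) * (1 - k) - 5 * ε₁) * κ := by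
      have h6 : (l + 1) * (1 - k) - 5 * ε₁ ≤ l + 1 := by nlinarith
      have h7 : (1 - κ) * ((l + 1) * (1 - k) - 5 * ε₁) ≤ (1 - κ) * (l + 1) :=
        mul_le_mul_of_nonneg_left h6 (by linarith)
      linarith
    have h8 : 5 * ε₁ = ε / 4 := by
      rw [hε₁]
      ring
    rw [h8] at h5 ⊢
    calc ((l + 1) * (1 - k) - ε / 4 - ε / 4) * Lr r
        ≤ (((l + 1) * (1 - k) - ε / 4) * κ) * Lr r :=
          mul_le_mul_of_nonneg_right h5 (by linarith)
      _ = ((l + 1) * (1 - k) - ε / 4) * (κ * Lr r) := by ring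
  nlinarith

end Pool.Agent.Helper53.QF
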