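import Pool.Agent.Helper53.QF.RedPoly
import Pool.Agent.Helper61.Lac.LC11a

/-!
# Polynomial majorants

`Maj P ρ η q`: the real part of the polynomial `q` is at least `log⁺ ‖P‖` on `|w| ≤ ρ` and at most `log⁺ ‖P‖ + η` on
`|w| = ρ` (so it is the least harmonic majorant of `log⁺ ‖P‖` on the disc of radius `ρ`, up to `η`). Harnack's inequality for
real parts of analytic functions.
-/

set_option autoImplicit false

open Filter Topology Metric Complex Polynomial
open scoped Real

namespace Pool.Agent.Helper53.QF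

/-- Maximum principle for real parts. -/
theorem re_le_of_frontier {U : Set ℂ} (hU : Bornology.IsBounded U) {p q : ℂ → ℂ}
    (hp : DiffContOnCl ℂ p U) (hq : DiffContOnCl ℂ q U)
    (h : ∀ w ∈ frontier U, (p w).re ≤ (q w).re) {w : ℂ} (hw : w ∈ closure U) :
    (p w).re ≤ (q w).re := by
  have hd : DiffContOnCl ℂ (fun z => cexp (p z - q z)) U :=
    ⟨(hp.1.sub hq.1).cexp, (hp.2.sub hq.2).cexp⟩
  have h1 := Complex.norm_le_of_forall_mem_frontier_norm_le hU hd (C := 1) (fun z hz => by
    rw [Complex.norm_exp, Real.exp_le_one_iff, Complex.sub_re]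
    linarith [h z hz]) hw
  rw [Complex.norm_exp, Real.exp_le_one_iff, Complex.sub_re] at h1
  linarith

theorem diffContOnCl_ball {p : ℂ → ℂ} {ρ : ℝ} (hρ : 0 < ρ)
    (hp : AnalyticOnNhd ℂ p (closedBall 0 ρ)) : DiffContOnCl ℂ p (ball 0 ρ) := by
  refine DifferentiableOn.diffContOnCl ?_
  rw [closure_ball _ hρ.ne']
  exact hp.differentiableOn

/-- Maximum principle for real parts on a disc. -/
theorem re_le_of_sphere {p q : ℂ → ℂ} {ρ : ℝ} (hρ : 0 < ρ)
    (hp : AnalyticOnNhd ℂ p (closedBall 0 ρ)) (hq : AnalyticOnNhd ℂ q (closedBall 0 ρ))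
    (h : ∀ w ∈ sphere (0 : ℂ) ρ, (p w).re ≤ (q w).re) {w : ℂ} (hw : w ∈ closedBall (0 : ℂ) ρ) :
    (p w).re ≤ (q w).re := by
  refine re_le_of_frontier isBounded_ball (diffContOnCl_ball hρ hp) (diffContOnCl_ball hρ hq) ?_
    (U := ball 0 ρ) ?_
  · rw [frontier_ball _ hρ.ne']
    exact h
  · rw [closure_ball _ hρ.ne']
    exact hw

theorem norm_le_exp_posLog (x : ℂ) : ‖x‖ ≤ Real.exp (Real.posLog ‖x‖) := by
  rcases eq_or_ne x 0 with rfl | hx
  · rw [norm_zero]
    exact (Real.exp_pos _).le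
  · have h1 : 0 < ‖x‖ := norm_pos_iff.2 hx
    conv_lhs => rw [← Real.exp_log h1]
    exact Real.exp_le_exp.2 (by rw [Real.posLog_def]; exact le_max_right _ _)

theorem posLog_le_of_norm_le {x : ℂ} {a : ℝ} (ha : 0 ≤ a) (h : ‖x‖ ≤ Real.exp a) :
    Real.posLog ‖x‖ ≤ a := by
  rw [Real.posLog_def]
  refine max_le ha ?_
  show Real.log ‖x‖ ≤ a
  rcases eq_or_ne x 0 with rfl | hx
  · rw [norm_zero, Real.log_zero]
    exact ha
  · rw [← Real.log_exp a]
    exact Real.log_le_log (norm_pos_iff.2 hx) h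

/-- Maximum principle for `log⁺ ‖P‖`. -/
theorem posLog_le_of_frontier {U : Set ℂ} (hU : Bornology.IsBounded U) {P q : ℂ → ℂ}
    (hP : DiffContOnCl ℂ P U) (hq : DiffContOnCl ℂ q U)
    (h : ∀ w ∈ frontier U, Real.posLog ‖P w‖ ≤ (q w).re) {w : ℂ} (hw : w ∈ closure U) :
    Real.posLog ‖P w‖ ≤ (q w).re := by
  have h0 : 0 ≤ (q w).re := by
    have := re_le_of_frontier hU (p := fun _ => 0) (q := q) diffContOnCl_const hq (fun z hz => by
      rw [Complex.zero_re]
      exact Real.posLog_nonneg.trans (h z hz)) hw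
    simpa using this
  have hd : DiffContOnCl ℂ (fun z => P z * cexp (-q z)) U :=
    ⟨hP.1.mul hq.1.neg.cexp, hP.2.mul hq.2.neg.cexp⟩
  have h1 := Complex.norm_le_of_forall_mem_frontier_norm_le hU hd (C := 1) (fun z hz => by
    rw [norm_mul, Complex.norm_exp, Complex.neg_re]
    have h2 := (norm_le_exp_posLog (P z)).trans (Real.exp_le_exp.2 (h z hz))
    calc ‖P z‖ * Real.exp (-(q z).re) ≤ Real.exp (q z).re * Real.exp (-(q z).re) :=
          mul_le_mul_of_nonneg_right h2 (Real.exp_pos _).le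
      _ = 1 := by rw [← Real.exp_add, add_neg_cancel, Real.exp_zero]) hw
  refine posLog_le_of_norm_le h0 ?_
  rw [norm_mul, Complex.norm_exp, Complex.neg_re] at h1
  calc ‖P w‖ = ‖P w‖ * Real.exp (-(q w).re) * Real.exp (q w).re := by
        rw [mul_assoc, ← Real.exp_add, neg_add_cancel, Real.exp_zero, mul_one]
    _ ≤ 1 * Real.exp (q w).re := mul_le_mul_of_nonneg_right h1 (Real.exp_pos _).le
    _ = Real.exp (q w).re := one_mul _

theorem posLog_le_of_sphere {P q : ℂ → ℂ} {ρ : ℝ} (hρ : 0 < ρ)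
    (hP : AnalyticOnNhd ℂ P (closedBall 0 ρ)) (hq : AnalyticOnNhd ℂ q (closedBall 0 ρ))
    (h : ∀ w ∈ sphere (0 : ℂ) ρ, Real.posLog ‖P w‖ ≤ (q w).re) {w : ℂ}
    (hw : w ∈ closedBall (0 : ℂ) ρ) : Real.posLog ‖P w‖ ≤ (q w).re := by
  refine posLog_le_of_frontier isBounded_ball (diffContOnCl_ball hρ hP) (diffContOnCl_ball hρ hq) ?_
    (U := ball 0 ρ) ?_
  · rw [frontier_ball _ hρ.ne']
    exact h
  · rw [closure_ball _ hρ.ne']
    exact hw

/-- The mean value property for the real part. -/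
theorem mean_re {q : ℂ → ℂ} {ρ : ℝ} (hρ : 0 < ρ) (hq : AnalyticOnNhd ℂ q (closedBall 0 ρ)) :
    Real.circleAverage (fun z => (q z).re) 0 ρ = (q 0).re := by
  have habs : |ρ| = ρ := abs_of_pos hρ
  have h1 : DiffContOnCl ℂ q (ball 0 |ρ|) := by
    rw [habs]
    exact diffContOnCl_ball hρ hq
  have h2 := h1.circleAverage
  have h3 : CircleIntegrable q 0 ρ := by
    refine ContinuousOn.circleIntegrable hρ.le ?_
    exact hq.continuousOn.mono sphere_subset_closedBall
  have h4 := Complex.reCLM.circleAverage_comp_comm h3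
  rw [h2] at h4
  exact h4

theorem analytic_poly (q : Polynomial ℂ) (s : Set ℂ) : AnalyticOnNhd ℂ (fun z => q.eval z) s :=
  fun z _ => (AnalyticOnNhd.eval_polynomial q) z (Set.mem_univ z)

/-- `Re q` is the least harmonic majorant of `log⁺ ‖P‖` on the disc of radius `ρ`, up to `η`. -/
structure Maj (P : ℂ → ℂ) (ρ η : ℝ) (q : Polynomial ℂ) : Prop where
  ge : ∀ w ∈ closedBall (0 : ℂ) ρ, Real.posLog ‖P w‖ ≤ (q.eval w).re
  le : ∀ w ∈ sphere (0 : ℂ) ρ, (q.eval w).re ≤ Real.posLog ‖P w‖ + η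
  zero_ge : Pool.Agent.Helper61.Nev.charT P ρ ≤ (q.eval 0).re
  zero_le : (q.eval 0).re ≤ Pool.Agent.Helper61.Nev.charT P ρ + η

/-- Polynomial majorants exist. -/
theorem exists_maj {P : ℂ → ℂ} (hP : AnalyticOnNhd ℂ P (ball 0 1)) {ρ η : ℝ} (hρ : 0 < ρ)
    (hρ1 : ρ < 1) (hη : 0 < η) : ∃ q : Polynomial ℂ, Maj P ρ η q := by
  have hsub : closedBall (0 : ℂ) ρ ⊆ ball 0 1 := closedBall_subset_ball hρ1
  have hcont : ContinuousOn (fun z => Real.posLog ‖P z‖) (ball 0 1) :=
    Pool.Agent.Helper61.Lac.continuousOn_posLog_norm hP.continuousOn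
  obtain ⟨q, hq⟩ := exists_poly hρ (hcont.mono (sphere_subset_closedBall.trans hsub)) hη
  have habs : |ρ| = ρ := abs_of_pos hρ
  have hint : CircleIntegrable (fun z => Real.posLog ‖P z‖) 0 ρ :=
    Pool.Agent.Helper61.Lac.circleIntegrable_of_cont hρ.le hρ1 hcont
  have hqc : Continuous fun z => (q.eval z).re := Complex.continuous_re.comp q.continuous
  have hintq : CircleIntegrable (fun z => (q.eval z).re) 0 ρ :=
    hqc.continuousOn.circleIntegrable hρ.le
  have hmean := mean_re hρ (analytic_poly q (closedBall 0 ρ))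
  refine ⟨q, fun w hw => posLog_le_of_sphere hρ (hP.mono hsub) (analytic_poly q _)
    (fun z hz => (hq z hz).1) hw, fun w hw => (hq w hw).2, ?_, ?_⟩
  · rw [← hmean, Pool.Agent.Helper61.Lac.charT_eq hρ1 hP]
    refine Real.circleAverage_mono hint hintq ?_
    intro z hz
    rw [habs] at hz
    exact (hq z hz).1
  · rw [← hmean, Pool.Agent.Helper61.Lac.charT_eq hρ1 hP, ← Real.circleAverage_const η 0 ρ,
      ← Real.circleAverage_add hint (circleIntegrable_const _ _ _)]
    refine Real.circleAverage_mono hintq (hint.add (circleIntegrable_const _ _ _)) ?_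
    intro z hz
    rw [habs] at hz
    exact (hq z hz).2

/-- Harnack's inequality. -/
theorem harnack {q : ℂ → ℂ} {c : ℂ} {R : ℝ} (hR : 0 < R)
    (hq : AnalyticOnNhd ℂ q (closedBall c R)) (h0 : ∀ w ∈ closedBall c R, 0 ≤ (q w).re) {w : ℂ}
    (hw : w ∈ ball c R) :
    (R - ‖w - c‖) / (R + ‖w - c‖) * (q c).re ≤ (q w).re ∧
      (q w).re ≤ (R + ‖w - c‖) / (R - ‖w - c‖) * (q c).re := by
  have habs : |R| = R := abs_of_pos hR
  have hd : DiffContOnCl ℂ q (ball c R) := by
    refine DifferentiableOn.diffContOnCl ?_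
    rw [closure_ball _ hR.ne']
    exact hq.differentiableOn
  have hPc : ContinuousOn (poissonKernel c w) (sphere c |R|) := by
    rw [poissonKernel_eq_re_herglotzRieszKernel]
    exact Complex.continuous_re.comp_continuousOn (continuousOn_herglotzRieszKernel_sphere hw)
  have hqc : ContinuousOn q (sphere c |R|) := by
    rw [habs]
    exact hq.continuousOn.mono sphere_subset_closedBall
  have hqrc : ContinuousOn (fun z => (q z).re) (sphere c |R|) :=
    Complex.continuous_re.comp_continuousOn hqc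
  have hi0 : CircleIntegrable (fun z => (q z).re) c R := hqrc.circleIntegrable'
  have hi1 : CircleIntegrable (poissonKernel c w • q) c R := by
    refine ContinuousOn.circleIntegrable' ?_
    exact hPc.smul hqc
  have hi2 : CircleIntegrable (fun z => poissonKernel c w z * (q z).re) c R := by
    refine ContinuousOn.circleIntegrable' ?_
    exact hPc.mul hqrc
  have h1 : Real.circleAverage (fun z => poissonKernel c w z * (q z).re) c R = (q w).re := by
    have h2 := hd.circleAverage_poissonKernel_smul hw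
    have h3 := Complex.reCLM.circleAverage_comp_comm hi1
    rw [h2] at h3
    have h4 : (Complex.reCLM ∘ (poissonKernel c w • q)) =
        fun z => poissonKernel c w z * (q z).re := by
      funext z
      show (poissonKernel c w z • q z).re = _
      rw [Complex.real_smul, Complex.re_ofReal_mul]
    rw [h4] at h3
    exact h3
  have hmean : Real.circleAverage (fun z => (q z).re) c R = (q c).re := by
    have h2 : DiffContOnCl ℂ q (ball c |R|) := by
      rw [habs]
      exact hd
    have h3 := h2.circleAverage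
    have h4 := Complex.reCLM.circleAverage_comp_comm (hqc.circleIntegrable')
    rw [h3] at h4
    exact h4
  have hker : ∀ z ∈ sphere c |R|, (R - ‖w - c‖) / (R + ‖w - c‖) ≤ poissonKernel c w z ∧
      poissonKernel c w z ≤ (R + ‖w - c‖) / (R - ‖w - c‖) := by
    intro z hz
    rw [habs] at hz
    rw [poissonKernel_eq_re_herglotzRieszKernel]
    exact ⟨le_re_herglotzRieszKernel hz hw, re_herglotzRieszKernel_le hz hw⟩
  have hpos : ∀ z ∈ sphere c |R|, 0 ≤ (q z).re := by
    intro z hz
    rw [habs] at hz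
    exact h0 z (sphere_subset_closedBall hz)
  constructor
  · rw [← h1, ← hmean, ← smul_eq_mul, ← Real.circleAverage_fun_smul]
    refine Real.circleAverage_mono (hi0.const_smul) hi2 ?_
    intro z hz
    exact mul_le_mul_of_nonneg_right (hker z hz).1 (hpos z hz)
  · rw [← h1, ← hmean, ← smul_eq_mul, ← Real.circleAverage_fun_smul]
    refine Real.circleAverage_mono hi2 (hi0.const_smul) ?_
    intro z hz
    exact mul_le_mul_of_nonneg_right (hker z hz).2 (hpos z hz)

end Pool.Agent.Helper53.QF
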