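import Pool.Agent.Helper53.QF.RedSub

/-!
# The least harmonic majorant of `log⁺ |f|` away from the centre

`Asym l f Ψ P`: the data of the construction for `α₀ = l + 1`. If `Re q` is the least harmonic majorant of `log⁺ |f|` on
`|w| < ρ` (up to `η ≤ 1`), then `Re q(ζ) ≤ (l + 1 + ε) log 1/(1-ρ)` for every fixed `ζ` and `ρ` close to `1`: apply
`α ≤ l + 1` to `f ∘ M`, `M` the Moebius map with `M 0 = ζ`.
-/

set_option autoImplicit false

open Filter Topology Metric Complex Polynomial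
open scoped ComplexConjugate

namespace Pool.Agent.Helper53.QF

open Pool.Agent.Helper61.Nev

/-- The data of the construction for `α₀ = l + 1`. -/
structure Asym (l : ℕ) (f Ψ P : ℂ → ℂ) : Prop where
  basic : Basic l f Ψ P
  up : ∀ ε : ℝ, 0 < ε → ∀ᶠ r : ℝ in 𝓝[<] 1, charT f r ≤ (l + 1 + ε) * Lr r
  low : ∀ ε : ℝ, 0 < ε → ∀ᶠ r : ℝ in 𝓝[<] 1, (l + 1 - ε) * Lr r ≤ charT f r
  sm : ∀ ε : ℝ, 0 < ε → ∀ᶠ r : ℝ in 𝓝[<] 1, charT P r ≤ ε * Lr r

/-! ### The change of radius -/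

theorem tendsto_rad {c : ℝ} (hc : 0 < c) :
    Tendsto (fun ρ : ℝ => 1 - c * (1 - ρ)) (𝓝[<] 1) (𝓝[<] 1) := by
  refine tendsto_nhdsWithin_iff.2 ⟨?_, ?_⟩
  · have h : Tendsto (fun ρ : ℝ => 1 - c * (1 - ρ)) (𝓝 1) (𝓝 (1 - c * (1 - 1))) :=
      tendsto_const_nhds.sub (tendsto_const_nhds.mul (tendsto_const_nhds.sub tendsto_id))
    have h2 : (1 : ℝ) - c * (1 - 1) = 1 := by ring
    rw [h2] at h
    exact h.mono_left nhdsWithin_le_nhds
  · filter_upwards [self_mem_nhdsWithin] with ρ hρ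
    have h1 : 0 < 1 - ρ := sub_pos.2 hρ
    have h2 : 0 < c * (1 - ρ) := mul_pos hc h1
    show 1 - c * (1 - ρ) < 1
    linarith

theorem Lr_rad {c ρ : ℝ} (hc : 0 < c) (hρ : ρ < 1) : Lr (1 - c * (1 - ρ)) = -Real.log c + Lr ρ := by
  unfold Lr
  have h1 : 1 - (1 - c * (1 - ρ)) = c * (1 - ρ) := by ring
  rw [h1, Real.log_mul hc.ne' (by linarith)]
  ring

/-- `C ≤ ε L` near `1` -/
theorem const_le_Lr (C : ℝ) {ε : ℝ} (hε : 0 < ε) : ∀ᶠ r : ℝ in 𝓝[<] 1, C ≤ ε * Lr r := by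
  filter_upwards [tendsto_Lr.eventually_ge_atTop (C / ε)] with r hr
  rw [div_le_iff₀ hε] at hr
  linarith

theorem lt_one_eventually : ∀ᶠ r : ℝ in 𝓝[<] 1, r < 1 := self_mem_nhdsWithin

theorem gt_eventually {s : ℝ} (hs : s < 1) : ∀ᶠ r : ℝ in 𝓝[<] 1, s < r := by
  filter_upwards [Ioo_mem_nhdsLT hs] with r hr
  exact hr.1

/-! ### Moebius maps -/

/-- `M(z) = (z + ζ) / (1 + conj ζ z)` -/
noncomputable def mob (ζ : ℂ) : ℂ → ℂ := fun z => (z + ζ) / (1 + conj ζ * z)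

theorem mob_den {ζ z : ℂ} (hζ : ‖ζ‖ < 1) (hz : ‖z‖ < 1) : 1 + conj ζ * z ≠ 0 := by
  intro h
  have h1 : ‖conj ζ * z‖ = 1 := by
    have : conj ζ * z = -1 := by linear_combination h
    rw [this, norm_neg, norm_one]
  rw [norm_mul, Complex.norm_conj] at h1
  nlinarith [norm_nonneg ζ, norm_nonneg z]

theorem mob_maps {ζ z : ℂ} (hζ : ‖ζ‖ < 1) (hz : ‖z‖ < 1) : ‖mob ζ z‖ < 1 := by
  unfold mob
  rw [norm_div, div_lt_one (norm_pos_iff.2 (mob_den hζ hz))]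
  rw [← sq_lt_sq₀ (norm_nonneg _) (norm_nonneg _), ← Complex.normSq_eq_norm_sq,
    ← Complex.normSq_eq_norm_sq]
  have h1 : ‖ζ‖ ^ 2 < 1 := by nlinarith [norm_nonneg ζ]
  have h2 : ‖z‖ ^ 2 < 1 := by nlinarith [norm_nonneg z]
  have h3 : Complex.normSq (1 + conj ζ * z) - Complex.normSq (z + ζ) =
      (1 - ‖ζ‖ ^ 2) * (1 - ‖z‖ ^ 2) := by
    rw [← Complex.normSq_eq_norm_sq, ← Complex.normSq_eq_norm_sq]
    simp only [Complex.normSq_apply, Complex.add_re, Complex.add_im, Complex.mul_re, Complex.mul_im,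
      Complex.one_re, Complex.one_im, Complex.conj_re, Complex.conj_im]
    ring
  nlinarith

theorem mob_mob {ζ z : ℂ} (hζ : ‖ζ‖ < 1) (hz : ‖z‖ < 1) : mob ζ (mob (-ζ) z) = z := by
  have h1 : 1 + conj (-ζ) * z ≠ 0 := mob_den (by rwa [norm_neg]) hz
  have hM : ‖mob (-ζ) z‖ < 1 := mob_maps (by rwa [norm_neg]) hz
  have h2 := mob_den hζ hM
  unfold mob at h2 ⊢
  rw [map_neg] at h1 h2 ⊢
  have hw : (z + -ζ) / (1 + -conj ζ * z) * (1 + -conj ζ * z) = z + -ζ := div_mul_cancel₀ _ h1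
  rw [div_eq_iff h2]
  linear_combination hw

theorem mob_zero (ζ : ℂ) : mob ζ 0 = ζ := by
  unfold mob
  simp

theorem mob_self (ζ : ℂ) : mob (-ζ) ζ = 0 := by
  unfold mob
  simp

theorem mob_analytic {ζ : ℂ} (hζ : ‖ζ‖ < 1) : AnalyticOnNhd ℂ (mob ζ) (ball 0 1) := by
  intro z hz
  unfold mob
  have h1 : AnalyticAt ℂ (fun z : ℂ => z + ζ) z := analyticAt_id.add analyticAt_const
  have h2 : AnalyticAt ℂ (fun z : ℂ => 1 + conj ζ * z) z :=
    analyticAt_const.add (analyticAt_const.mul analyticAt_id)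
  exact h1.div h2 (mob_den hζ (mem_ball_zero_iff.1 hz))

theorem mob_selfMap {ζ : ℂ} (hζ : ‖ζ‖ < 1) :
    SelfMap (mob ζ) (fun z => (1 + conj ζ * z) * (1 + conj ζ * z) * (1 - conj ζ * ζ)⁻¹)
      (fun _ => 0) where
  anB := mob_analytic hζ
  maps := fun z hz => by
    rw [mem_ball_zero_iff] at hz ⊢
    exact mob_maps hζ hz
  anC := analyticOnNhd_const
  bdC := ⟨0, fun z _ => by simp⟩
  gAlg := by
    have h1 : Alg (fun _ => (0 : ℂ)) (fun z => 1 + conj ζ * z) :=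
      (Alg.const 1).add ((Alg.const (conj ζ)).mul Alg.var)
    exact ⟨_, (h1.mul h1).mul (Alg.const _), fun _ _ => rfl⟩
  gCAlg := ⟨_, Alg.const 0, fun z _ => by simp⟩
  inv := fun z hz => by
    have hz1 := mob_den hζ (mem_ball_zero_iff.1 hz)
    have hn : (1 : ℂ) - conj ζ * ζ ≠ 0 := by
      rw [← Complex.normSq_eq_conj_mul_self, Complex.normSq_eq_norm_sq]
      have : (1 : ℂ) - ((‖ζ‖ ^ 2 : ℝ) : ℂ) = ((1 - ‖ζ‖ ^ 2 : ℝ) : ℂ) := by push_cast; ring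
      rw [this]
      exact_mod_cast (by nlinarith [norm_nonneg ζ] : (1 : ℝ) - ‖ζ‖ ^ 2 ≠ 0)
    have h1 : HasDerivAt (fun z : ℂ => z + ζ) 1 z := (hasDerivAt_id z).add_const ζ
    have h2 : HasDerivAt (fun z : ℂ => 1 + conj ζ * z) (conj ζ) z := by
      have := ((hasDerivAt_id z).const_mul (conj ζ)).const_add 1
      simpa using this
    have h3 : HasDerivAt (mob ζ) ((1 * (1 + conj ζ * z) - (z + ζ) * conj ζ) /
        (1 + conj ζ * z) ^ 2) z := h1.div h2 hz1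
    rw [h3.deriv]
    field_simp
    ring

variable {l : ℕ} {f Ψ P : ℂ → ℂ}

/-- small functions stay small under composition, upper bounds too -/
theorem comp_le {B Q : ℂ → ℂ} (hB : AnalyticOnNhd ℂ B (ball 0 1))
    (hmap : ∀ z ∈ ball (0 : ℂ) 1, B z ∈ ball (0 : ℂ) 1) (hQ : AnalyticOnNhd ℂ Q (ball 0 1))
    {a : ℝ} (ha : 0 < a) (h : ∀ᶠ r : ℝ in 𝓝[<] 1, charT Q r ≤ a * Lr r) :
    ∀ᶠ r : ℝ in 𝓝[<] 1, charT (fun z => Q (B z)) r ≤ 24 / (1 - ‖B 0‖) * a * Lr r := by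
  have hB0 : ‖B 0‖ < 1 := mem_ball_zero_iff.1 (hmap 0 (mem_ball_self one_pos))
  have hc : 0 < (1 - ‖B 0‖) / 4 := by linarith
  have h1 := (tendsto_rad hc).eventually h
  filter_upwards [h1, const_le_Lr (-Real.log ((1 - ‖B 0‖) / 4)) one_pos, const_le_Lr 1 ha,
    Pool.Agent.Helper61.Lac.eventually_pos_lt_one, tendsto_Lr.eventually_ge_atTop 0] with r h1 h2 h3 hr h4
  have h5 := charT_comp_le hB hmap hQ hr.1 hr.2 rfl
  rw [Lr_rad hc hr.2] at h1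
  have h6 : 0 < 8 / (1 - ‖B 0‖) := div_pos (by norm_num) (by linarith)
  have h7 : charT Q (1 - (1 - ‖B 0‖) / 4 * (1 - r)) + 1 ≤ 3 * (a * Lr r) := by nlinarith
  calc charT (fun z => Q (B z)) r ≤ 8 / (1 - ‖B 0‖) *
        (charT Q (1 - (1 - ‖B 0‖) / 4 * (1 - r)) + 1) := h5
    _ ≤ 8 / (1 - ‖B 0‖) * (3 * (a * Lr r)) := mul_le_mul_of_nonneg_left h7 h6.le
    _ = 24 / (1 - ‖B 0‖) * a * Lr r := by ring

/-- `α(f ∘ B) ≤ l + 1` as soon as `T(r, f ∘ B) ≥ κ L`. -/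
theorem Asym.comp_alpha (A : Asym l f Ψ P) {B g C : ℂ → ℂ} (M : SelfMap B g C) {κ : ℝ} (hκ : 0 < κ)
    (h : ∀ᶠ r : ℝ in 𝓝[<] 1, κ * Lr r ≤ charT (fun z => f (B z)) r) :
    GData l (fun z => f (B z)) (fun z => Ψ (B z)) (fun z => P (B z)) (fun ν => cf g l ν) := by
  have hB0 : ‖B 0‖ < 1 := mem_ball_zero_iff.1 (M.maps 0 (mem_ball_self one_pos))
  have hK : 0 < 24 / (1 - ‖B 0‖) := div_pos (by norm_num) (by linarith)
  refine M.gdata A.basic ?_ ?_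
  · intro ε hε K
    have h1 : 0 < ε * κ / 2 / (24 / (1 - ‖B 0‖)) := by positivity
    filter_upwards [h, comp_le M.anB M.maps A.basic.anP h1 (A.sm _ h1),
      const_le_Lr K (show 0 < ε * κ / 2 by positivity)] with r hr1 hr2 hr3
    have h2 : 24 / (1 - ‖B 0‖) * (ε * κ / 2 / (24 / (1 - ‖B 0‖))) = ε * κ / 2 := by
      rw [mul_comm, div_mul_cancel₀ _ hK.ne']
    rw [h2] at hr2
    have h3 : ε * (κ * Lr r) ≤ ε * charT (fun z => f (B z)) r := mul_le_mul_of_nonneg_left hr1 hε.le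
    linarith
  · have hl : (0 : ℝ) < l + 1 + 1 := by positivity
    have h1 := comp_le M.anB M.maps A.basic.anf hl (A.up 1 one_pos)
    have h2 : alpha (fun z => f (B z)) ≤ ((24 / (1 - ‖B 0‖) * (l + 1 + 1) : ℝ) : EReal) := by
      refine Filter.limsup_le_of_le (by isBoundedDefault) ?_
      filter_upwards [h1, tendsto_Lr.eventually_gt_atTop 0] with r hr hL
      rw [EReal.coe_le_coe_iff]
      exact (div_le_iff₀ hL).2 hr
    exact lt_of_le_of_lt h2 (EReal.coe_lt_top _)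

/-- an upper bound from `alpha` -/
theorem le_of_alpha_le {F : ℂ → ℂ} {a : ℝ} (h : alpha F ≤ ((a : ℝ) : EReal)) {ε : ℝ}
    (hε : 0 < ε) : ∀ᶠ r : ℝ in 𝓝[<] 1, charT F r ≤ (a + ε) * Lr r := by
  have h1 : alpha F < ((a + ε : ℝ) : EReal) :=
    lt_of_le_of_lt h (by exact_mod_cast (by linarith : a < a + ε))
  have h2 := Filter.eventually_lt_of_limsup_lt h1 (by isBoundedDefault)
  filter_upwards [h2, tendsto_Lr.eventually_gt_atTop 0] with r hr hL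
  rw [EReal.coe_lt_coe_iff] at hr
  exact ((div_lt_iff₀ hL).1 hr).le

/-- **Upper bound for the majorant at a point.** -/
theorem Asym.maj_le_point (A : Asym l f Ψ P) {ζ : ℂ} (hζ : ‖ζ‖ < 1) {ε : ℝ} (hε : 0 < ε) :
    ∀ᶠ ρ : ℝ in 𝓝[<] 1, ∀ (η : ℝ) (q : Polynomial ℂ), η ≤ 1 → Maj f ρ η q →
      (q.eval ζ).re ≤ (l + 1 + ε) * Lr ρ := by
  have M := mob_selfMap hζ
  have hζ' : ‖-ζ‖ < 1 := by rwa [norm_neg]
  have M' := mob_selfMap hζ'
  have hc : 0 < (1 - ‖ζ‖) / 4 := by linarith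
  have hc1 : (1 - ‖ζ‖) / 4 ≤ 1 := by linarith [norm_nonneg ζ]
  -- comparison of the majorants
  have key : ∀ᶠ ρ : ℝ in 𝓝[<] 1, ∀ (η : ℝ) (q : Polynomial ℂ), η ≤ 1 → Maj f ρ η q →
      (q.eval ζ).re ≤ charT (fun z => f (mob ζ z)) (1 - (1 - ‖ζ‖) / 4 * (1 - ρ)) + 2 := by
    filter_upwards [gt_eventually hζ, lt_one_eventually] with ρ hρ hρ1 η q hη hq
    set r : ℝ := 1 - (1 - ‖ζ‖) / 4 * (1 - ρ) with hr
    have hr1 : r < 1 := by
      have : 0 < (1 - ‖ζ‖) / 4 * (1 - ρ) := mul_pos hc (by linarith)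
      linarith
    have hρ0 : 0 < ρ := lt_of_le_of_lt (norm_nonneg _) hρ
    have hr0 : 0 < r := by
      have : (1 - ‖ζ‖) / 4 * (1 - ρ) ≤ 1 * (1 - ρ) :=
        mul_le_mul_of_nonneg_right hc1 (by linarith)
      linarith
    have hF : AnalyticOnNhd ℂ (fun z => f (mob ζ z)) (ball 0 1) := M.an_comp A.basic.anf
    obtain ⟨k, hk⟩ := exists_maj hF hr0 hr1 one_pos
    have hin : ∀ w ∈ closedBall (0 : ℂ) ρ, mob (-ζ) w ∈ closedBall (0 : ℂ) r := by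
      intro w hw
      rw [mem_closedBall_zero_iff] at hw ⊢
      have hw1 : w ∈ ball (0 : ℂ) 1 := by
        rw [mem_ball_zero_iff]
        linarith
      have h1 := one_sub_norm_ge M'.anB M'.maps hw1
      rw [mob_zero, norm_neg] at h1
      have h2 : (1 - ‖ζ‖) / 4 * (1 - ρ) ≤ (1 - ‖ζ‖) / 4 * (1 - ‖w‖) :=
        mul_le_mul_of_nonneg_left (by linarith) hc.le
      linarith
    have hank : AnalyticOnNhd ℂ (fun w => k.eval (mob (-ζ) w) + η) (closedBall 0 ρ) := by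
      intro w hw
      have hw1 : w ∈ ball (0 : ℂ) 1 := closedBall_subset_ball hρ1 hw
      exact ((analytic_poly k Set.univ _ (Set.mem_univ _)).fun_comp (M'.anB w hw1)).add
        analyticAt_const
    have hcmp : ∀ w ∈ sphere (0 : ℂ) ρ, (q.eval w).re ≤ (k.eval (mob (-ζ) w) + η).re := by
      intro w hw
      have hwn : ‖w‖ = ρ := mem_sphere_zero_iff_norm.1 hw
      have hw1 : ‖w‖ < 1 := by rw [hwn]; exact hρ1
      have h1 := hq.le w hw
      have h2 := hk.ge (mob (-ζ) w) (hin w (sphere_subset_closedBall hw))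
      simp only [mob_mob hζ hw1] at h2
      rw [Complex.add_re, Complex.ofReal_re]
      linarith
    have h3 := re_le_of_sphere hρ0 (analytic_poly q _) hank hcmp (w := ζ) (by
      rw [mem_closedBall_zero_iff]
      exact hρ.le)
    simp only [mob_self, Complex.add_re, Complex.ofReal_re] at h3
    have h4 := hk.zero_le
    linarith
  -- lower bound for `T(r, f ∘ M)`
  have hlow : ∀ᶠ r : ℝ in 𝓝[<] 1, (1 - ‖ζ‖) / 16 * Lr r ≤ charT (fun z => f (mob ζ z)) r := by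
    -- write `r = 1 - c (1 - ρ)`
    have hinv : Tendsto (fun r : ℝ => 1 - ((1 - ‖ζ‖) / 4)⁻¹ * (1 - r)) (𝓝[<] 1) (𝓝[<] 1) :=
      tendsto_rad (inv_pos.2 hc)
    have h1 : ∀ᶠ ρ : ℝ in 𝓝[<] 1, (1 - ‖ζ‖) / 8 * Lr ρ - 2 ≤
        charT (fun z => f (mob ζ z)) (1 - (1 - ‖ζ‖) / 4 * (1 - ρ)) := by
      filter_upwards [key, A.low (1 / 2) (by norm_num), gt_eventually (s := (1 + ‖ζ‖) / 2)
        (by linarith), lt_one_eventually, tendsto_Lr.eventually_ge_atTop 0]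
        with ρ hk1 hk2 hk3 hk4 hk5
      have hρ0 : 0 < ρ := by linarith [norm_nonneg ζ]
      obtain ⟨q, hq⟩ := exists_maj A.basic.anf hρ0 hk4 one_pos
      have h2 := hk1 1 q le_rfl hq
      have hpos : ∀ w ∈ closedBall (0 : ℂ) ρ, 0 ≤ (q.eval w).re := fun w hw =>
        Real.posLog_nonneg.trans (hq.ge w hw)
      have h3 := (harnack (w := ζ) hρ0 (analytic_poly q _) hpos (by
        rw [mem_ball_zero_iff]
        linarith)).1
      rw [sub_zero] at h3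
      have h4 : (1 - ‖ζ‖) / 4 ≤ (ρ - ‖ζ‖) / (ρ + ‖ζ‖) := by
        rw [le_div_iff₀ (by linarith [norm_nonneg ζ])]
        nlinarith [norm_nonneg ζ]
      have h5 := hq.zero_ge
      have h6 : (1 / 2 : ℝ) * Lr ρ ≤ (q.eval 0).re := by
        refine le_trans ?_ (hk2.trans h5)
        have : (0 : ℝ) ≤ l := Nat.cast_nonneg l
        nlinarith
      have h7 : (1 - ‖ζ‖) / 4 * (1 / 2 * Lr ρ) ≤ (ρ - ‖ζ‖) / (ρ + ‖ζ‖) * (q.eval 0).re :=
        mul_le_mul h4 h6 (by positivity) (hc.le.trans h4)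
      linarith
    filter_upwards [hinv.eventually h1, lt_one_eventually,
      const_le_Lr (2 + (1 - ‖ζ‖) / 8 * Real.log (((1 - ‖ζ‖) / 4)⁻¹))
        (show 0 < (1 - ‖ζ‖) / 16 by linarith)] with r hr hr1 hr2
    have e1 : 1 - (1 - ‖ζ‖) / 4 * (1 - (1 - ((1 - ‖ζ‖) / 4)⁻¹ * (1 - r))) = r := by
      rw [sub_sub_cancel, mul_inv_cancel_left₀ hc.ne', sub_sub_cancel]
    rw [e1, Lr_rad (inv_pos.2 hc) hr1] at hr
    nlinarith
  -- the threshold theorem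
  have G := A.comp_alpha M (show 0 < (1 - ‖ζ‖) / 16 by linarith) hlow
  have hup := le_of_alpha_le G.alpha_le (half_pos (half_pos hε))
  have hup2 := (tendsto_rad hc).eventually hup
  filter_upwards [key, hup2, lt_one_eventually, const_le_Lr
    (2 + (l + 1 + ε / 2 / 2) * (-Real.log ((1 - ‖ζ‖) / 4))) (half_pos hε)]
    with ρ h1 h2 h3 h4 η q hη hq
  have h5 := h1 η q hη hq
  rw [Lr_rad hc h3] at h2
  have h6 : 0 ≤ Lr ρ ∨ Lr ρ < 0 := le_or_gt _ _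
  have h7 : (l + 1 + ε / 2 / 2) * (-Real.log ((1 - ‖ζ‖) / 4) + Lr ρ) + 2 ≤
      (l + 1 + ε / 2 / 2) * Lr ρ + ε / 2 * Lr ρ := by
    rw [mul_add]
    linarith
  have h8 : 0 ≤ Lr ρ := by
    have h9 : 0 ≤ -Real.log ((1 - ‖ζ‖) / 4) := by
      have := Real.log_nonpos hc.le hc1
      linarith
    have h10 : 0 ≤ 2 + (l + 1 + ε / 2 / 2) * (-Real.log ((1 - ‖ζ‖) / 4)) := by positivity
    have h11 := h10.trans h4
    exact nonneg_of_mul_nonneg_right h11 (half_pos hε)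
  calc (q.eval ζ).re ≤ charT (fun z => f (mob ζ z)) (1 - (1 - ‖ζ‖) / 4 * (1 - ρ)) + 2 := h5
    _ ≤ (l + 1 + ε / 2 / 2) * (-Real.log ((1 - ‖ζ‖) / 4) + Lr ρ) + 2 := by linarith
    _ ≤ (l + 1 + ε / 2 / 2) * Lr ρ + ε / 2 * Lr ρ := h7
    _ ≤ (l + 1 + ε) * Lr ρ := by nlinarith

end Pool.Agent.Helper53.QF
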