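import Mathlib

/-!
# Real parts of polynomials approximate continuous functions on a circle

For `u` continuous on `|w| = ρ` and `η > 0` there is a polynomial `q` with `u ≤ Re q ≤ u + η` on `|w| = ρ` (trigonometric
polynomials are dense, and the real part of a trigonometric polynomial is the real part of a polynomial in `w`).
-/

set_option autoImplicit false

open Filter Topology Metric Complex Polynomial
open scoped Real ComplexConjugate

namespace Pool.Agent.Helper53.QF

/-- Trigonometric polynomials, in the variable `w = ρ e^(2π i x)`, are `q₁(w) + conj (q₂(w))`. -/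
private theorem fourier_span {ρ : ℝ} (hρ : 0 < ρ) (p : C(AddCircle (1 : ℝ), ℂ))
    (hp : p ∈ Submodule.span ℂ (Set.range (@fourier 1))) :
    ∃ q₁ q₂ : Polynomial ℂ, ∀ x : ℝ, p (x : AddCircle (1 : ℝ)) =
      q₁.eval (ρ * cexp (2 * π * I * x)) + conj (q₂.eval (ρ * cexp (2 * π * I * x))) := by
  induction hp using Submodule.span_induction with
  | mem p hp =>
    obtain ⟨n, rfl⟩ := hp
    have hρ' : (ρ : ℂ) ≠ 0 := by exact_mod_cast hρ.ne'
    rcases le_or_gt 0 n with hn | hn
    · obtain ⟨m, rfl⟩ := Int.eq_ofNat_of_zero_le hn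
      refine ⟨C ((ρ : ℂ) ^ m)⁻¹ * X ^ m, 0, fun x => ?_⟩
      rw [fourier_coe_apply]
      simp only [eval_mul, eval_C, eval_pow, eval_X, eval_zero, map_zero, add_zero]
      rw [mul_pow, ← mul_assoc, inv_mul_cancel₀ (pow_ne_zero _ hρ'), one_mul, ← Complex.exp_nat_mul]
      congr 1
      push_cast
      ring
    · obtain ⟨m, hm⟩ := Int.eq_ofNat_of_zero_le (show 0 ≤ -n by omega)
      refine ⟨0, C ((ρ : ℂ) ^ m)⁻¹ * X ^ m, fun x => ?_⟩
      rw [fourier_coe_apply]
      simp only [eval_mul, eval_C, eval_pow, eval_X, eval_zero, zero_add]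
      rw [mul_pow, ← mul_assoc, inv_mul_cancel₀ (pow_ne_zero _ hρ'), one_mul, ← Complex.exp_nat_mul,
        ← Complex.exp_conj]
      congr 1
      have h1 : (n : ℂ) = -(m : ℂ) := by
        have h2 : n = -(m : ℤ) := by omega
        rw [h2]
        push_cast
        ring
      rw [h1]
      simp only [map_mul, Complex.conj_natCast, Complex.conj_I, Complex.conj_ofReal]
      have h3 : conj (2 : ℂ) = 2 := by
        rw [← Complex.ofReal_ofNat, Complex.conj_ofReal]
      rw [h3]
      push_cast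
      ring
  | zero => exact ⟨0, 0, fun x => by simp⟩
  | add p p' _ _ h h' =>
    obtain ⟨q₁, q₂, hq⟩ := h
    obtain ⟨q₁', q₂', hq'⟩ := h'
    refine ⟨q₁ + q₁', q₂ + q₂', fun x => ?_⟩
    rw [ContinuousMap.add_apply, hq x, hq' x]
    simp only [eval_add, map_add]
    ring
  | smul c p _ h =>
    obtain ⟨q₁, q₂, hq⟩ := h
    refine ⟨C c * q₁, C (conj c) * q₂, fun x => ?_⟩
    rw [ContinuousMap.smul_apply, hq x]
    simp only [eval_mul, eval_C, map_mul, Complex.conj_conj, smul_eq_mul]
    ring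

/-- **Approximation by real parts of polynomials.** -/
theorem exists_poly {u : ℂ → ℝ} {ρ : ℝ} (hρ : 0 < ρ) (hu : ContinuousOn u (sphere 0 ρ)) {η : ℝ}
    (hη : 0 < η) : ∃ q : Polynomial ℂ, ∀ w ∈ sphere (0 : ℂ) ρ,
      u w ≤ (q.eval w).re ∧ (q.eval w).re ≤ u w + η := by
  have : Fact ((0 : ℝ) < 1) := ⟨one_pos⟩
  -- the function on the circle
  have hsph : ∀ x : ℝ, (ρ : ℂ) * cexp (2 * π * I * x) ∈ sphere (0 : ℂ) ρ := by
    intro x
    rw [mem_sphere_zero_iff_norm, norm_mul, Complex.norm_real, Real.norm_eq_abs, abs_of_pos hρ]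
    have h1 : cexp (2 * π * I * x) = cexp ((2 * π * x : ℝ) * I) := by
      congr 1
      push_cast
      ring
    rw [h1, Complex.norm_exp_ofReal_mul_I, mul_one]
  have hcont : Continuous fun x : ℝ => u (ρ * cexp (2 * π * I * x)) :=
    hu.comp_continuous (by fun_prop) hsph
  have hper : Function.Periodic (fun x : ℝ => u (ρ * cexp (2 * π * I * x))) 1 := by
    intro x
    have h1 : cexp (2 * π * I * ((x + 1 : ℝ) : ℂ)) = cexp (2 * π * I * x) := by
      have h2 : (2 * π * I * ((x + 1 : ℝ) : ℂ)) = 2 * π * I * x + 2 * π * I := by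
        push_cast
        ring
      rw [h2, Complex.exp_add, Complex.exp_two_pi_mul_I, mul_one]
    simp only [h1]
  set g : AddCircle (1 : ℝ) → ℝ := hper.lift with hg
  have hgx : ∀ x : ℝ, g (x : AddCircle (1 : ℝ)) = u (ρ * cexp (2 * π * I * x)) := fun x =>
    hper.lift_coe x
  have hgc : Continuous g := by
    refine continuous_coinduced_dom.2 ?_
    exact hcont
  let G : C(AddCircle (1 : ℝ), ℂ) := ⟨fun t => ((g t + η / 2 : ℝ) : ℂ),
    Complex.continuous_ofReal.comp (hgc.add continuous_const)⟩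
  have hmem : G ∈ (Submodule.span ℂ (Set.range (@fourier 1))).topologicalClosure := by
    rw [span_fourier_closure_eq_top]
    trivial
  have hcl : G ∈ closure ((Submodule.span ℂ (Set.range (@fourier 1)) : Submodule ℂ _) : Set _) := hmem
  rw [Metric.mem_closure_iff] at hcl
  obtain ⟨p, hp, hpG⟩ := hcl (η / 2) (by linarith)
  obtain ⟨q₁, q₂, hq⟩ := fourier_span hρ p hp
  refine ⟨q₁ + q₂, fun w hw => ?_⟩
  -- parametrise w
  have hwn : ‖w‖ = ρ := mem_sphere_zero_iff_norm.1 hw
  set x : ℝ := arg w / (2 * π) with hx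
  have hwx : (ρ : ℂ) * cexp (2 * π * I * x) = w := by
    have h1 := Complex.norm_mul_exp_arg_mul_I w
    rw [hwn] at h1
    rw [← h1]
    congr 2
    rw [hx]
    have hpi : (π : ℂ) ≠ 0 := by exact_mod_cast Real.pi_ne_zero
    push_cast
    field_simp
  have h2 := hq x
  rw [hwx] at h2
  have h3 : dist (G (x : AddCircle (1 : ℝ))) (p (x : AddCircle (1 : ℝ))) < η / 2 :=
    lt_of_le_of_lt (ContinuousMap.dist_apply_le_dist _) hpG
  rw [Complex.dist_eq] at h3
  have h4 := (Complex.abs_re_le_norm _).trans_lt h3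
  rw [Complex.sub_re, h2] at h4
  have h5 : (G (x : AddCircle (1 : ℝ))).re = u w + η / 2 := by
    show (((g (x : AddCircle (1 : ℝ)) + η / 2 : ℝ) : ℂ)).re = _
    rw [Complex.ofReal_re, hgx, hwx]
  rw [h5, Complex.add_re, Complex.conj_re, abs_lt] at h4
  rw [eval_add, Complex.add_re]
  constructor
  · linarith [h4.2]
  · linarith [h4.1]

end Pool.Agent.Helper53.QF
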