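import Pool.Agent.Helper53.QF.RedMaj
import Pool.Agent.Helper53.QF.RedChain
import Pool.Agent.Helper53.QF.RedGen

/-!
# Composition with an analytic self-map of the disc

`B : D → D` analytic, `g = 1/B'`. `1 - |B z| ≥ c (1 - |z|)`; `T(r, P ∘ B) ≤ K (T(ρ, P) + 1)`, `1 - ρ = c (1 - r)`; and `GData` for
`f ∘ B`, `Ψ ∘ B`, `P ∘ B`.
-/

set_option autoImplicit false

open Filter Topology Metric Complex Polynomial

namespace Pool.Agent.Helper53.QF

open Pool.Agent.Helper61.Nev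

/-- An analytic self-map of the disc with `g = 1/B'` in an algebra of bounded functions. -/
structure SelfMap (B g C : ℂ → ℂ) : Prop where
  anB : AnalyticOnNhd ℂ B (ball 0 1)
  maps : ∀ z ∈ ball (0 : ℂ) 1, B z ∈ ball (0 : ℂ) 1
  anC : AnalyticOnNhd ℂ C (ball 0 1)
  bdC : ∃ M : ℝ, ∀ z ∈ ball (0 : ℂ) 1, ‖C z‖ ≤ M
  gAlg : InAlg C g
  gCAlg : InAlg C fun z => g z * deriv C z
  inv : ∀ z ∈ ball (0 : ℂ) 1, g z * deriv B z = 1

namespace SelfMap

variable {B g C : ℂ → ℂ}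

theorem g_ne (M : SelfMap B g C) {z : ℂ} (hz : z ∈ ball (0 : ℂ) 1) : g z ≠ 0 := by
  intro h
  have := M.inv z hz
  rw [h, zero_mul] at this
  exact zero_ne_one this

theorem deriv_ne (M : SelfMap B g C) {z : ℂ} (hz : z ∈ ball (0 : ℂ) 1) : deriv B z ≠ 0 := by
  intro h
  have := M.inv z hz
  rw [h, mul_zero] at this
  exact zero_ne_one this

theorem cf_alg (M : SelfMap B g C) (j ν : ℕ) : InAlg C (cf g j ν) :=
  cf_inAlg M.anC M.gAlg M.gCAlg j ν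

theorem an_comp (M : SelfMap B g C) {f : ℂ → ℂ} (hf : AnalyticOnNhd ℂ f (ball 0 1)) :
    AnalyticOnNhd ℂ (fun z => f (B z)) (ball 0 1) := fun z hz =>
  (hf (B z) (M.maps z hz)).fun_comp (M.anB z hz)

theorem nhds (M : SelfMap B g C) {Q : ℂ → Prop} (h : ∀ z ∈ ball (0 : ℂ) 1, Q (B z)) :
    ∀ᶠ w in 𝓝 (B 0), Q w := by
  have h0 : (0 : ℂ) ∈ ball (0 : ℂ) 1 := mem_ball_self one_pos
  have h1 : HasStrictDerivAt B (deriv B 0) 0 := (M.anB 0 h0).hasStrictDerivAt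
  rw [← h1.map_nhds_eq (M.deriv_ne h0), Filter.eventually_map]
  filter_upwards [isOpen_ball.mem_nhds h0] with z hz
  exact h z hz

/-- `Q ∘ B` takes two values if `Q` does. -/
theorem nonconst (M : SelfMap B g C) {Q : ℂ → ℂ} (hQ : AnalyticOnNhd ℂ Q (ball 0 1))
    (h : ∃ z ∈ ball (0 : ℂ) 1, ∃ w ∈ ball (0 : ℂ) 1, Q z ≠ Q w) :
    ∃ z ∈ ball (0 : ℂ) 1, ∃ w ∈ ball (0 : ℂ) 1, Q (B z) ≠ Q (B w) := by
  by_contra hcon
  push Not at hcon
  have h0 : (0 : ℂ) ∈ ball (0 : ℂ) 1 := mem_ball_self one_pos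
  have h1 := M.nhds (Q := fun w => Q w = Q (B 0)) fun z hz => hcon z hz 0 h0
  have h2 := hQ.eqOn_of_preconnected_of_eventuallyEq (g := fun _ => Q (B 0)) analyticOnNhd_const
    (convex_ball (0 : ℂ) 1).isPreconnected (M.maps 0 h0) h1
  obtain ⟨z, hz, w, hw, hne⟩ := h
  exact hne ((h2 hz).trans (h2 hw).symm)

theorem exists_ne (M : SelfMap B g C) {Q : ℂ → ℂ} (hQ : AnalyticOnNhd ℂ Q (ball 0 1))
    (h : ∃ z ∈ ball (0 : ℂ) 1, Q z ≠ 0) : ∃ z ∈ ball (0 : ℂ) 1, Q (B z) ≠ 0 := by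
  by_contra hcon
  push Not at hcon
  have h0 : (0 : ℂ) ∈ ball (0 : ℂ) 1 := mem_ball_self one_pos
  have h1 := M.nhds (Q := fun w => Q w = 0) fun z hz => hcon z hz
  have h2 := hQ.eqOn_of_preconnected_of_eventuallyEq (g := fun _ => 0) analyticOnNhd_const
    (convex_ball (0 : ℂ) 1).isPreconnected (M.maps 0 h0) h1
  obtain ⟨z, hz, hne⟩ := h
  exact hne (h2 hz)

/-- The composition is again of the general form. -/
theorem gdata (M : SelfMap B g C) {l : ℕ} {f Ψ P : ℂ → ℂ} (D : Basic l f Ψ P)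
    (hsmall : ∀ ε : ℝ, 0 < ε → ∀ K : ℝ, ∀ᶠ r : ℝ in 𝓝[<] 1,
      charT (fun z => P (B z)) r + K ≤ ε * charT (fun z => f (B z)) r)
    (halpha : alpha (fun z => f (B z)) < ⊤) :
    GData l (fun z => f (B z)) (fun z => Ψ (B z)) (fun z => P (B z)) (fun ν => cf g l ν) where
  anf := M.an_comp D.anf
  anΨ := M.an_comp D.anΨ
  anP := M.an_comp D.anP
  anc := fun ν _ => (M.cf_alg l ν).analytic M.anC
  bdc := fun ν _ => (M.cf_alg l ν).bounded M.bdC
  c_ne := ⟨0, mem_ball_self one_pos, by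
    rw [cf_self]
    exact pow_ne_zero _ (M.g_ne (mem_ball_self one_pos))⟩
  f_ne := fun z hz => D.f_ne _ (M.maps z hz)
  Ψ_ne := fun z hz => D.Ψ_ne _ (M.maps z hz)
  eq := fun z hz => by
    rw [← chain M.anB M.maps M.inv D.anf (fun j ν => (M.cf_alg j ν).analytic M.anC) l z hz]
    exact D.eq _ (M.maps z hz)
  Ψ_nc := M.nonconst D.anΨ D.Ψ_nc
  P_ne := M.exists_ne D.anP D.P_ne
  small := hsmall
  alpha_lt := halpha

end SelfMap

/-- A weak form of the Schwarz–Pick lemma. -/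
theorem one_sub_norm_ge {B : ℂ → ℂ} (hB : AnalyticOnNhd ℂ B (ball 0 1))
    (hmap : ∀ z ∈ ball (0 : ℂ) 1, B z ∈ ball (0 : ℂ) 1) {z : ℂ} (hz : z ∈ ball (0 : ℂ) 1) :
    (1 - ‖B 0‖) / 4 * (1 - ‖z‖) ≤ 1 - ‖B z‖ := by
  have hz1 : ‖z‖ < 1 := mem_ball_zero_iff.1 hz
  have hB0 : ‖B 0‖ < 1 := mem_ball_zero_iff.1 (hmap 0 (mem_ball_self one_pos))
  -- a unimodular `u` with `u B(z) = |B(z)|`
  obtain ⟨u, hu, huB⟩ : ∃ u : ℂ, ‖u‖ = 1 ∧ u * B z = ‖B z‖ := by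
    rcases eq_or_ne (B z) 0 with h | h
    · exact ⟨1, norm_one, by rw [h]; simp⟩
    · refine ⟨(‖B z‖ : ℂ) / B z, ?_, div_mul_cancel₀ _ h⟩
      rw [norm_div, Complex.norm_real, norm_norm, div_self (norm_ne_zero_iff.2 h)]
  set R : ℝ := (1 + ‖z‖) / 2 with hR
  have hR0 : 0 < R := by positivity
  have hR1 : R < 1 := by linarith
  have hsub : closedBall (0 : ℂ) R ⊆ ball 0 1 := closedBall_subset_ball hR1
  have hq : AnalyticOnNhd ℂ (fun w => 1 - u * B w) (closedBall 0 R) :=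
    analyticOnNhd_const.sub (analyticOnNhd_const.mul (hB.mono hsub))
  have hre : ∀ w ∈ ball (0 : ℂ) 1, 1 - ‖B w‖ ≤ (1 - u * B w).re := by
    intro w _
    rw [Complex.sub_re, Complex.one_re]
    have h1 : (u * B w).re ≤ ‖u * B w‖ := Complex.re_le_norm _
    rw [norm_mul, hu, one_mul] at h1
    linarith
  have h0 : ∀ w ∈ closedBall (0 : ℂ) R, 0 ≤ (1 - u * B w).re := by
    intro w hw
    have h1 := hre w (hsub hw)
    have h2 : ‖B w‖ < 1 := mem_ball_zero_iff.1 (hmap w (hsub hw))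
    linarith
  have hzR : z ∈ ball (0 : ℂ) R := by
    rw [mem_ball_zero_iff]
    linarith
  have h3 := (harnack hR0 hq h0 hzR).1
  have h4 := hre 0 (mem_ball_self one_pos)
  rw [sub_zero] at h3
  have h5 : (1 - u * B z).re = 1 - ‖B z‖ := by
    rw [huB, Complex.sub_re, Complex.one_re, Complex.ofReal_re]
  simp only [h5] at h3
  refine le_trans ?_ h3
  have h6 : (1 - ‖z‖) / 4 ≤ (R - ‖z‖) / (R + ‖z‖) := by
    rw [le_div_iff₀ (by positivity)]
    rw [hR]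
    nlinarith [norm_nonneg z]
  calc (1 - ‖B 0‖) / 4 * (1 - ‖z‖) = (1 - ‖z‖) / 4 * (1 - ‖B 0‖) := by ring
    _ ≤ (R - ‖z‖) / (R + ‖z‖) * (1 - u * B 0).re :=
        mul_le_mul h6 h4 (by linarith) (div_nonneg (by linarith) (by positivity))

/-- The mean of `Re q ∘ B`. -/
theorem mean_comp {B : ℂ → ℂ} (hB : AnalyticOnNhd ℂ B (ball 0 1)) (q : Polynomial ℂ) {r : ℝ}
    (hr0 : 0 < r) (hr1 : r < 1) :
    Real.circleAverage (fun z => (q.eval (B z)).re) 0 r = (q.eval (B 0)).re := by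
  have h1 : AnalyticOnNhd ℂ (fun z => q.eval (B z)) (closedBall 0 r) := fun z hz =>
    (analytic_poly q Set.univ (B z) (Set.mem_univ _)).fun_comp
      (hB z (closedBall_subset_ball hr1 hz))
  exact mean_re hr0 h1

/-- Subordination. -/
theorem charT_comp_le {B P : ℂ → ℂ} (hB : AnalyticOnNhd ℂ B (ball 0 1))
    (hmap : ∀ z ∈ ball (0 : ℂ) 1, B z ∈ ball (0 : ℂ) 1) (hP : AnalyticOnNhd ℂ P (ball 0 1))
    {r ρ : ℝ} (hr0 : 0 < r) (hr1 : r < 1) (hρ : ρ = 1 - (1 - ‖B 0‖) / 4 * (1 - r)) :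
    charT (fun z => P (B z)) r ≤ 8 / (1 - ‖B 0‖) * (charT P ρ + 1) := by
  have hB0 : ‖B 0‖ < 1 := mem_ball_zero_iff.1 (hmap 0 (mem_ball_self one_pos))
  have hc : 0 < (1 - ‖B 0‖) / 4 := by linarith
  have hρ1 : ρ < 1 := by
    rw [hρ]
    have : 0 < (1 - ‖B 0‖) / 4 * (1 - r) := mul_pos hc (by linarith)
    linarith
  have hBρ : ‖B 0‖ < ρ - (1 - ‖B 0‖) / 2 := by
    rw [hρ]
    nlinarith [norm_nonneg (B 0)]
  have hρ0 : 0 < ρ := by linarith [norm_nonneg (B 0)]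
  obtain ⟨q, hq⟩ := exists_maj hP hρ0 hρ1 one_pos
  have han : AnalyticOnNhd ℂ (fun z => P (B z)) (ball 0 1) := fun z hz =>
    (hP (B z) (hmap z hz)).fun_comp (hB z hz)
  have hin : ∀ z ∈ sphere (0 : ℂ) r, B z ∈ closedBall (0 : ℂ) ρ := by
    intro z hz
    have hzn : ‖z‖ = r := mem_sphere_zero_iff_norm.1 hz
    have hz1 : z ∈ ball (0 : ℂ) 1 := by
      rw [mem_ball_zero_iff, hzn]
      exact hr1
    have h1 := one_sub_norm_ge hB hmap hz1
    rw [hzn] at h1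
    rw [mem_closedBall_zero_iff, hρ]
    linarith
  have h1 : charT (fun z => P (B z)) r ≤ (q.eval (B 0)).re := by
    rw [Pool.Agent.Helper61.Lac.charT_eq hr1 han, ← mean_comp hB q hr0 hr1]
    refine Real.circleAverage_mono (Pool.Agent.Helper61.Lac.circleIntegrable_of_cont hr0.le hr1
      (Pool.Agent.Helper61.Lac.continuousOn_posLog_norm han.continuousOn)) ?_ ?_
    · refine Pool.Agent.Helper61.Lac.circleIntegrable_of_cont hr0.le hr1 ?_
      exact (Complex.continuous_re.comp q.continuous).comp_continuousOn hB.continuousOn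
    · intro z hz
      rw [abs_of_pos hr0] at hz
      exact hq.ge _ (hin z hz)
  have hpos : ∀ w ∈ closedBall (0 : ℂ) ρ, 0 ≤ (q.eval w).re := fun w hw =>
    Real.posLog_nonneg.trans (hq.ge w hw)
  have h2 := (harnack (w := B 0) hρ0 (analytic_poly q _) hpos (by
    rw [mem_ball_zero_iff]
    linarith)).2
  rw [sub_zero] at h2
  have h3 : (ρ + ‖B 0‖) / (ρ - ‖B 0‖) ≤ 8 / (1 - ‖B 0‖) := by
    rw [div_le_div_iff₀ (by linarith) (by linarith)]
    nlinarith [norm_nonneg (B 0)]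
  have h4 : 0 ≤ (q.eval 0).re := hpos 0 (by
    rw [mem_closedBall_zero_iff, norm_zero]
    exact hρ0.le)
  calc charT (fun z => P (B z)) r ≤ (q.eval (B 0)).re := h1
    _ ≤ (ρ + ‖B 0‖) / (ρ - ‖B 0‖) * (q.eval 0).re := h2
    _ ≤ 8 / (1 - ‖B 0‖) * (q.eval 0).re := mul_le_mul_of_nonneg_right h3 h4
    _ ≤ 8 / (1 - ‖B 0‖) * (charT P ρ + 1) :=
        mul_le_mul_of_nonneg_left hq.zero_le (div_nonneg (by norm_num) (by linarith))

end Pool.Agent.Helper53.QF
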