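import Pool.Agent.Helper53.QF.RedAnn
import Pool.Agent.Helper53.QF.RedHarm

/-!
# Upper bound for `T(r, f ∘ B)`

`v = log⁺ |f|`, `Re q` its least harmonic majorant on `|w| ≤ ρ`. On `|z| = r`:
`v(B z) ≤ Re q(B z) - (σ(z) - δ) ((l+1-ε) L(ρ) - C_δ)`, because `v(B z) ≤ C_δ` and `Re q(B z) ≥ (l+1-ε) L(ρ)` where `σ ≥ δ`.
Integrate; the mean of `σ` is `α/π`.
-/

set_option autoImplicit false

open Filter Topology Metric Complex Polynomial
open scoped Real

namespace Pool.Agent.Helper53.QF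

open Pool.Agent.Helper61.Nev

variable {l : ℕ} {f Ψ P : ℂ → ℂ} {α : ℝ}

theorem norm_BB_zero (α : ℝ) : ‖BB α 0‖ = Real.exp (-α) := by
  rw [norm_BB, sg_zero, mul_div_cancel₀ _ Real.pi_ne_zero]

theorem continuousOn_sg (α : ℝ) : ContinuousOn (sg α) (ball 0 1) := by
  have h1 : sg α = fun z => (SS α z).re := by
    funext z
    rw [SS_re]
  rw [h1]
  exact Complex.continuous_re.comp_continuousOn (analytic_SS α).continuousOn

theorem mean_sg (α : ℝ) {r : ℝ} (hr0 : 0 < r) (hr1 : r < 1) :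
    Real.circleAverage (sg α) 0 r = α / π := by
  have h1 := mean_re hr0 ((analytic_SS α).mono (closedBall_subset_ball hr1))
  rw [SS_re, sg_zero] at h1
  rw [← h1]
  congr 1
  funext z
  rw [SS_re]

/-- One radius. -/
theorem up_step (h0 : 0 < α) (h1 : α < π) (hf : AnalyticOnNhd ℂ f (ball 0 1)) {r ρ : ℝ}
    (hr0 : 0 < r) (hr1 : r < 1) (hρ : ρ = 1 - (1 - ‖BB α 0‖) / 4 * (1 - r)) {q : Polynomial ℂ}
    {η : ℝ} (hq : Maj f ρ η q) {δ Cδ Λ : ℝ} (hδ : 0 ≤ δ)
    (hC : ∀ w ∈ closedBall (0 : ℂ) (Real.exp (-(π * δ))), Real.posLog ‖f w‖ ≤ Cδ)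
    (hΛ : ∀ w ∈ closedBall (0 : ℂ) (Real.exp (-(π * δ))), Λ ≤ (q.eval w).re) (hCΛ : Cδ ≤ Λ) :
    charT (fun z => f (BB α z)) r ≤ (q.eval (BB α 0)).re - (α / π - δ) * (Λ - Cδ) := by
  have M := selfMap_BB h0 h1
  have han : AnalyticOnNhd ℂ (fun z => f (BB α z)) (ball 0 1) := M.an_comp hf
  have hi1 : CircleIntegrable (fun z => Real.posLog ‖f (BB α z)‖) 0 r :=
    Pool.Agent.Helper61.Lac.circleIntegrable_of_cont hr0.le hr1
      (Pool.Agent.Helper61.Lac.continuousOn_posLog_norm han.continuousOn)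
  have hi2 : CircleIntegrable (fun z => (q.eval (BB α z)).re) 0 r :=
    Pool.Agent.Helper61.Lac.circleIntegrable_of_cont hr0.le hr1
      ((Complex.continuous_re.comp q.continuous).comp_continuousOn M.anB.continuousOn)
  have hi3 : CircleIntegrable (sg α) 0 r :=
    Pool.Agent.Helper61.Lac.circleIntegrable_of_cont hr0.le hr1 (continuousOn_sg α)
  have hi4 : CircleIntegrable (fun z => (Λ - Cδ) * sg α z) 0 r := hi3.const_mul (Λ - Cδ)
  have hi5 : CircleIntegrable (fun _ : ℂ => (Λ - Cδ) * δ) 0 r := circleIntegrable_const _ _ _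
  have key : ∀ z ∈ sphere (0 : ℂ) |r|, Real.posLog ‖f (BB α z)‖ ≤
      (q.eval (BB α z)).re - (Λ - Cδ) * sg α z + (Λ - Cδ) * δ := by
    intro z hz
    rw [abs_of_pos hr0] at hz
    have hzn : ‖z‖ = r := mem_sphere_zero_iff_norm.1 hz
    have hz1 : z ∈ ball (0 : ℂ) 1 := by
      rw [mem_ball_zero_iff, hzn]
      exact hr1
    have hs := sg_mem h0 h1 (z := z) (by rw [hzn]; exact hr1)
    have h2 := one_sub_norm_ge M.anB M.maps hz1
    rw [hzn] at h2
    have hin : BB α z ∈ closedBall (0 : ℂ) ρ := by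
      rw [mem_closedBall_zero_iff, hρ]
      linarith
    have h3 := hq.ge _ hin
    rcases le_or_gt δ (sg α z) with h4 | h4
    · have hin2 : BB α z ∈ closedBall (0 : ℂ) (Real.exp (-(π * δ))) := by
        rw [mem_closedBall_zero_iff, norm_BB, Real.exp_le_exp]
        nlinarith [Real.pi_pos]
      have h5 := hC _ hin2
      have h6 := hΛ _ hin2
      have h7 : (Λ - Cδ) * (sg α z - δ) ≤ (Λ - Cδ) * 1 :=
        mul_le_mul_of_nonneg_left (by linarith [hs.2]) (by linarith)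
      linarith
    · have h7 : 0 ≤ (Λ - Cδ) * (δ - sg α z) := mul_nonneg (by linarith) (by linarith)
      linarith
  rw [Pool.Agent.Helper61.Lac.charT_eq hr1 han]
  refine (Real.circleAverage_mono hi1 ((hi2.sub hi4).add hi5) key).trans (le_of_eq ?_)
  have e1 : Real.circleAverage (fun z => (q.eval (BB α z)).re - (Λ - Cδ) * sg α z +
      (Λ - Cδ) * δ) 0 r = Real.circleAverage (fun z => (q.eval (BB α z)).re) 0 r -
      (Λ - Cδ) * Real.circleAverage (sg α) 0 r + (Λ - Cδ) * δ := by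
    have e2 := Real.circleAverage_fun_add (hi2.sub hi4) hi5
    have e3 := Real.circleAverage_fun_sub hi2 hi4
    have e4 := Real.circleAverage_fun_smul (a := Λ - Cδ) (f := sg α) (c := 0) (R := r)
    simp only [smul_eq_mul] at e4
    rw [Real.circleAverage_const] at e2
    rw [e4] at e3
    rw [← e3]
    exact e2
  have e5 : Real.circleAverage (fun z => (q.eval (BB α z)).re - (Λ - Cδ) * sg α z +
      (Λ - Cδ) * δ) 0 r = (q.eval (BB α 0)).re - (Λ - Cδ) * (α / π) + (Λ - Cδ) * δ := by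
    rw [e1, mean_comp M.anB q hr0 hr1, mean_sg α hr0 hr1]
  refine (show _ = _ from e5).trans ?_
  ring

private theorem up_BB_aux (A : Asym l f Ψ P) (h0 : 0 < α) (h1 : α < π) {ε : ℝ} (hε : 0 < ε)
    (hε4 : ε ≤ 4) :
    ∀ᶠ r : ℝ in 𝓝[<] 1, charT (fun z => f (BB α z)) r ≤
      ((l + 1) * (1 - α / π) + ε) * Lr r := by
  have hl : (0 : ℝ) ≤ l := Nat.cast_nonneg l
  have hpi := Real.pi_pos
  have M := selfMap_BB h0 h1
  have hB0 : ‖BB α 0‖ < 1 := mem_ball_zero_iff.1 (M.maps 0 (mem_ball_self one_pos))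
  have hc : 0 < (1 - ‖BB α 0‖) / 4 := by linarith
  have hc1 : (1 - ‖BB α 0‖) / 4 ≤ 1 := by linarith [norm_nonneg (BB α 0)]
  set k : ℝ := α / π with hk
  have hk0 : 0 < k := div_pos h0 hpi
  have hk1 : k < 1 := (div_lt_one hpi).2 h1
  set δ : ℝ := ε / (8 * (l + 1)) with hδ
  have hδ0 : 0 < δ := by positivity
  have hδ1 : (l + 1) * δ = ε / 8 := by
    rw [hδ]
    field_simp
  set s : ℝ := Real.exp (-(π * δ)) with hs
  have hs1 : s < 1 := by
    rw [hs, Real.exp_lt_one_iff]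
    have := mul_pos hpi hδ0
    linarith
  have hs0 : 0 < s := Real.exp_pos _
  -- the bound on the compact disc
  obtain ⟨C, hC0, hC⟩ : ∃ C : ℝ, 0 ≤ C ∧ ∀ w ∈ closedBall (0 : ℂ) s, Real.posLog ‖f w‖ ≤ C := by
    have hcont : ContinuousOn (fun z => Real.posLog ‖f z‖) (closedBall (0 : ℂ) s) :=
      (Pool.Agent.Helper61.Lac.continuousOn_posLog_norm A.basic.anf.continuousOn).mono
        (closedBall_subset_ball hs1)
    obtain ⟨C, hC⟩ := (isCompact_closedBall (0 : ℂ) s).exists_bound_of_continuousOn hcont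
    refine ⟨max C 0, le_max_right _ _, fun w hw => ?_⟩
    exact ((le_abs_self _).trans (hC w hw)).trans (le_max_left _ _)
  have hε8 : 0 < ε / 8 := by linarith
  have hrad := tendsto_rad hc
  have e1 := hrad.eventually (A.le_maj hs0.le hs1 hε8)
  have e2 := hrad.eventually (A.maj_le hB0 hε8)
  have e3 := hrad.eventually (tendsto_Lr.eventually_ge_atTop 0)
  have e4 := hrad.eventually (const_le_Lr C (show (0 : ℝ) < 1 / 2 by norm_num))
  have e5 : ∀ᶠ r : ℝ in 𝓝[<] 1, C + ((l + 1) * (1 - k) + ε / 2) *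
      (-Real.log ((1 - ‖BB α 0‖) / 4)) ≤ ε / 2 * Lr r := const_le_Lr _ (half_pos hε)
  filter_upwards [e1, e2, e3, e4, e5, Pool.Agent.Helper61.Lac.eventually_pos_lt_one,
    hrad.eventually (gt_eventually hs1), hrad.eventually lt_one_eventually]
    with r e1 e2 e3 e4 e5 hr hρ0 hρ1
  set ρ : ℝ := 1 - (1 - ‖BB α 0‖) / 4 * (1 - r) with hρ
  have hρpos : 0 < ρ := hs0.trans hρ0
  obtain ⟨q, hq⟩ := exists_maj A.basic.anf hρpos hρ1 one_pos
  have g1 := e1 1 q le_rfl hq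
  have g2 := e2 1 q le_rfl hq (BB α 0) (by
    rw [mem_closedBall_zero_iff])
  have hCΛ : C ≤ (l + 1 - ε / 8) * Lr ρ ∨ (l + 1 - ε / 8) * Lr ρ < C := le_or_gt _ _
  have hLρ : Lr ρ = -Real.log ((1 - ‖BB α 0‖) / 4) + Lr r := Lr_rad hc hr.2
  have hlog : 0 ≤ -Real.log ((1 - ‖BB α 0‖) / 4) := by
    have := Real.log_nonpos hc.le hc1
    linarith
  have hmain : charT (fun z => f (BB α z)) r ≤
      ((l + 1) * (1 - k) + ε / 2) * Lr ρ + C := by
    · have hCΛ : C ≤ (l + 1 - ε / 8) * Lr ρ := by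
        have : (1 / 2 : ℝ) * Lr ρ ≤ (l + 1 - ε / 8) * Lr ρ :=
          mul_le_mul_of_nonneg_right (by linarith) e3
        linarith
      have h2 := up_step h0 h1 A.basic.anf hr.1 hr.2 hρ hq hδ0.le hC g1 hCΛ
      have h3 : (k - δ) * C ≤ C := by
        have : (k - δ) * C ≤ 1 * C := mul_le_mul_of_nonneg_right (by linarith) hC0
        linarith
      have h4 : (l + 1 + ε / 8) * Lr ρ - (k - δ) * ((l + 1 - ε / 8) * Lr ρ) ≤
          ((l + 1) * (1 - k) + ε / 2) * Lr ρ := by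
        have h5 : (l + 1 + ε / 8) - (k - δ) * (l + 1 - ε / 8) ≤ (l + 1) * (1 - k) + ε / 2 := by
          have h6 : k * (ε / 8) ≤ ε / 8 := by nlinarith
          have h7 : 0 ≤ δ * (ε / 8) := by positivity
          nlinarith
        calc (l + 1 + ε / 8) * Lr ρ - (k - δ) * ((l + 1 - ε / 8) * Lr ρ) =
              ((l + 1 + ε / 8) - (k - δ) * (l + 1 - ε / 8)) * Lr ρ := by ring
          _ ≤ _ := mul_le_mul_of_nonneg_right h5 e3
      have h6 : (k - δ) * ((l + 1 - ε / 8) * Lr ρ - C) =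
          (k - δ) * ((l + 1 - ε / 8) * Lr ρ) - (k - δ) * C := by ring
      rw [← hk] at h2
      linarith
  rw [hLρ] at hmain
  nlinarith

/-- **Upper bound.** -/
theorem Asym.up_BB (A : Asym l f Ψ P) (h0 : 0 < α) (h1 : α < π) {ε : ℝ} (hε : 0 < ε) :
    ∀ᶠ r : ℝ in 𝓝[<] 1, charT (fun z => f (BB α z)) r ≤
      ((l + 1) * (1 - α / π) + ε) * Lr r := by
  filter_upwards [up_BB_aux A h0 h1 (lt_min hε (by norm_num : (0 : ℝ) < 4)) (min_le_right _ _),
    tendsto_Lr.eventually_ge_atTop 0] with r hr hL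
  refine hr.trans (mul_le_mul_of_nonneg_right ?_ hL)
  linarith [min_le_left ε 4]

end Pool.Agent.Helper53.QF
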