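import Pool.Agent.Helper53.QF.Final
import Pool.Agent.Helper53.QF.Mono

/-!
# Asymptotics along a sequence of scales suffice

`T(r, f)` and `T(r, P)` increase with `r` (`charT_mono`). With `R(s) = 1 - e^(-s)`: if `s n → ∞`, `s (n+1) / s n → 1`,
`T(R(s n), f) ≤ (a + o(1)) s n`, `T(R(s n), P) ≤ o(1) s n`, and `t n → ∞`, `t (n+1) / t n → 1`,
`T(R(t n), f) ≥ (a - o(1)) t n`, `a > 0`, then `T(r, f) ~ a log 1/(1-r)` and `T(r, P) = o(T(r, f))`.
-/

set_option autoImplicit false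

open Filter Topology Metric Complex

namespace Pool.Agent.Helper53.QF

open Pool.Agent.Helper61.Nev

private theorem radius_lt (s : ℝ) : 1 - Real.exp (-s) < 1 := by
  linarith [Real.exp_pos (-s)]

private theorem le_radius {r s : ℝ} (hr : r < 1) (h : -Real.log (1 - r) ≤ s) :
    r ≤ 1 - Real.exp (-s) := by
  have h1 : Real.exp (-s) ≤ 1 - r := by
    rw [← Real.exp_log (by linarith : 0 < 1 - r)]
    exact Real.exp_le_exp.2 (by linarith)
  linarith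

private theorem radius_le {r s : ℝ} (hr : r < 1) (h : s ≤ -Real.log (1 - r)) :
    1 - Real.exp (-s) ≤ r := by
  have h1 : 1 - r ≤ Real.exp (-s) := by
    rw [← Real.exp_log (by linarith : 0 < 1 - r)]
    exact Real.exp_le_exp.2 (by linarith)
  linarith

/-- Upper bounds along a sequence. -/
theorem upper_of_seq {F : ℝ → ℝ} (hF : ∀ r R : ℝ, 0 ≤ r → r ≤ R → R < 1 → F r ≤ F R)
    {s : ℕ → ℝ} (hs : Tendsto s atTop atTop)
    (hratio : ∀ ε : ℝ, 0 < ε → ∀ᶠ n in atTop, s (n + 1) ≤ (1 + ε) * s n) {a : ℝ} (ha : 0 ≤ a)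
    (h : ∀ ε : ℝ, 0 < ε → ∀ᶠ n in atTop, F (1 - Real.exp (-s n)) ≤ (a + ε) * s n) :
    ∀ ε : ℝ, 0 < ε → ∀ᶠ r : ℝ in 𝓝[<] 1, F r ≤ (a + ε) * (-Real.log (1 - r)) := by
  intro ε hε
  set δ : ℝ := min 1 (ε / (2 * (a + 1))) with hδ
  have hδ0 : 0 < δ := lt_min one_pos (by positivity)
  have hδ1 : δ ≤ 1 := min_le_left _ _
  have hδ2 : δ * (2 * (a + 1)) ≤ ε := by
    have := min_le_right (1 : ℝ) (ε / (2 * (a + 1)))
    rwa [le_div_iff₀ (by positivity)] at this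
  -- (a + δ') (1 + δ) ≤ a + ε
  have hkey : (a + ε / 4) * (1 + δ) ≤ a + ε := by nlinarith
  obtain ⟨n0, hn0⟩ := eventually_atTop.1
    ((h (ε / 4) (by linarith)).and ((hratio δ hδ0).and (hs.eventually_ge_atTop 1)))
  have hbig : ∀ᶠ r : ℝ in 𝓝[<] 1, (∀ k ∈ Finset.range (n0 + 1), s k < -Real.log (1 - r)) ∧
      (0 < r ∧ r < 1) := by
    refine Filter.Eventually.and ?_ Pool.Agent.Helper61.Lac.eventually_pos_lt_one
    rw [Filter.eventually_all_finset]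
    intro k _
    exact Pool.Agent.Helper61.Lac.tendsto_neg_log_one_sub.eventually_gt_atTop (s k)
  filter_upwards [hbig] with r hr
  obtain ⟨hr1, hr2, hr3⟩ := hr
  have hex : ∃ n, -Real.log (1 - r) ≤ s n := (hs.eventually_ge_atTop _).exists
  classical
  obtain ⟨n, hn, hmin⟩ : ∃ n, -Real.log (1 - r) ≤ s n ∧ ∀ m < n, ¬ -Real.log (1 - r) ≤ s m :=
    ⟨Nat.find hex, Nat.find_spec hex, fun m hm => Nat.find_min hex hm⟩
  have hnn : n0 < n := by
    by_contra h1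
    exact absurd hn (not_le.2 (hr1 n (Finset.mem_range.2 (by omega))))
  obtain ⟨m, rfl⟩ : ∃ m, n = m + 1 := ⟨n - 1, by omega⟩
  have hm := hmin m (by omega)
  rw [not_le] at hm
  obtain ⟨g1, -, -⟩ := hn0 (m + 1) (by omega)
  obtain ⟨-, g2, g3⟩ := hn0 m (by omega)
  have h1 : F r ≤ F (1 - Real.exp (-s (m + 1))) :=
    hF _ _ hr2.le (le_radius hr3 hn) (radius_lt _)
  have h2 : (a + ε / 4) * s (m + 1) ≤ (a + ε / 4) * ((1 + δ) * s m) :=
    mul_le_mul_of_nonneg_left g2 (by positivity)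
  have h3 : (a + ε / 4) * ((1 + δ) * s m) ≤ (a + ε) * s m := by
    rw [← mul_assoc]
    exact mul_le_mul_of_nonneg_right hkey (by linarith)
  have h4 : (a + ε) * s m ≤ (a + ε) * (-Real.log (1 - r)) :=
    mul_le_mul_of_nonneg_left hm.le (by positivity)
  linarith

/-- Lower bounds along a sequence. -/
theorem lower_of_seq {F : ℝ → ℝ} (hF : ∀ r R : ℝ, 0 ≤ r → r ≤ R → R < 1 → F r ≤ F R)
    {t : ℕ → ℝ} (ht : Tendsto t atTop atTop)
    (hratio : ∀ ε : ℝ, 0 < ε → ∀ᶠ n in atTop, t (n + 1) ≤ (1 + ε) * t n) {a : ℝ} (ha : 0 ≤ a)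
    (h : ∀ ε : ℝ, 0 < ε → ∀ᶠ n in atTop, (a - ε) * t n ≤ F (1 - Real.exp (-t n))) :
    ∀ ε : ℝ, 0 < ε → ∀ᶠ r : ℝ in 𝓝[<] 1, (a - ε) * (-Real.log (1 - r)) ≤ F r := by
  intro ε hε
  rcases le_or_gt a (ε / 2) with hae | hae
  · -- then `a - ε < 0`: use one value of `F`
    obtain ⟨n, hn⟩ := (h (a + 1) (by linarith)).exists
    set C : ℝ := F (max 0 (1 - Real.exp (-t n))) with hC
    have h1 : ∀ᶠ r : ℝ in 𝓝[<] 1, -C / (ε / 2) ≤ -Real.log (1 - r) :=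
      Pool.Agent.Helper61.Lac.tendsto_neg_log_one_sub.eventually_ge_atTop _
    have hlt : max 0 (1 - Real.exp (-t n)) < 1 := max_lt one_pos (radius_lt _)
    filter_upwards [h1, Ioo_mem_nhdsLT hlt] with r hr1 hr2
    have h2 : C ≤ F r := hF _ _ (le_max_left _ _) hr2.1.le hr2.2
    rw [div_le_iff₀ (by linarith)] at hr1
    have h4 : 0 < r := lt_of_le_of_lt (le_max_left _ _) hr2.1
    have h3 : 0 ≤ -Real.log (1 - r) := by
      have := Real.log_nonpos (x := 1 - r) (by linarith [hr2.2]) (by linarith)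
      linarith
    nlinarith
  · set δ : ℝ := min 1 (ε / (4 * (a + 1))) with hδ
    have hδ0 : 0 < δ := lt_min one_pos (by positivity)
    have hδ2 : δ * (4 * (a + 1)) ≤ ε := by
      have := min_le_right (1 : ℝ) (ε / (4 * (a + 1)))
      rwa [le_div_iff₀ (by positivity)] at this
    obtain ⟨n0, hn0⟩ := eventually_atTop.1
      ((h (ε / 4) (by linarith)).and ((hratio δ hδ0).and (ht.eventually_ge_atTop 1)))
    have hbig : ∀ᶠ r : ℝ in 𝓝[<] 1, (∀ k ∈ Finset.range (n0 + 1), t k < -Real.log (1 - r)) ∧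
        (0 < r ∧ r < 1) := by
      refine Filter.Eventually.and ?_ Pool.Agent.Helper61.Lac.eventually_pos_lt_one
      rw [Filter.eventually_all_finset]
      intro k _
      exact Pool.Agent.Helper61.Lac.tendsto_neg_log_one_sub.eventually_gt_atTop (t k)
    filter_upwards [hbig] with r hr
    obtain ⟨hr1, hr2, hr3⟩ := hr
    have hex : ∃ n, -Real.log (1 - r) < t n := (ht.eventually_gt_atTop _).exists
    classical
    obtain ⟨n, hn, hmin⟩ : ∃ n, -Real.log (1 - r) < t n ∧ ∀ m < n, ¬ -Real.log (1 - r) < t m :=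
      ⟨Nat.find hex, Nat.find_spec hex, fun m hm => Nat.find_min hex hm⟩
    have hnn : n0 < n := by
      by_contra h1
      exact absurd hn (not_lt.2 (hr1 n (Finset.mem_range.2 (by omega))).le)
    obtain ⟨m, rfl⟩ : ∃ m, n = m + 1 := ⟨n - 1, by omega⟩
    have hm := hmin m (by omega)
    rw [not_lt] at hm
    obtain ⟨g1, g2, g3⟩ := hn0 m (by omega)
    have hm0 : 0 < t m := by linarith
    have hrad : 0 ≤ 1 - Real.exp (-t m) := by
      have : Real.exp (-t m) ≤ 1 := Real.exp_le_one_iff.2 (by linarith)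
      linarith
    have h1 : F (1 - Real.exp (-t m)) ≤ F r := hF _ _ hrad (radius_le hr3 hm) hr3
    have hL : -Real.log (1 - r) ≤ (1 + δ) * t m := hn.le.trans g2
    -- (a - ε) (1 + δ) ≤ a - ε/4 if a - ε ≥ 0
    rcases le_or_gt (a - ε) 0 with h0 | h0
    · have h3 : (a - ε) * (-Real.log (1 - r)) ≤ (a - ε) * t m := mul_le_mul_of_nonpos_left hm h0
      have h4 : (a - ε) * t m ≤ (a - ε / 4) * t m :=
        mul_le_mul_of_nonneg_right (by linarith) hm0.le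
      linarith
    · have h3 : (a - ε) * (-Real.log (1 - r)) ≤ (a - ε) * ((1 + δ) * t m) :=
        mul_le_mul_of_nonneg_left hL h0.le
      have h4 : (a - ε) * ((1 + δ) * t m) ≤ (a - ε / 4) * t m := by
        rw [← mul_assoc]
        refine mul_le_mul_of_nonneg_right ?_ hm0.le
        nlinarith
      linarith

/-- Everything that does not concern growth. -/
structure Basic (l : ℕ) (f Ψ P : ℂ → ℂ) : Prop where
  anf : AnalyticOnNhd ℂ f (ball 0 1)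
  anΨ : AnalyticOnNhd ℂ Ψ (ball 0 1)
  anP : AnalyticOnNhd ℂ P (ball 0 1)
  /-- `f` is zero-free -/
  f_ne : ∀ z ∈ ball (0 : ℂ) 1, f z ≠ 0
  /-- `Ψ` omits the value `1` -/
  Ψ_ne : ∀ z ∈ ball (0 : ℂ) 1, Ψ z ≠ 1
  /-- the identity `f^(l) = P Ψ` -/
  eq : ∀ z ∈ ball (0 : ℂ) 1, iteratedDeriv l f z = P z * Ψ z
  /-- `Ψ` is not constant -/
  Ψ_nc : ∃ z ∈ ball (0 : ℂ) 1, ∃ w ∈ ball (0 : ℂ) 1, Ψ z ≠ Ψ w
  /-- `P` is not identically zero -/
  P_ne : ∃ z ∈ ball (0 : ℂ) 1, P z ≠ 0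

/-- From asymptotics to `Data`. -/
theorem data_of_ev {l : ℕ} {a : ℝ} {f Ψ P : ℂ → ℂ} (ha : 0 < a) (B : Basic l f Ψ P)
    (U : ∀ ε : ℝ, 0 < ε → ∀ᶠ r : ℝ in 𝓝[<] 1, charT f r ≤ (a + ε) * (-Real.log (1 - r)))
    (L : ∀ ε : ℝ, 0 < ε → ∀ᶠ r : ℝ in 𝓝[<] 1, (a - ε) * (-Real.log (1 - r)) ≤ charT f r)
    (S : ∀ ε : ℝ, 0 < ε → ∀ᶠ r : ℝ in 𝓝[<] 1, charT P r ≤ ε * (-Real.log (1 - r))) :
    Data l a f Ψ P := by
  have monf : ∀ r R : ℝ, 0 ≤ r → r ≤ R → R < 1 → charT f r ≤ charT f R :=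
    fun r R h0 h1 h2 => charT_mono B.anf h0 h1 h2
  have hev : ∀ {p : ℝ → Prop}, (∀ᶠ r : ℝ in 𝓝[<] 1, p r) →
      ∃ ρ : ℝ, 0 < ρ ∧ ρ < 1 ∧ ∀ r : ℝ, ρ < r → r < 1 → p r := by
    intro p hp
    obtain ⟨ρ, hρ, hρr⟩ := mem_nhdsLT_iff_exists_Ioo_subset.1 hp
    refine ⟨max ρ (1 / 2), lt_of_lt_of_le (by norm_num) (le_max_right _ _),
      max_lt hρ (by norm_num), fun r h1 h2 => hρr ⟨lt_of_le_of_lt (le_max_left _ _) h1, h2⟩⟩
  refine { anf := B.anf, anΨ := B.anΨ, anP := B.anP, f_ne := B.f_ne, Ψ_ne := B.Ψ_ne, eq := B.eq,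
           Ψ_nc := B.Ψ_nc, P_ne := B.P_ne, up := ?_, low := ?_, small := ?_ }
  · intro ε hε
    obtain ⟨ρ, hρ0, hρ1, hρ⟩ := hev (U ε hε)
    refine ⟨charT f ((ρ + 1) / 2), fun r hr0 hr1 => ?_⟩
    have hL : 0 ≤ -Real.log (1 - r) := by
      have := Real.log_nonpos (x := 1 - r) (by linarith) (by linarith)
      linarith
    have hm0 : 0 ≤ charT f ((ρ + 1) / 2) :=
      Pool.Agent.Helper61.Lac.charT_nonneg B.anf (by linarith)
    rcases le_or_gt r ((ρ + 1) / 2) with h1 | h1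
    · have h2 := monf r ((ρ + 1) / 2) hr0.le h1 (by linarith)
      have h3 : 0 ≤ (a + ε) * (-Real.log (1 - r)) := mul_nonneg (by linarith) hL
      linarith
    · have h2 := hρ r (by linarith) hr1
      linarith
  · intro ε hε
    obtain ⟨ρ', hρ0, hρ1, hρ'⟩ := hev (L ε hε)
    refine ⟨0, fun ρ hρ => ⟨(max ρ ρ' + 1) / 2, ?_, ?_, ?_, ?_⟩⟩
    · have := le_max_left ρ ρ'
      have := max_lt hρ hρ1
      linarith
    · have := le_max_right ρ ρ'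
      linarith
    · have := max_lt hρ hρ1
      linarith
    · rw [sub_zero]
      have h1 := le_max_right ρ ρ'
      have h2 := max_lt hρ hρ1
      exact hρ' _ (by linarith) (by linarith)
  · intro ε hε K
    have h1 : ∀ᶠ r : ℝ in 𝓝[<] 1, charT P r + K ≤ ε * charT f r := by
      have hK : ∀ᶠ r : ℝ in 𝓝[<] 1, K / (ε * a / 4) ≤ -Real.log (1 - r) :=
        Pool.Agent.Helper61.Lac.tendsto_neg_log_one_sub.eventually_ge_atTop _
      filter_upwards [S (ε * a / 4) (by positivity), L (a / 2) (by positivity), hK,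
        Pool.Agent.Helper61.Lac.tendsto_neg_log_one_sub.eventually_ge_atTop 0] with r h1 h2 h3 h4
      rw [div_le_iff₀ (by positivity)] at h3
      have h5 : ε * ((a - a / 2) * (-Real.log (1 - r))) ≤ ε * charT f r :=
        mul_le_mul_of_nonneg_left h2 hε.le
      nlinarith
    obtain ⟨ρ, -, hρ1, hρ⟩ := hev h1
    exact ⟨ρ, hρ1, hρ⟩

/-- The growth statements along two sequences of scales. -/
theorem growth_of_seq {a : ℝ} {f P : ℂ → ℂ} (ha : 0 < a) (anf : AnalyticOnNhd ℂ f (ball 0 1))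
    (anP : AnalyticOnNhd ℂ P (ball 0 1))
    {s t : ℕ → ℝ} (hs : Tendsto s atTop atTop)
    (hsr : ∀ ε : ℝ, 0 < ε → ∀ᶠ n in atTop, s (n + 1) ≤ (1 + ε) * s n)
    (ht : Tendsto t atTop atTop)
    (htr : ∀ ε : ℝ, 0 < ε → ∀ᶠ n in atTop, t (n + 1) ≤ (1 + ε) * t n)
    (hup : ∀ ε : ℝ, 0 < ε → ∀ᶠ n in atTop, charT f (1 - Real.exp (-s n)) ≤ (a + ε) * s n)
    (hlow : ∀ ε : ℝ, 0 < ε → ∀ᶠ n in atTop, (a - ε) * t n ≤ charT f (1 - Real.exp (-t n)))
    (hP : ∀ ε : ℝ, 0 < ε → ∀ᶠ n in atTop, charT P (1 - Real.exp (-s n)) ≤ ε * s n) :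
    (∀ ε : ℝ, 0 < ε → ∀ᶠ r : ℝ in 𝓝[<] 1, charT f r ≤ (a + ε) * (-Real.log (1 - r))) ∧
    (∀ ε : ℝ, 0 < ε → ∀ᶠ r : ℝ in 𝓝[<] 1, (a - ε) * (-Real.log (1 - r)) ≤ charT f r) ∧
    (∀ ε : ℝ, 0 < ε → ∀ᶠ r : ℝ in 𝓝[<] 1, charT P r ≤ ε * (-Real.log (1 - r))) := by
  have monf : ∀ r R : ℝ, 0 ≤ r → r ≤ R → R < 1 → charT f r ≤ charT f R :=
    fun r R h0 h1 h2 => charT_mono anf h0 h1 h2
  have monP : ∀ r R : ℝ, 0 ≤ r → r ≤ R → R < 1 → charT P r ≤ charT P R :=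
    fun r R h0 h1 h2 => charT_mono anP h0 h1 h2
  refine ⟨upper_of_seq monf hs hsr ha.le hup, lower_of_seq monf ht htr ha.le hlow, ?_⟩
  intro ε hε
  have S := upper_of_seq monP hs hsr le_rfl (fun ε hε => by
    filter_upwards [hP ε hε] with n hn
    rw [zero_add]
    exact hn) ε hε
  filter_upwards [S] with r hr
  rw [zero_add] at hr
  exact hr

/-- **The interface.** Growth along two sequences of scales. -/
theorem data_of_seq {l : ℕ} {a : ℝ} {f Ψ P : ℂ → ℂ} (ha : 0 < a) (B : Basic l f Ψ P)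
    {s t : ℕ → ℝ} (hs : Tendsto s atTop atTop)
    (hsr : ∀ ε : ℝ, 0 < ε → ∀ᶠ n in atTop, s (n + 1) ≤ (1 + ε) * s n)
    (ht : Tendsto t atTop atTop)
    (htr : ∀ ε : ℝ, 0 < ε → ∀ᶠ n in atTop, t (n + 1) ≤ (1 + ε) * t n)
    (hup : ∀ ε : ℝ, 0 < ε → ∀ᶠ n in atTop, charT f (1 - Real.exp (-s n)) ≤ (a + ε) * s n)
    (hlow : ∀ ε : ℝ, 0 < ε → ∀ᶠ n in atTop, (a - ε) * t n ≤ charT f (1 - Real.exp (-t n)))
    (hP : ∀ ε : ℝ, 0 < ε → ∀ᶠ n in atTop, charT P (1 - Real.exp (-s n)) ≤ ε * s n) :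
    Data l a f Ψ P := by
  obtain ⟨U, L, S⟩ := growth_of_seq ha B.anf B.anP hs hsr ht htr hup hlow hP
  exact data_of_ev ha B U L S

end Pool.Agent.Helper53.QF
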